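import Mathlib

set_option autoImplicit false

namespace Pool.Agent.Lib.MP_03e5d0_nt.FF

open Polynomial

noncomputable section

/-- The places of a field `K`: the valuation subrings that are discrete valuation rings.  For
`K = F(t)` with `F` finite these are the local rings at the monic irreducible polynomials and at
infinity. -/
def Place (K : Type) [Field K] : Type := {O : ValuationSubring K // IsDiscreteValuationRing O}

/-- The L-function as a formal Dirichlet series: the product over all places of the local Euler
factors of Mathlib (good, split, nonsplit and additive reduction of a minimal model). -/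
def Lfun {K : Type} [Field K] (W : WeierstrassCurve K) : ArithmeticFunction ℤ :=
  ArithmeticFunction.eulerProduct fun v : Place K =>
    haveI := v.2
    W.localEulerFactor v.1

/-- The Dirichlet series of `a` converges in a right half plane to an entire function that
vanishes to order exactly `r` at `s = 1`. -/
def HasOrd (a : ArithmeticFunction ℤ) (r : ℕ) : Prop :=
  ∃ f : ℂ → ℂ, Differentiable ℂ f ∧
    (∃ σ : ℝ, ∀ s : ℂ, σ < s.re → LSeriesHasSum (fun n => (a n : ℂ)) s (f s)) ∧
    analyticOrderAt f 1 = r

/-- `W` has analytic rank `r`. -/
def HasAnRank {K : Type} [Field K] (W : WeierstrassCurve K) (r : ℕ) : Prop := HasOrd (Lfun W) r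

/-- The quadratic twist `y^2 = x (x - D A) (x - D B)` of `y^2 = x (x - A) (x - B)` by `D`. -/
def twist {F : Type} [Field F] (A B D : F[X]) : WeierstrassCurve (RatFunc F) :=
  ⟨0, -(algebraMap F[X] (RatFunc F) (D * A) + algebraMap F[X] (RatFunc F) (D * B)), 0,
    algebraMap F[X] (RatFunc F) (D * A) * algebraMap F[X] (RatFunc F) (D * B), 0⟩

end

end Pool.Agent.Lib.MP_03e5d0_nt.FF
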