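import Mathlib
import Pool.Agent.Lib.MP_03e5d0_nt.CLoc

set_option autoImplicit false
set_option linter.unusedSectionVars false
set_option linter.unusedVariables false

namespace Pool.Agent.Lib.MP_16ef92_ag.FF

open Polynomial WeierstrassCurve Pool.Agent.Lib.MP_03e5d0_nt

noncomputable section

/-- The curve `y^2 = x (x - a) (x - b)`. -/
def cv {k : Type} [CommRing k] (a b : k) : WeierstrassCurve k := ⟨0, -(a + b), 0, a * b, 0⟩

theorem cv_map {k k' : Type} [CommRing k] [CommRing k'] (f : k →+* k') (a b : k) :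
    (cv a b).map f = cv (f a) (f b) := by
  ext <;> simp [cv]

theorem cv_Δ {k : Type} [CommRing k] (a b : k) : (cv a b).Δ = 2 ^ 4 * (a * b * (a - b)) ^ 2 := by
  simp only [cv, WeierstrassCurve.Δ, b₂, b₄, b₆, b₈]
  ring

theorem cv_c₄ {k : Type} [CommRing k] (a b : k) : (cv a b).c₄ = 2 ^ 4 * (a ^ 2 - a * b + b ^ 2) := by
  simp only [cv, c₄, b₂, b₄]
  ring

theorem four_dvd {G : Type} [AddCommGroup G] {P Q : G} (hP : P ≠ 0) (hQ : Q ≠ 0) (h : Q ≠ P)
    (h1 : 2 • P = 0) (h2 : 2 • Q = 0) : 4 ∣ Nat.card G := by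
  rw [AddSubgroup.card_eq_card_quotient_mul_card_addSubgroup (AddSubgroup.zmultiples P),
    Nat.card_zmultiples, addOrderOf_eq_prime h1 hP]
  refine Nat.mul_dvd_mul_right (a := 2) ?_ 2
  rw [← addOrderOf_eq_prime (x := (Q : G ⧸ AddSubgroup.zmultiples P)) (p := 2)
    (by rw [← QuotientAddGroup.mk_nsmul, h2, QuotientAddGroup.mk_zero]) fun e => ?_]
  · exact addOrderOf_dvd_natCard _
  obtain ⟨n, rfl⟩ := (QuotientAddGroup.eq_zero_iff Q).1 e
  have h3 : (2 : ℤ) • P = 0 := by exact_mod_cast h1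
  rcases Int.even_or_odd' n with ⟨j, rfl | rfl⟩
  · exact hQ (by simp only [mul_comm 2 j, mul_smul, h3, smul_zero])
  · exact h (by simp only [mul_comm 2 j, add_smul, mul_smul, h3, smul_zero, zero_add, one_smul])

variable {k : Type} [Field k] (h2 : (2 : k) ≠ 0) {a b : k}
include h2

theorem cv_good (h : a * b * (a - b) ≠ 0) : (lp (cv a b)).map (Int.castRingHom (ZMod 4)) =
    (1 - X) * (1 - C (Nat.card k : ZMod 4) * X) := by
  classical
  have hΔ : (cv a b).Δ ≠ 0 := by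
    rw [cv_Δ]
    exact mul_ne_zero (pow_ne_zero _ h2) (pow_ne_zero _ h)
  have h1 : (cv a b).toAffine.Nonsingular 0 0 :=
    (Affine.equation_iff_nonsingular_of_Δ_ne_zero hΔ).1 (by simp [Affine.equation_iff, cv])
  have h3 : (cv a b).toAffine.Nonsingular a 0 :=
    (Affine.equation_iff_nonsingular_of_Δ_ne_zero hΔ).1 (by
      simp only [Affine.equation_iff, cv]
      ring)
  have h4 := four_dvd (P := Affine.Point.some _ _ h1) (Q := Affine.Point.some _ _ h3)
    (Affine.Point.some_ne_zero _) (Affine.Point.some_ne_zero _)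
    (fun e => h (by rw [(Affine.Point.some.inj e).1]; simp))
    ((two_nsmul _).trans (Affine.Point.add_self_of_Y_eq (by simp [cv])))
    ((two_nsmul _).trans (Affine.Point.add_self_of_Y_eq (by simp [cv])))
  have h5 := (ZMod.natCast_eq_zero_iff _ 4).2 h4
  simp only [lp_good hΔ, Polynomial.map_add, Polynomial.map_sub, Polynomial.map_mul,
    Polynomial.map_pow, Polynomial.map_one, map_X, map_sub, map_add, map_natCast, map_one,
    Polynomial.map_natCast]
  rw [← C_eq_natCast (Nat.card (cv a b).toAffine.Point), h5, C_0]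
  ring

theorem cv_add : lp (cv (0 : k) 0) = 1 := lp_add (by simp [cv_Δ]) (by simp [cv_c₄])

theorem cv_mult (h : a * b * (a - b) = 0) (h' : a ≠ 0 ∨ b ≠ 0) :
    lp (cv a b) = 1 - X ∨ lp (cv a b) = 1 + X := by
  have hΔ : (cv a b).Δ = 0 := by simp [cv_Δ, h]
  have hc : (cv a b).c₄ ≠ 0 := by
    rw [cv_c₄]
    refine mul_ne_zero (pow_ne_zero _ h2) fun e => ?_
    have e1 : a ^ 3 = 0 := by linear_combination a * e + h
    have e2 : b ^ 3 = 0 := by linear_combination b * e - h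
    exact h'.elim (fun t => t (pow_eq_zero_iff three_ne_zero |>.1 e1))
      fun t => t (pow_eq_zero_iff three_ne_zero |>.1 e2)
  by_cases hn : ∃ T, nodeq (cv a b) T = 0
  exacts [Or.inl (lp_split hΔ hc hn), Or.inr (lp_nonsplit hΔ hc hn)]

theorem cv_zero (hb : b ≠ 0) : (IsSquare (-b) → lp (cv 0 b) = 1 - X) ∧
    (¬ IsSquare (-b) → lp (cv 0 b) = 1 + X) := by
  have hΔ : (cv 0 b).Δ = 0 := by simp [cv_Δ]
  have hc : (cv 0 b).c₄ ≠ 0 := by simp [cv_c₄, hb, h2]
  have hn : (∃ T, nodeq (cv 0 b) T = 0) ↔ IsSquare (-b) := exists_congr fun T => by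
    rw [show nodeq (cv 0 b) T = 2 ^ 4 * b ^ 2 * (T * T - -b) by
      simp only [nodeq, cv, c₄, b₂, b₄, b₆]; ring, mul_eq_zero,
      or_iff_right (mul_ne_zero (pow_ne_zero _ h2) (pow_ne_zero _ hb)), sub_eq_zero, eq_comm]
  exact ⟨fun h => lp_split hΔ hc (hn.2 h), fun h => lp_nonsplit hΔ hc (mt hn.1 h)⟩

end

end Pool.Agent.Lib.MP_16ef92_ag.FF
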