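import Mathlib
import Pool.Agent.Lib.MP_03e5d0_nt.FF.ELoc
import Pool.Agent.Lib.MP_16ef92_ag.GF.Rep
import Pool.Agent.Lib.MP_16ef92_ag.GF.Anat1

set_option autoImplicit false
set_option linter.unusedSectionVars false
set_option linter.unusedVariables false

namespace Pool.Agent.Lib.MP_16ef92_ag.FF

open Polynomial GF Pool.Agent.Lib.MP_03e5d0_nt
open scoped Classical

noncomputable section

variable {F : Type} [Field F] [Fintype F]

/-- The degree of a place. -/
def pdg : Option F[X] → ℕ
  | none => 1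
  | some p => p.natDegree

variable (F) in
/-- The places of degree at most `n`, with infinity. -/
def Pls (n : ℕ) : Finset (Option F[X]) := Finset.insertNone (anP F (Finset.Icc 1 n))

/-- The local polynomials. -/
def lpo (A B D : F[X]) : Option F[X] → ℤ[X]
  | none => if Even (A.natDegree + D.natDegree) then
      lp (cv (D * A).leadingCoeff (D * B).leadingCoeff) else 1
  | some p => if h : Irreducible p then
      haveI := Fact.mk h
      lp (cv (AdjoinRoot.mk p (D * A)) (AdjoinRoot.mk p (D * B))) else 1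

/-- The inverse of the truncated Euler product. -/
def GG (A B D : F[X]) (n : ℕ) : ℤ[X] := ∏ v ∈ Pls F n, expand ℤ (pdg v) (lpo A B D v)

theorem some_mem_Pls {n : ℕ} {p : F[X]} : some p ∈ Pls F n ↔ Prm p ∧ p.natDegree ≤ n := by
  rw [Pls, Finset.some_mem_insertNone, an_memP, Finset.mem_Icc]
  exact and_congr_right fun h => and_iff_right h.pos

theorem none_mem_Pls (n : ℕ) : none ∈ Pls F n := Finset.none_mem_insertNone

theorem Pls_mono {m n : ℕ} (h : m ≤ n) : Pls F m ⊆ Pls F n := by
  rintro (_ | p) hp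
  · exact none_mem_Pls n
  · exact some_mem_Pls.2 ⟨(some_mem_Pls.1 hp).1, (some_mem_Pls.1 hp).2.trans h⟩

theorem pdg_pos {n : ℕ} {v : Option F[X]} (h : v ∈ Pls F n) : 0 < pdg v := by
  cases v with
  | none => exact one_pos
  | some p => exact (some_mem_Pls.1 h).1.pos

theorem lpo_some (A B D : F[X]) (p : F[X]) [h : Fact (Irreducible p)] : lpo A B D (some p) =
    lp (cv (AdjoinRoot.mk p (D * A)) (AdjoinRoot.mk p (D * B))) := dif_pos h.out

theorem card_adj (p : F[X]) [h : Fact (Irreducible p)] :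
    Nat.card (AdjoinRoot p) = Fintype.card F ^ p.natDegree := by
  have := (AdjoinRoot.powerBasis h.out.ne_zero).finite
  rw [Module.natCard_eq_pow_finrank (K := F), (AdjoinRoot.powerBasis h.out.ne_zero).finrank,
    AdjoinRoot.powerBasis_dim, Nat.card_eq_fintype_card]

theorem finite_adj (p : F[X]) [h : Fact (Irreducible p)] : Finite (AdjoinRoot p) :=
  Nat.finite_of_card_ne_zero (card_adj p ▸ pow_ne_zero _ Fintype.card_ne_zero)

theorem sum_anF {D : F[X]} (h : Squarefree D) : ∑ p ∈ anF D, p.natDegree = D.natDegree := by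
  have h1 := (UniqueFactorizationMonoid.squarefree_iff_nodup_normalizedFactors h.ne_zero).1 h
  rw [← natDegree_eq_of_degree_eq (degree_eq_degree_of_associated
    (UniqueFactorizationMonoid.prod_normalizedFactors h.ne_zero)), natDegree_multiset_prod _
    (UniqueFactorizationMonoid.zero_notMem_normalizedFactors _), anF, Finset.sum,
    Multiset.toFinset_val, h1.dedup]

/-- The root number, read modulo four. -/
def rootN (A B D : F[X]) : ZMod 4 :=
  (if Even (A.natDegree + D.natDegree) then 1 else (Fintype.card F : ZMod 4)) *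
    ((∏ p ∈ anF (A * B * (A - B)), (((lpo A B D (some p)).coeff 1 : ℤ) : ZMod 4)) *
      (Fintype.card F : ZMod 4) ^ D.natDegree)

variable [Clos F] [hq : Fact (Odd (Fintype.card F))]

theorem two_adj (p : F[X]) [Fact (Irreducible p)] : (2 : AdjoinRoot p) ≠ 0 := fun e =>
  two_neF (F := F) ((algebraMap F (AdjoinRoot p)).injective (by rw [map_ofNat, e, map_zero]))

theorem q_sq : (Fintype.card F : ZMod 4) ^ 2 = 1 := by
  obtain ⟨k, hk⟩ := hq.out
  have h : ∀ x : ZMod 4, (2 * x + 1) ^ 2 = 1 := by decide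
  rw [hk]
  exact_mod_cast h k

/-- The root number changes sign under a suitable multiplication modulo the conductor. -/
theorem exists_flip {A B : F[X]} (hsq : Squarefree (A * B * (A - B))) (hA : 0 < A.natDegree) :
    ∃ u, IsCoprime u (A * B * (A - B)) ∧ ∀ D D' : F[X], D.natDegree = D'.natDegree →
      Squarefree (A * B * (A - B) * D) → A * B * (A - B) ∣ D' - u * D →
      rootN A B D' = -rootN A B D := by
  obtain ⟨p, h1, h2, h3⟩ := exists_monic_irreducible_factor A (not_isUnit_of_natDegree_pos A hA)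
  have := Fact.mk h2
  have := finite_adj p
  have := Fintype.ofFinite (AdjoinRoot p)
  have h4 : p ∣ A * B * (A - B) := (h3.mul_right B).mul_right _
  obtain ⟨M, hM⟩ := id h4
  obtain ⟨α, β, hαβ⟩ : IsCoprime p M := (squarefree_mul_iff.1 (hM ▸ hsq)).1.isCoprime
  obtain ⟨w', hw⟩ := FiniteField.exists_nonsquare (F := AdjoinRoot p) fun e =>
    two_adj p (by exact_mod_cast (ringChar.spec (AdjoinRoot p) 2).2 e.dvd)
  obtain ⟨w, rfl⟩ := AdjoinRoot.mk_surjective w'
  have h5 : AdjoinRoot.mk p (1 + M * ((w - 1) * β)) = AdjoinRoot.mk p w :=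
    AdjoinRoot.mk_eq_mk.2 ⟨-((w - 1) * α), by linear_combination (w - 1) * hαβ⟩
  refine ⟨1 + M * ((w - 1) * β), ?_, fun D D' e1 e2 e3 => ?_⟩
  · rw [hM]
    refine (h2.coprime_iff_not_dvd.2 fun e => hw ?_).symm.mul_right
      (isCoprime_one_left.add_mul_left_left _)
    rw [← h5, AdjoinRoot.mk_eq_zero.2 e]
    exact IsSquare.zero
  have h6 : p ∈ anF (A * B * (A - B)) := (an_memF hsq.ne_zero).2 ⟨⟨h1, h2⟩, h4⟩
  rw [rootN, rootN, e1, ← Finset.mul_prod_erase _ _ h6, ← Finset.mul_prod_erase _ _ h6,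
    Finset.prod_congr rfl (g := fun r => (((lpo A B D (some r)).coeff 1 : ℤ) : ZMod 4))
      fun r hr => ?_, ← mul_neg, ← neg_mul, ← neg_mul]
  · congr 3
    have a1 : AdjoinRoot.mk p A = 0 := AdjoinRoot.mk_eq_zero.2 h3
    have a2 : AdjoinRoot.mk p D' = AdjoinRoot.mk p w * AdjoinRoot.mk p D := by
      rw [← h5, ← map_mul]
      exact AdjoinRoot.mk_eq_mk.2 (h4.trans e3)
    have a3 : AdjoinRoot.mk p (D * B) ≠ 0 := fun e => h2.not_isUnit (e2 p
      ((mul_dvd_mul h3 (AdjoinRoot.mk_eq_zero.1 e)).trans ⟨A - B, by ring⟩))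
    have a4 : AdjoinRoot.mk p w ≠ 0 := fun e => hw (e ▸ IsSquare.zero)
    have a5 := map_mul (quadraticChar (AdjoinRoot p)) (AdjoinRoot.mk p w)
      (-AdjoinRoot.mk p (D * B))
    rw [quadraticChar_neg_one_iff_not_isSquare.2 hw, mul_neg] at a5
    rw [lpo_some, lpo_some, map_mul _ D', map_mul _ D A, a1, mul_zero, mul_zero, map_mul _ D', a2,
      mul_assoc, ← map_mul _ D]
    by_cases a6 : IsSquare (-AdjoinRoot.mk p (D * B))
    · rw [(quadraticChar_one_iff_isSquare (neg_ne_zero.2 a3)).2 a6, mul_one] at a5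
      rw [(cv_zero (two_adj p) a3).1 a6, (cv_zero (two_adj p) (mul_ne_zero a4 a3)).2
        (quadraticChar_neg_one_iff_not_isSquare.1 a5)]
      simp [coeff_one]
    · rw [quadraticChar_neg_one_iff_not_isSquare.2 a6, neg_mul_neg, mul_one] at a5
      rw [(cv_zero (two_adj p) a3).2 a6, (cv_zero (two_adj p) (mul_ne_zero a4 a3)).1
        ((quadraticChar_one_iff_isSquare (neg_ne_zero.2 (mul_ne_zero a4 a3))).1 a5)]
      simp [coeff_one]
  · obtain ⟨b1, b2⟩ := Finset.mem_erase.1 hr
    obtain ⟨b3, b4⟩ := (an_memF hsq.ne_zero).1 b2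
    have := Fact.mk b3.2
    have b5 : r ∣ M := ((b3.2.prime.dvd_or_dvd (hM ▸ b4))).resolve_left fun e =>
      b1 (b3.eq_of_dvd ⟨h1, h2⟩ e)
    have b6 : AdjoinRoot.mk r D' = AdjoinRoot.mk r D := AdjoinRoot.mk_eq_mk.2 (by
      have := dvd_add (b4.trans e3) (b5.mul_right ((w - 1) * β * D))
      rwa [show D' - (1 + M * ((w - 1) * β)) * D + M * ((w - 1) * β * D) = D' - D by ring] at this)
    simp only [lpo_some, map_mul, b6]

end

end Pool.Agent.Lib.MP_16ef92_ag.FF
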