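import Mathlib
import Pool.Agent.Lib.MP_16ef92_ag.GF.Adm

set_option autoImplicit false
set_option linter.unusedSectionVars false
set_option linter.unusedVariables false

namespace Pool.Agent.Lib.MP_16ef92_ag.GF

open Polynomial Filter
open scoped Classical

noncomputable section

variable {F : Type} [Field F] [Fintype F]

theorem half_tail (K d : ℕ) :
    (((anO F d).filter fun E => ∃ p, Prm p ∧ K < p.natDegree ∧ p * p ∣ E).card : ℝ) ≤
      (anO F d).card * (2 / (K + 1)) := by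
  have h1 : ((anO F d).filter fun E => ∃ p, Prm p ∧ K < p.natDegree ∧ p * p ∣ E) ⊆
      (anP F (Finset.Ioo K (d + 1))).biUnion fun p => (anO F d).filter (p * p ∣ ·) := by
    intro E hE
    obtain ⟨h2, p, h3, h4, h5⟩ := Finset.mem_filter.1 hE
    have h6 := natDegree_le_of_dvd h5 (an_mem.1 h2).2
    rw [natDegree_mul h3.ne h3.ne, (an_mem.1 h2).1] at h6
    exact Finset.mem_biUnion.2 ⟨p, an_memP.2 ⟨h3, Finset.mem_Ioo.2 ⟨h4, by omega⟩⟩,
      Finset.mem_filter.2 ⟨h2, h5⟩⟩
  refine (Nat.cast_le.2 ((Finset.card_le_card h1).trans Finset.card_biUnion_le)).trans ?_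
  push_cast
  refine (Finset.sum_le_sum fun p hp => an_cnt_le d
    (mul_ne_zero (an_memP.1 hp).1.ne (an_memP.1 hp).1.ne)).trans ?_
  rw [← Finset.mul_sum, anP, Finset.sum_biUnion fun a _ b _ hab => Finset.disjoint_left.2
    fun r ha hb => hab ((mem_Pn.1 ha).2.symm.trans (mem_Pn.1 hb).2)]
  refine mul_le_mul_of_nonneg_left ((Finset.sum_le_sum fun n hn => ?_).trans
    (sum_Ioo_inv_sq_le K (d + 1))) (Nat.cast_nonneg _)
  have hn0 : 0 < n := (Nat.zero_le K).trans_lt (Finset.mem_Ioo.1 hn).1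
  have h2 : ∀ p ∈ Pn F n, anW (p * p) ≤ anW p * (n : ℝ)⁻¹ := fun p hp => by
    rw [anW_mul (mem_Pn.1 hp).1.ne (mem_Pn.1 hp).1.ne]
    refine mul_le_mul_of_nonneg_left ?_ (anW_nonneg p)
    rw [anW, (mem_Pn.1 hp).2]
    exact inv_anti₀ (by exact_mod_cast hn0)
      (by exact_mod_cast (Nat.lt_pow_self Fintype.one_lt_card).le)
  refine (Finset.sum_le_sum h2).trans ?_
  rw [← Finset.sum_mul, sq, mul_inv]
  exact mul_le_mul_of_nonneg_right (an_le hn0) (by positivity)

theorem half_le {N u : F[X]} (hN : Squarefree N) (hu : IsCoprime u N) (K : ℕ) :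
    ∀ᶠ d in atTop, ∀ P Q : F[X] → Prop, (∀ D D' : F[X], D.natDegree = d → D'.natDegree = d →
      D.leadingCoeff = D'.leadingCoeff → Squarefree (N * D) → Squarefree (N * D') →
      N ∣ D' - u * D → P D → Q D') →
    ({D : F[X] | D.natDegree = d ∧ Squarefree (N * D) ∧ P D}.ncard : ℝ) ≤
      {D : F[X] | D.natDegree = d ∧ Squarefree (N * D) ∧ Q D}.ncard +
        (anO F d).card * (2 / (K + 1)) := by
  set M := ∏ p ∈ (anP F (Finset.Iic K)).filter (¬ · ∣ N), p * p with hM
  have hc : IsCoprime N M := IsCoprime.prod_right fun p hp => by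
    rw [Finset.mem_filter, an_memP] at hp
    have := (hp.1.1.2.coprime_iff_not_dvd.2 hp.2).symm
    exact this.mul_right this
  have h0 : N * M ≠ 0 := mul_ne_zero hN.ne_zero (Finset.prod_ne_zero_iff.2 fun p hp => by
    rw [Finset.mem_filter, an_memP] at hp
    exact mul_ne_zero hp.1.1.ne hp.1.1.ne)
  obtain ⟨α, β, hαβ⟩ := hc
  filter_upwards [eventually_ge_atTop (N * M).natDegree] with d hd P Q hPQ
  let σ : F[X] → F[X] := fun D => D + (u - 1) * (β * M) * D % (N * M)
  have h1 : ∀ D, N * M ∣ σ D - (D + (u - 1) * (β * M) * D) := fun D =>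
    ⟨-((u - 1) * (β * M) * D / (N * M)), by
      linear_combination EuclideanDomain.div_add_mod ((u - 1) * (β * M) * D) (N * M)⟩
  have h2 : ∀ D, N ∣ σ D - u * D := fun D => by
    obtain ⟨c, hc⟩ := h1 D
    exact ⟨M * c - (u - 1) * α * D, by linear_combination hc + (u - 1) * D * hαβ⟩
  have h3 : ∀ D, M ∣ σ D - D := fun D => by
    obtain ⟨c, hc⟩ := h1 D
    exact ⟨N * c + (u - 1) * β * D, by linear_combination hc⟩
  have h4 : Function.Injective σ := fun D D' e => by
    have a1 : N ∣ D - D' := hu.symm.dvd_of_dvd_mul_left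
      (by simpa [e, mul_sub] using dvd_sub (h2 D') (h2 D))
    have a2 : M ∣ D - D' := by simpa [e] using dvd_sub (h3 D') (h3 D)
    have a3 : (u - 1) * (β * M) * D % (N * M) = (u - 1) * (β * M) * D' % (N * M) :=
      mod_eq_of_dvd_sub (by
        rw [← mul_sub]
        exact (IsCoprime.mul_dvd ⟨α, β, hαβ⟩ a1 a2).mul_left _)
    simpa only [σ, a3, add_left_inj] using e
  have h5 : ∀ D : F[X], D.natDegree = d → D ≠ 0 →
      ((u - 1) * (β * M) * D % (N * M)).degree < D.degree := fun D e hD =>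
    (degree_mod_lt _ h0).trans_le (by
      rw [degree_eq_natDegree h0, degree_eq_natDegree hD, e]
      exact_mod_cast hd)
  have h6 := Set.ncard_le_ncard_of_injOn (s := {D : F[X] | D.natDegree = d ∧
      Squarefree (N * D) ∧ P D}) (t := {D : F[X] | D.natDegree = d ∧ Squarefree (N * D) ∧ Q D} ∪
      ↑((anO F d).filter fun E => ∃ p, Prm p ∧ K < p.natDegree ∧ p * p ∣ E)) σ
    (fun D ⟨b1, b2, b3⟩ => by
      have hD : D ≠ 0 := right_ne_zero_of_mul b2.ne_zero
      have b4 : (σ D).degree = D.degree := degree_add_eq_left_of_degree_lt (h5 D b1 hD)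
      have b5 := (natDegree_eq_of_degree_eq b4).trans b1
      by_cases b6 : Squarefree (N * σ D)
      · exact Or.inl ⟨b5, b6, hPQ D _ b1 b5 (leadingCoeff_add_of_degree_lt' (h5 D b1 hD)).symm
          b2 b6 (h2 D) b3⟩
      have b7 : IsCoprime N (σ D) := by
        obtain ⟨c, hc⟩ := h2 D
        rw [sub_eq_iff_eq_add'.1 hc]
        exact (hu.symm.mul_right (squarefree_mul_iff.1 b2).1.isCoprime).add_mul_left_right c
      rw [squarefree_mul_iff, and_iff_right b7.isRelPrime, and_iff_right hN, Squarefree] at b6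
      push Not at b6
      obtain ⟨x, b8, b9⟩ := b6
      obtain ⟨p, c1, c2, c3⟩ := exists_monic_irreducible_factor x b9
      have c4 := (mul_dvd_mul c3 c3).trans b8
      refine Or.inr (Finset.mem_coe.2 (Finset.mem_filter.2 ⟨an_mem.2 ⟨b5, fun e => hD ?_⟩,
        p, ⟨c1, c2⟩, not_le.1 fun c5 => c2.not_isUnit ((squarefree_mul_iff.1 b2).2.2 p ?_), c4⟩))
      · exact degree_eq_bot.1 (b4.symm.trans (congrArg degree e))
      · have c6 : p * p ∣ M := Finset.dvd_prod_of_mem _ (Finset.mem_filter.2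
          ⟨an_memP.2 ⟨⟨c1, c2⟩, Finset.mem_Iic.2 c5⟩, fun c7 =>
            c2.not_isUnit (b7.isUnit_of_dvd' c7 ((dvd_mul_right p p).trans c4))⟩)
        simpa using dvd_sub c4 (c6.trans (h3 D))) h4.injOn
    (((finite_deg d).subset fun D hD => hD.1).union (Finset.finite_toSet _))
  have h7 := (Nat.cast_le (α := ℝ)).2 (h6.trans (Set.ncard_union_le _ _))
  rw [Set.ncard_coe_finset, Nat.cast_add] at h7
  linarith [half_tail (F := F) K d]

/-- A property that flips under multiplication by `u` modulo `N` has density one half. -/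
theorem half (hq : Odd (Fintype.card F)) {N u : F[X]} (hN : Squarefree N) (hu : IsCoprime u N)
    (P : F[X] → Prop) (hP : ∀ᶠ d in atTop, ∀ D D' : F[X], D.natDegree = d → D'.natDegree = d →
      D.leadingCoeff = D'.leadingCoeff → Squarefree (N * D) → Squarefree (N * D') →
      N ∣ D' - u * D → (P D ↔ ¬ P D')) :
    Tendsto (fun d : ℕ => ({D : F[X] | D.natDegree = d ∧ Squarefree (N * D) ∧ P D}.ncard : ℝ) /
      ({D : F[X] | D.natDegree = d ∧ Squarefree (N * D)}.ncard : ℝ)) atTop (nhds (1 / 2)) := by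
  obtain ⟨κ, h1, h2⟩ := adm_lower hq hN
  have hq0 : (0 : ℝ) < Fintype.card F := by exact_mod_cast Fintype.card_pos
  refine Metric.tendsto_nhds.2 fun ε hε => ?_
  obtain ⟨K, hK⟩ := exists_nat_gt (Fintype.card F / (κ * ε))
  filter_upwards [h2, hP, half_le hN hu K] with d a1 a2 a3
  have a4 := a3 P (¬ P ·) fun D D' b1 b2 b3 b4 b5 b6 => (a2 D D' b1 b2 b3 b4 b5 b6).1
  have a5 := a3 (¬ P ·) P fun D D' b1 b2 b3 b4 b5 b6 b7 =>
    not_not.1 fun b8 => b7 ((a2 D D' b1 b2 b3 b4 b5 b6).2 b8)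
  have a6 : {D : F[X] | D.natDegree = d ∧ Squarefree (N * D)}.ncard =
      {D : F[X] | D.natDegree = d ∧ Squarefree (N * D) ∧ P D}.ncard +
        {D : F[X] | D.natDegree = d ∧ Squarefree (N * D) ∧ ¬ P D}.ncard := by
    rw [← Set.ncard_union_eq (Set.disjoint_left.2 fun D b1 b2 => b2.2.2 b1.2.2)
      ((finite_deg d).subset fun D hD => hD.1) ((finite_deg d).subset fun D hD => hD.1)]
    congr 1
    ext D
    simp only [Set.mem_ofPred_eq, Set.mem_union]
    tauto
  have a7 : (0 : ℝ) < κ * (Fintype.card F : ℝ) ^ d := by positivity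
  have a8 : ((anO F d).card : ℝ) * (2 / (K + 1)) < 2 * ε * (κ * (Fintype.card F : ℝ) ^ d) := by
    rw [div_lt_iff₀ (by positivity)] at hK
    rw [an_card, mul_div_assoc', div_lt_iff₀ (by positivity)]
    have : (0 : ℝ) < (Fintype.card F : ℝ) ^ d := by positivity
    nlinarith [mul_pos h1 hε]
  rw [a6, Nat.cast_add] at a1 ⊢
  have a9 := mul_le_mul_of_nonneg_left a1 hε.le
  rw [Real.dist_eq, abs_lt, lt_sub_iff_add_lt, sub_lt_iff_lt_add, lt_div_iff₀ (a7.trans_le a1),
    div_lt_iff₀ (a7.trans_le a1)]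
  constructor <;> linarith

/-- Densities are unchanged off a set of density zero. -/
theorem dens_comb (hq : Odd (Fintype.card F)) {N : F[X]} (hN : Squarefree N)
    {S P R : F[X] → Prop} {c : ℝ}
    (hS : Tendsto (fun d : ℕ => ({D : F[X] | D.natDegree = d ∧ Squarefree (N * D) ∧ S D}.ncard : ℝ) /
      ({D : F[X] | D.natDegree = d ∧ Squarefree (N * D)}.ncard : ℝ)) atTop (nhds 1))
    (hP : Tendsto (fun d : ℕ => ({D : F[X] | D.natDegree = d ∧ Squarefree (N * D) ∧ P D}.ncard : ℝ) /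
      ({D : F[X] | D.natDegree = d ∧ Squarefree (N * D)}.ncard : ℝ)) atTop (nhds c))
    (h : ∀ᶠ d in atTop, ∀ D : F[X], D.natDegree = d → Squarefree (N * D) →
      (S D → P D → R D) ∧ (R D → P D)) :
    Tendsto (fun d : ℕ => ({D : F[X] | D.natDegree = d ∧ Squarefree (N * D) ∧ R D}.ncard : ℝ) /
      ({D : F[X] | D.natDegree = d ∧ Squarefree (N * D)}.ncard : ℝ)) atTop (nhds c) := by
  obtain ⟨κ, h1, h2⟩ := adm_lower hq hN
  have hq0 : (0 : ℝ) < Fintype.card F := by exact_mod_cast Fintype.card_pos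
  have h3 := (hP.add hS).sub_const 1
  rw [add_sub_cancel_right] at h3
  refine tendsto_of_tendsto_of_tendsto_of_le_of_le' h3 hP ?_ ?_
  · filter_upwards [h2, h] with d a1 a2
    have a3 := (by positivity : (0 : ℝ) < κ * (Fintype.card F : ℝ) ^ d).trans_le a1
    have a4 := Set.ncard_union_add_ncard_inter
      {D : F[X] | D.natDegree = d ∧ Squarefree (N * D) ∧ P D}
      {D : F[X] | D.natDegree = d ∧ Squarefree (N * D) ∧ S D}
      ((finite_deg d).subset fun D hD => hD.1) ((finite_deg d).subset fun D hD => hD.1)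
    have a5 := add_le_add (Set.ncard_le_ncard (t := {D : F[X] | D.natDegree = d ∧
        Squarefree (N * D)}) (fun D hD => hD.elim (fun b => ⟨b.1, b.2.1⟩) fun b => ⟨b.1, b.2.1⟩)
        ((finite_deg d).subset fun D hD => hD.1))
      (Set.ncard_le_ncard (t := {D : F[X] | D.natDegree = d ∧ Squarefree (N * D) ∧ R D})
        (fun D hD => ⟨hD.1.1, hD.1.2.1, (a2 D hD.1.1 hD.1.2.1).1 hD.2.2.2 hD.1.2.2⟩)
        ((finite_deg d).subset fun D hD => hD.1)) |>.trans' a4.ge
    rw [← add_div, sub_le_iff_le_add', ← div_self a3.ne', ← add_div]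
    exact div_le_div_of_nonneg_right (by exact_mod_cast a5) a3.le
  · filter_upwards [h] with d a2
    exact div_le_div_of_nonneg_right (Nat.cast_le.2 (Set.ncard_le_ncard
      (fun D hD => ⟨hD.1, hD.2.1, (a2 D hD.1 hD.2.1).2 hD.2.2⟩)
      ((finite_deg d).subset fun D hD => hD.1))) (Nat.cast_nonneg _)

end

end Pool.Agent.Lib.MP_16ef92_ag.GF
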