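import Mathlib
import Pool.Agent.Lib.MP_03e5d0_nt.FF.EDef

set_option autoImplicit false
set_option linter.unusedSectionVars false
set_option linter.unusedVariables false

namespace Pool.Agent.Lib.MP_16ef92_ag.FF

open Polynomial GF Pool.Agent.Lib.MP_03e5d0_nt
open scoped Classical

noncomputable section

variable {F : Type} [Field F] [Fintype F] [Clos F]

theorem eorb_prm (c : kk F) : Prm (minpoly F c) :=
  ⟨minpoly.monic (Algebra.IsIntegral.isIntegral c),
    minpoly.irreducible (Algebra.IsIntegral.isIntegral c)⟩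

theorem eorb_fix (c : kk F) (j : ℕ) :
    c ^ Fintype.card F ^ j = c ↔ (minpoly F c).natDegree ∣ j := by
  rw [(eorb_prm c).2.natDegree_dvd_iff_dvd_X_pow_card_pow_sub_X, minpoly.dvd_iff, map_sub, map_pow,
    aeval_X, sub_eq_zero, Nat.card_eq_fintype_card]

/-- Sums over fixed points of Frobenius are sums over places. -/
theorem sum_orb {R : Type} [AddCommMonoid R] {j n : ℕ} (hj : 0 < j) (hn : j ≤ n)
    {S : Finset (Option (kk F))} (h0 : none ∈ S)
    (hS : ∀ c, some c ∈ S ↔ c ^ Fintype.card F ^ j = c) {f : Option (kk F) → R}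
    {g : Option F[X] → R} (h : ∀ x ∈ S, f x = g (x.map (minpoly F))) :
    ∑ x ∈ S, f x = ∑ v ∈ Pls F n, if pdg v ∣ j then pdg v • g v else 0 := by
  rw [← Finset.sum_fiberwise_of_maps_to (t := Pls F n) (g := Option.map (minpoly F))]
  swap
  · rintro (_ | c) hc
    · exact none_mem_Pls n
    · exact some_mem_Pls.2 ⟨eorb_prm c,
        (Nat.le_of_dvd hj ((eorb_fix c j).1 ((hS c).1 hc))).trans hn⟩
  refine Finset.sum_congr rfl fun v hv => ?_
  rw [Finset.sum_congr rfl (g := fun _ => g v) fun x hx => by
    rw [h x (Finset.mem_filter.1 hx).1, (Finset.mem_filter.1 hx).2], Finset.sum_const]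
  rcases v with _ | p
  · rw [if_pos (show pdg none ∣ j from one_dvd j), show S.filter (Option.map (minpoly F) · = none) = {none} by
      ext x
      rw [Finset.mem_filter, Option.map_eq_none_iff, Finset.mem_singleton]
      exact and_iff_right_of_imp fun e => e ▸ h0]
    rfl
  have hp := (some_mem_Pls.1 hv).1
  split_ifs with e
  · rw [show S.filter (Option.map (minpoly F) · = some p) =
        (p.rootSet (kk F)).toFinset.map ⟨some, Option.some_injective _⟩ by
      ext (_ | c)
      · simp
      · simp only [Finset.mem_filter, Option.map_some, Option.some.injEq, Finset.mem_map,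
          Set.mem_toFinset, Function.Embedding.coeFn_mk, exists_eq_right, mem_rootSet, hS,
          eorb_fix]
        exact ⟨fun a => ⟨hp.ne, a.2 ▸ minpoly.aeval F c⟩, fun a =>
          have := (minpoly.eq_of_irreducible_of_monic hp.2 a.2 hp.1).symm
          ⟨this ▸ e, this⟩⟩, Finset.card_map, Set.toFinset_card, card_rootSet_eq_natDegree
        (PerfectField.separable_of_irreducible hp.2) (IsAlgClosed.splits _)]
    rfl
  · rw [Finset.filter_eq_empty_iff.2, Finset.card_empty, zero_smul]
    rintro (_ | c) hc a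
    · simp at a
    · exact e ((Option.some.inj a : minpoly F c = p) ▸ (eorb_fix c j).1 ((hS c).1 hc))

theorem exists_fix {j : ℕ} (hj : 0 < j) : ∃ S : Finset (Option (kk F)), none ∈ S ∧
    (∀ c, some c ∈ S ↔ c ^ Fintype.card F ^ j = c) ∧ S.card = Fintype.card F ^ j + 1 := by
  have h0 : (X ^ Fintype.card F ^ j - X : F[X]) ≠ 0 :=
    FiniteField.X_pow_card_pow_sub_X_ne_zero F hj.ne' Fintype.one_lt_card
  obtain ⟨p, hp, k, hpp, hk⟩ := FiniteField.card' F
  refine ⟨Finset.insertNone ((X ^ Fintype.card F ^ j - X : F[X]).rootSet (kk F)).toFinset,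
    Finset.none_mem_insertNone, fun c => ?_, ?_⟩
  · rw [Finset.some_mem_insertNone, Set.mem_toFinset, mem_rootSet, and_iff_right h0, map_sub,
      map_pow, aeval_X, sub_eq_zero]
  · rw [Finset.card_insertNone, Set.toFinset_card, card_rootSet_eq_natDegree
      (galois_poly_separable p _ (dvd_pow (by rw [hk]; exact dvd_pow_self p k.ne_zero) hj.ne'))
      (IsAlgClosed.splits _),
      FiniteField.X_pow_card_pow_sub_X_natDegree_eq F hj.ne' Fintype.one_lt_card]

end

end Pool.Agent.Lib.MP_16ef92_ag.FF
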