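import Mathlib
import Pool.Agent.Lib.MP_03e5d0_nt.FF.EDef

set_option autoImplicit false
set_option linter.unusedSectionVars false
set_option linter.unusedVariables false

namespace Pool.Agent.Lib.MP_16ef92_ag.FF

open Polynomial GF Pool.Agent.Lib.MP_03e5d0_nt
open scoped Classical

noncomputable section

/-- Degree bound together with the top coefficient. -/
def Tp {R : Type} [CommRing R] (f : R[X]) (n : ℕ) (c : R) : Prop :=
  f.natDegree ≤ n ∧ f.coeff n = c

section
variable {R : Type} [CommRing R] {f g : R[X]} {n m : ℕ} {c d : R}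

theorem Tp.mul (h : Tp f n c) (h' : Tp g m d) : Tp (f * g) (n + m) (c * d) :=
  ⟨natDegree_mul_le.trans (add_le_add h.1 h'.1), by
    rw [coeff_mul_add_eq_of_natDegree_le h.1 h'.1, h.2, h'.2]⟩

theorem tp_one : Tp (1 : R[X]) 0 1 := ⟨natDegree_one.le, coeff_one_zero⟩

theorem tp_lin (t : R) : Tp (1 - C t * X) 1 (-t) := ⟨by compute_degree, by simp [coeff_one]⟩

theorem tp_prod {ι : Type} (S : Finset ι) {f : ι → R[X]} {n : ι → ℕ} {c : ι → R}
    (h : ∀ i ∈ S, Tp (f i) (n i) (c i)) : Tp (∏ i ∈ S, f i) (∑ i ∈ S, n i) (∏ i ∈ S, c i) := by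
  induction S using Finset.induction_on with
  | empty => exact tp_one
  | insert a S ha ih =>
    rw [Finset.prod_insert ha, Finset.sum_insert ha, Finset.prod_insert ha]
    exact (h a (Finset.mem_insert_self a S)).mul (ih fun i hi => h i (Finset.mem_insert_of_mem hi))

theorem Tp.expand (h : Tp f n c) (hm : 0 < m) : Tp (expand R m f) (n * m) c :=
  ⟨(natDegree_expand m f).trans_le (Nat.mul_le_mul_right m h.1), (coeff_expand_mul hm f n).trans h.2⟩

theorem Tp.unique (h : Tp f n c) (h' : Tp f m d) (hc : c ≠ 0) (hd : d ≠ 0) : n = m ∧ c = d := by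
  obtain rfl : n = m := (natDegree_eq_of_le_of_coeff_ne_zero h.1 (h.2 ▸ hc)).symm.trans
    (natDegree_eq_of_le_of_coeff_ne_zero h'.1 (h'.2 ▸ hd))
  exact ⟨rfl, h.2.symm.trans h'.2⟩

end

variable {F : Type} [Field F] [Fintype F] [Clos F] [hq : Fact (Odd (Fintype.card F))]
  {A B D : F[X]}

/-- The local root numbers. -/
def rootL (A B D : F[X]) : Option F[X] → ZMod 4
  | none => if Even (A.natDegree + D.natDegree) then 1 else (Fintype.card F : ZMod 4)
  | some p => (if p ∣ A * B * (A - B) then (((lpo A B D (some p)).coeff 1 : ℤ) : ZMod 4) else 1) *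
      if p ∣ D then (Fintype.card F : ZMod 4) ^ p.natDegree else 1

theorem filter_anP {G : F[X]} (hG : G ≠ 0) {n : ℕ} (h : G.natDegree ≤ n) :
    (anP F (Finset.Icc 1 n)).filter (· ∣ G) = anF G := by
  ext p
  rw [Finset.mem_filter, an_memP, an_memF hG, Finset.mem_Icc]
  exact ⟨fun e => ⟨e.1.1, e.2⟩, fun e => ⟨⟨e.1, e.1.pos, (natDegree_le_of_dvd e.2 hG).trans h⟩, e.2⟩⟩

theorem prod_rootL (h : Fam0 A B D) :
    ∏ v ∈ Pls F (A * B * (A - B) * D).natDegree, rootL A B D v = rootN A B D := by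
  have h0 := h.sq.ne_zero
  rw [Pls, Finset.prod_insertNone]
  simp only [rootL]
  rw [Finset.prod_mul_distrib, ← Finset.prod_filter, ← Finset.prod_filter,
    filter_anP (left_ne_zero_of_mul h0) (natDegree_le_of_dvd (dvd_mul_right _ _) h0),
    filter_anP (right_ne_zero_of_mul h0) (natDegree_le_of_dvd (dvd_mul_left _ _) h0),
    Finset.prod_pow_eq_pow_sum, sum_anF h.sq.of_mul_right, rootN]

theorem loc4 (h : Fam0 A B D) (v : Option F[X]) : ∃ (f : (ZMod 4)[X]) (e : ℕ) (c : ZMod 4),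
    ∀ n, v ∈ Pls F n → (lpo A B D v).map (Int.castRingHom (ZMod 4)) * f =
      (1 - C 1 * X) * (1 - C ((Fintype.card F : ZMod 4) ^ pdg v) * X) ∧ Tp f e c ∧ c ^ 2 = 1 ∧
      c * (Fintype.card F : ZMod 4) ^ (e * pdg v) = rootL A B D v ∧
      (v ∉ Pls F (A * B * (A - B) * D).natDegree → f = 1) := by
  have h0 := h.sq.ne_zero
  have hQ : ∀ d, ((Fintype.card F : ZMod 4) ^ d) ^ 2 = 1 := fun d => by
    rw [← pow_mul, mul_comm, pow_mul, q_sq, one_pow]
  have hadd : ∀ d, Tp ((1 - C 1 * X) * (1 - C ((Fintype.card F : ZMod 4) ^ d) * X)) 2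
      ((Fintype.card F : ZMod 4) ^ d) := fun d => by
    simpa only [neg_mul_neg, one_mul] using (tp_lin (1 : ZMod 4)).mul (tp_lin _)
  rcases v with _ | p
  · by_cases he : Even (A.natDegree + D.natDegree)
    · refine ⟨1, 0, 1, fun n _ => ⟨?_, tp_one, one_pow _, by simp [rootL, he], fun _ => rfl⟩⟩
      have hA : A ≠ 0 := left_ne_zero_of_mul (left_ne_zero_of_mul (left_ne_zero_of_mul h0))
      have hB : B ≠ 0 := right_ne_zero_of_mul (left_ne_zero_of_mul (left_ne_zero_of_mul h0))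
      have hD := leadingCoeff_ne_zero.2 (right_ne_zero_of_mul h0)
      have h1 : A.leadingCoeff - B.leadingCoeff ≠ 0 := fun e => by
        have := natDegree_lt_natDegree (right_ne_zero_of_mul (left_ne_zero_of_mul h0))
          (degree_sub_lt_left (by rw [degree_eq_natDegree hA, degree_eq_natDegree hB, h.dB]) hA
            (sub_eq_zero.1 e))
        exact this.ne h.dC
      rw [lpo, if_pos he, cv_good two_neF, Nat.card_eq_fintype_card]
      · simp [pdg]
      · rw [leadingCoeff_mul, leadingCoeff_mul, ← mul_sub]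
        exact mul_ne_zero (mul_ne_zero (mul_ne_zero hD (leadingCoeff_ne_zero.2 hA))
          (mul_ne_zero hD (leadingCoeff_ne_zero.2 hB))) (mul_ne_zero hD h1)
    · refine ⟨_, 2, _, fun n _ => ⟨by rw [lpo, if_neg he, Polynomial.map_one, one_mul],
        hadd _, hQ _, ?_, fun e => (e (none_mem_Pls _)).elim⟩⟩
      simp only [rootL, if_neg he, pdg, pow_one, mul_one, q_sq]
  by_cases hp : Prm p
  swap
  · exact ⟨1, 0, 1, fun n hn => (hp (some_mem_Pls.1 hn).1).elim⟩
  have := Fact.mk hp.2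
  have hm : p ∣ A * B * (A - B) * D → some p ∈ Pls F (A * B * (A - B) * D).natDegree := fun e =>
    some_mem_Pls.2 ⟨hp, natDegree_le_of_dvd e h0⟩
  have hz : ∀ G, AdjoinRoot.mk p G = 0 ↔ p ∣ G := fun G => AdjoinRoot.mk_eq_zero
  have e1 : AdjoinRoot.mk p (D * A) * AdjoinRoot.mk p (D * B) * (AdjoinRoot.mk p (D * A) -
      AdjoinRoot.mk p (D * B)) = AdjoinRoot.mk p D ^ 3 * AdjoinRoot.mk p (A * B * (A - B)) := by
    simp only [map_mul, map_sub]
    ring
  by_cases hD : p ∣ D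
  · have hN : ¬ p ∣ A * B * (A - B) := fun e => hp.2.not_isUnit (h.sq p (mul_dvd_mul e hD))
    refine ⟨_, 2, _, fun n _ => ⟨?_, hadd (pdg (some p)), hQ _, ?_,
      fun e => (e (hm (hD.mul_left _))).elim⟩⟩
    · rw [lpo_some, (hz _).2 (hD.mul_right A), (hz _).2 (hD.mul_right B), cv_add (two_adj p),
        Polynomial.map_one, one_mul]
    · rw [rootL, if_neg hN, if_pos hD, mul_comm 2, pow_mul, hQ, mul_one, one_mul, pdg]
  by_cases hN : p ∣ A * B * (A - B)
  · have h1 := cv_mult (two_adj p) (e1.trans (by rw [(hz _).2 hN, mul_zero])) (by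
      by_contra e
      rw [not_or, not_not, not_not, hz, hz] at e
      exact hp.2.not_isUnit (h.sq p (((mul_dvd_mul ((hp.2.prime.dvd_or_dvd e.1).resolve_left hD)
        ((hp.2.prime.dvd_or_dvd e.2).resolve_left hD)).mul_right _).mul_right _)))
    rw [← lpo_some] at h1
    have h2 : ∀ x : ZMod 4, x ^ 2 = 1 → 2 * (1 + x) = 0 := by decide
    have h3 := congrArg C (h2 _ (hQ p.natDegree))
    rcases h1 with h1 | h1
    · refine ⟨_, 1, _, fun n _ => ⟨by simp [h1],
        tp_lin ((Fintype.card F : ZMod 4) ^ pdg (some p)), by rw [neg_sq, hQ], ?_,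
        fun e => (e (hm (hN.mul_right _))).elim⟩⟩
      rw [rootL, if_pos hN, if_neg hD, h1, one_mul, neg_mul, ← sq, hQ]
      simp [coeff_one]
    · refine ⟨_, 1, _, fun n _ => ⟨?_, tp_lin (-(Fintype.card F : ZMod 4) ^ p.natDegree),
        by rw [neg_neg, hQ], ?_, fun e => (e (hm (hN.mul_right _))).elim⟩⟩
      · simp only [h1, Polynomial.map_add, Polynomial.map_one, map_X, pdg, map_neg, map_one,
          map_mul, map_add, map_zero, map_ofNat] at h3 ⊢
        linear_combination X * h3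
      · rw [rootL, if_pos hN, if_neg hD, h1, one_mul, neg_neg, pdg, ← sq, hQ]
        simp [coeff_one]
  · refine ⟨1, 0, 1, fun n _ => ⟨?_, tp_one, one_pow _, by simp [rootL, hD, hN], fun _ => rfl⟩⟩
    rw [lpo_some, cv_good (two_adj p) (e1 ▸ mul_ne_zero (pow_ne_zero _ (mt (hz _).1 hD))
      (mt (hz _).1 hN)), card_adj]
    simp [pdg]

/-- Comparison of the top coefficients modulo four. -/
theorem sign_eq (hZ : ∀ n, 0 < n → (X : ℤ[X]) ^ (n + 1) ∣ ∏ v ∈ Pls F n, (1 - X ^ pdg v) -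
      (1 - X) * (1 - (Fintype.card F : ℤ[X]) * X)) (h : Fam0 A B D) {L : ℤ[X]} {m : ℕ}
    (hL : L.leadingCoeff = (-1) ^ m * (Fintype.card F : ℤ) ^ L.natDegree)
    (hE : ∀ n, X ^ (n + 1) ∣ L * GG A B D n - 1) : (-1) ^ m = rootN A B D := by
  choose f e c hf using loc4 h
  set Q := (Fintype.card F : ZMod 4) with hQ
  set n₀ := (A * B * (A - B) * D).natDegree
  have z : ∀ (t : ZMod 4) n, 0 < n → (X : (ZMod 4)[X]) ^ (n + 1) ∣ ∏ v ∈ Pls F n,
      (1 - C (t ^ pdg v) * X ^ pdg v) - (1 - C t * X) * (1 - C (Q * t) * X) := fun t n hn => by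
    have := map_dvd (aeval (C t * X : (ZMod 4)[X])) (hZ n hn)
    simp only [map_pow, aeval_X, map_sub, map_prod, map_one, map_mul, map_natCast, mul_pow] at this
    simpa only [map_pow, map_mul, hQ, map_natCast, mul_assoc] using (dvd_mul_left _ _).trans this
  have key : L.map (Int.castRingHom (ZMod 4)) * ((1 - C 1 * X) * (1 - C (Q * 1) * X) *
      ((1 - C Q * X) * (1 - C (Q * Q) * X))) = ∏ v ∈ Pls F n₀, expand _ (pdg v) (f v) := by
    refine sub_eq_zero.1 (ext fun i => X_pow_dvd_iff.1 (?_ : X ^ (n₀ + i + 1 + 1) ∣ _) i (by omega))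
    have a1 := Polynomial.map_dvd (Int.castRingHom (ZMod 4)) (hE (n₀ + i + 1))
    have a2 : (GG A B D (n₀ + i + 1)).map (Int.castRingHom (ZMod 4)) *
        ∏ v ∈ Pls F n₀, expand _ (pdg v) (f v) =
        (∏ v ∈ Pls F (n₀ + i + 1), (1 - C (1 ^ pdg v) * X ^ pdg v)) *
          ∏ v ∈ Pls F (n₀ + i + 1), (1 - C (Q ^ pdg v) * X ^ pdg v) := by
      rw [Finset.prod_subset (Pls_mono (show n₀ ≤ n₀ + i + 1 by omega)) fun v b1 b2 => by
        rw [(hf v _ b1).2.2.2.2 b2, map_one], GG, Polynomial.map_prod, ← Finset.prod_mul_distrib,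
        ← Finset.prod_mul_distrib]
      refine Finset.prod_congr rfl fun v hv => ?_
      rw [map_expand, ← map_mul, (hf v _ hv).1]
      simp
    rw [Polynomial.map_pow, map_X, Polynomial.map_sub, Polynomial.map_mul, Polynomial.map_one] at a1
    obtain ⟨x, hx⟩ := a1
    obtain ⟨y, hy⟩ := z 1 (n₀ + i + 1) (Nat.succ_pos _)
    obtain ⟨w, hw⟩ := z Q (n₀ + i + 1) (Nat.succ_pos _)
    generalize ∏ v ∈ Pls F (n₀ + i + 1), (1 - C (Q ^ pdg v) * X ^ pdg v) = P₂ at a2 hw
    generalize ∏ v ∈ Pls F n₀, expand _ (pdg v) (f v) = H at a2 ⊢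
    generalize L.map (Int.castRingHom (ZMod 4)) = L' at hx ⊢
    exact ⟨x * H - L' * (y * P₂ + (1 - C 1 * X) * (1 - C (Q * 1) * X) * w), by
      linear_combination H * hx - L' * a2 - L' * P₂ * hy -
        L' * ((1 - C 1 * X) * (1 - C (Q * 1) * X)) * hw⟩
  have t1 : Tp (L.map (Int.castRingHom (ZMod 4))) L.natDegree ((-1) ^ m * Q ^ L.natDegree) :=
    ⟨natDegree_map_le, by rw [coeff_map, coeff_natDegree, hL]; simp [hQ]⟩
  have t2 := key ▸ t1.mul (((tp_lin 1).mul (tp_lin (Q * 1))).mul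
    ((tp_lin Q).mul (tp_lin (Q * Q))))
  have t3 := tp_prod _ fun v (hv : v ∈ Pls F n₀) => (hf v _ hv).2.1.expand (pdg_pos hv)
  have h1 : ∀ x : ZMod 4, x ^ 2 = 1 → x ≠ 0 := by decide
  have h2 : Q ^ 2 = 1 := q_sq
  have h3 : (Q ^ L.natDegree) ^ 2 = 1 := by rw [← pow_mul, mul_comm, pow_mul, h2, one_pow]
  have h4 : ((-1 : ZMod 4) ^ m) ^ 2 = 1 := by rw [← pow_mul, mul_comm, pow_mul, neg_one_sq, one_pow]
  have h5 : -1 * -(Q * 1) * (-Q * -(Q * Q)) = 1 := by linear_combination (Q ^ 2 + 1) * h2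
  rw [h5, mul_one] at t2
  obtain ⟨h6, h7⟩ := t2.unique t3 (h1 _ (by rw [mul_pow, h3, h4, one_mul])) (h1 _ (by
    rw [← Finset.prod_pow]
    exact Finset.prod_eq_one fun v hv => (hf v _ hv).2.2.1))
  rw [← prod_rootL h, ← Finset.prod_congr rfl fun v hv => (hf v _ hv).2.2.2.1,
    Finset.prod_mul_distrib, Finset.prod_pow_eq_pow_sum, ← h6, ← h7, pow_add]
  linear_combination (-(-1) ^ m * Q ^ 4) * h3 - (-1) ^ m * (Q ^ 2 + 1) * h2

end

end Pool.Agent.Lib.MP_16ef92_ag.FF
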