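import Mathlib
import Pool.Agent.Lib.MP_16ef92_ag.Loc

set_option autoImplicit false
set_option linter.unusedSectionVars false
set_option linter.unusedVariables false

namespace Pool.Agent.Lib.MP_16ef92_ag.FF

open Polynomial
open scoped Classical

noncomputable section

theorem mfr_ext {K E L : Type} [Field K] [Field E] [Field L] [Algebra K L] [IsSepClosed L]
    [Algebra.IsSeparable K L] (i : K →+* E) (j j' : E →+* L)
    (hj : ∀ x, j (i x) = algebraMap K L x) (hj' : ∀ x, j' (i x) = algebraMap K L x) :
    ∃ s : L ≃ₐ[K] L, ∀ e, s (j e) = j' e := by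
  let : Algebra K E := i.toAlgebra
  let : Algebra E L := j.toAlgebra
  have : IsScalarTower K E L := IsScalarTower.of_algebraMap_eq fun x => (hj x).symm
  have : Algebra.IsSeparable E L := Algebra.isSeparable_tower_top_of_isSeparable K E L
  let f : E →ₐ[K] L := { j' with commutes' := hj' }
  obtain ⟨g, hg⟩ := IsSepClosed.surjective_domRestrict_of_isSeparable (K := K) (L := E) (M := L)
    (E := L) f
  refine ⟨AlgEquiv.ofBijective g (Algebra.IsAlgebraic.algHom_bijective g), fun e => ?_⟩
  exact AlgHom.congr_fun hg e

variable {F : Type} [Field F] [Clos F] [Fintype F] [hq : Fact (Odd (Fintype.card F))]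

/-- A Frobenius element exists. -/
theorem exists_fr : ∃ s : Gam F, Fr s (Fintype.card F) := by
  let a : (kk F)[X] →+* Om F := (aeval (tt F) : (kk F)[X] →ₐ[kk F] Om F).toRingHom
  have ha : Function.Injective a := transcendental_iff_injective.1 tt_trans
  let p : kk F →ₐ[F] kk F := FiniteField.frobeniusAlgHom F (kk F)
  let b : (kk F)[X] →+* Om F := a.comp (mapRingHom p.toRingHom)
  have hb : Function.Injective b := ha.comp (map_injective p.toRingHom p.toRingHom.injective)
  let c : F[X] →+* FractionRing (kk F)[X] :=
    (algebraMap (kk F)[X] (FractionRing (kk F)[X])).comp (mapRingHom (algebraMap F (kk F)))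
  have hc : Function.Injective c :=
    (IsFractionRing.injective _ _).comp (map_injective _ (algebraMap F (kk F)).injective)
  have h1 : ∀ q : F[X], a (q.map (algebraMap F (kk F))) =
      algebraMap (RatFunc F) (Om F) (algebraMap F[X] (RatFunc F) q) := by
    intro q
    have := rf_eq (F := F) q
    change aeval (tt F) (q.map (algebraMap F (kk F))) = _
    rw [aeval_map_algebraMap]
    exact this.symm
  have h2 : ∀ q : F[X], b (q.map (algebraMap F (kk F))) = a (q.map (algebraMap F (kk F))) := by
    intro q
    change a ((q.map (algebraMap F (kk F))).map p.toRingHom) = _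
    rw [Polynomial.map_map]
    congr 2
    exact RingHom.ext fun x => p.commutes x
  obtain ⟨s, hs⟩ := mfr_ext (K := RatFunc F) (L := Om F) (IsFractionRing.lift hc)
    (IsFractionRing.lift ha) (IsFractionRing.lift hb)
    (fun x => RingHom.congr_fun (IsFractionRing.ringHom_ext (A := F[X])
      (f1 := (IsFractionRing.lift ha).comp (IsFractionRing.lift hc)) fun q => by
        rw [RingHom.comp_apply, IsFractionRing.lift_algebraMap]
        exact (IsFractionRing.lift_algebraMap ha _).trans (h1 q)) x)
    (fun x => RingHom.congr_fun (IsFractionRing.ringHom_ext (A := F[X])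
      (f1 := (IsFractionRing.lift hb).comp (IsFractionRing.lift hc)) fun q => by
        rw [RingHom.comp_apply, IsFractionRing.lift_algebraMap]
        exact (IsFractionRing.lift_algebraMap hb _).trans ((h2 q).trans (h1 q))) x)
  refine ⟨s, fun z => ?_⟩
  have := hs (algebraMap (kk F)[X] _ (C z))
  rw [IsFractionRing.lift_algebraMap, IsFractionRing.lift_algebraMap] at this
  have e1 : a (C z) = (z : Om F) := aeval_C _ _
  have e2 : b (C z) = (z : Om F) ^ Fintype.card F := by
    change a ((C z).map p.toRingHom) = _
    rw [map_C]
    exact (aeval_C _ _).trans (by simp [p])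
  rw [← e2, ← this, e1]

end

end Pool.Agent.Lib.MP_16ef92_ag.FF
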