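import Mathlib
import Pool.Agent.Lib.MP_16ef92_ag.GF.Lift
import Pool.Agent.Lib.MP_16ef92_ag.GF.Bt

set_option autoImplicit false
set_option linter.unusedSectionVars false
set_option linter.unusedVariables false

namespace Pool.Agent.Lib.MP_16ef92_ag.FF

open Polynomial GF
open scoped Classical

noncomputable section

variable {F : Type} [Field F] [Clos F] [Fintype F] [hq : Fact (Odd (Fintype.card F))]
variable {e : Fin 3 → Om F} {T : TD e} {a : Gam F → V}

/-- The local form of `lt_of_gen`. -/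
theorem loc_of (ha : Cy T a) {x : Option (kk F)} {γ : Gam F} {μ : V} (hγ : Gen x γ)
    (h : a γ = hL T γ μ) {O : ValuationSubring (Om F)} (hO : Over O x) :
    ∃ ν, ∀ g ∈ Ine O, a g = hL T g ν := by
  obtain ⟨O0, hO0, hγ, h1⟩ := hγ
  have key : ∀ g ∈ Ine O0, a g = hL T g μ := fun g hg => sub_eq_zero.1 (eq_zero_of_Dv fun m =>
    (hq_eq.1 (ine_ext hq_pg hO0 ((cyL_of_cy ha m).mono inf_le_left le_rfl).hm
      (cyL_hL T _ m μ).hm hγ h1 (by rw [h]) hg)).1)
  obtain ⟨w, hw, h2⟩ := ine_of_over hO0 hO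
  refine ⟨(2 : ℤ_[2]) • a w + T.ro w μ, fun g hg => ?_⟩
  have h3 := ha.mul g hg.1 w hw
  rw [show g * w = w * (w⁻¹ * g * w) by group, ha.mul w hw _ (h2 g hg).1, key _ (h2 g hg),
    ← hL_conj, show w * (w⁻¹ * g * w) * w⁻¹ = g by group] at h3
  have h4 := two_hL T g (a w)
  rw [map_add, map_smul]
  linear_combination (norm := module) -h4 - h3

/-- One step of the lifting with prescribed local values. -/
theorem cy_step (h : Rp T) {γ : Option (kk F) → Gam F} (hγ : ∀ x, Gen x (γ x))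
    (w : Option (kk F) → V) (hw : {x | w x ≠ 0}.Finite) (y : Option (kk F)) {j : ℕ}
    {n : Gam F → V} (hn : CyL T (Geo F) j n) (ha : ∀ x, x ≠ y → n (γ x) - w x ∈ Dv j) :
    ∃ n' : Gam F → V, CyL T (Geo F) (j + 1) n' ∧
      (∀ x, x ≠ y → n' (γ x) - w x ∈ Dv (j + 1)) ∧ ∀ g, n' g - n g ∈ Dv j := by
  obtain ⟨ψ, h1, h2, h3⟩ := geo_lift hq_pg (hqDown j)
    (fun b => by
      obtain ⟨a, rfl⟩ := hq_surj b
      exact ⟨_, hqDown_mk j a⟩) hn.hm y hγ
    (fun x => hq' (j + 1) 0 (Nat.zero_le _) ⟨w x, 0, PG T (γ x)⟩)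
    (fun x hx => by
      rw [hqDown_mk, hq_eq]
      exact ⟨by simpa using neg_mem (ha x hx), by simp, fun _ => by simp⟩)
    ((h.fin.union hw).subset fun x hx => by
      obtain ⟨O, o1, o2, -⟩ := hγ x
      by_cases h0 : w x = 0
      · refine Or.inl ⟨O, o1, fun hg => hx ?_⟩
        rw [← map_one (hq' (j + 1) 0 _), hq_eq]
        refine ⟨by simp [h0, Hs.one_n], by simp, fun v => ?_⟩
        rw [PG_app, hg _ o2, Hs.one_g, G1.one_app, sub_self]
        exact zero_mem _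
      · exact Or.inr h0)
  choose sec hs using hq_surj (m := j + 1) (e := 0) (h := Nat.zero_le _)
  have key : ∀ g, (sec (ψ g)).n - n g ∈ Dv j ∧
      ∀ v, (sec (ψ g)).g.1.1 v - T.ro g v ∈ Dv (j + 1) := fun g => by
    have := h2 g
    rw [← hs (ψ g), hqDown_mk, hq_eq] at this
    exact ⟨this.1, this.2.2⟩
  refine ⟨fun g => (sec (ψ g)).n, ⟨fun g hg l hl => ?_, h1.near.mono fun g hg g1 g2 => ?_⟩,
    fun x hx => ?_, fun g => (key g).1⟩
  · have := h1.mul g hg l hl
    rw [← hs (ψ (g * l)), ← hs (ψ g), ← hs (ψ l), ← map_mul, hq_eq, Hs.mul_n] at this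
    have h4 := add_mem this.1 ((key g).2 (sec (ψ l)).n)
    exact (congrArg (· ∈ Dv (j + 1)) (by abel)).mp h4
  · have := hg g1 g2
    rw [← hs (ψ g), ← map_one (hq' (j + 1) 0 _), hq_eq, Hs.one_n, sub_zero] at this
    exact this.1
  · have := h3 x hx
    rw [← hs (ψ (γ x)), hq_eq] at this
    exact this.1

/-- Cocycles with prescribed values at generators of inertia. -/
theorem exists_cy (h : Rp T) {γ : Option (kk F) → Gam F} (hγ : ∀ x, Gen x (γ x))
    (w : Option (kk F) → V) (hw : {x | w x ≠ 0}.Finite) (y : Option (kk F)) :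
    ∃ a, Cy T a ∧ ∀ x, x ≠ y → a (γ x) = w x := by
  choose! st h1 h2 h3 using fun j n' => cy_step h hγ w hw y (j := j) (n := n')
  let N : ℕ → Gam F → V := fun i => Nat.rec 0 (fun i n' => st i n') i
  have hN : ∀ i, CyL T (Geo F) i (N i) ∧ ∀ x, x ≠ y → N i (γ x) - w x ∈ Dv i := fun i => by
    induction i with
    | zero => exact ⟨⟨fun _ _ _ _ => Dv_zero _, ⟨∅, fun _ _ _ _ => Dv_zero _⟩⟩,
        fun _ _ => Dv_zero _⟩
    | succ i ih => exact ⟨h1 _ _ ih.1 ih.2, h2 _ _ ih.1 ih.2⟩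
  have hS : ∀ i g, N (i + 1) g - N i g ∈ Dv i := fun i => h3 _ _ (hN i).1 (hN i).2
  choose δ hδ using fun g => lim (fun i x => x - N i g ∈ Dv i) (fun i => ⟨N i g, by simp⟩)
    (fun i x hx => by simpa using add_mem (Dv_mono i.le_succ hx) (hS i g))
    fun i x y hx hy => by simpa using add_mem hy hx
  refine ⟨δ, ⟨fun g hg l hl => sub_eq_zero.1 (eq_zero_of_Dv fun i => ?_),
    fun i => (hN i).1.near.mono fun g hg hg' => by simpa using add_mem (hδ g i) (hg hg' hg')⟩,
    fun x hx => sub_eq_zero.1 (eq_zero_of_Dv fun i => by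
      simpa using add_mem (hδ (γ x) i) ((hN i).2 x hx))⟩
  have := sub_mem (sub_mem (add_mem (hδ (g * l) i) ((hN i).1.mul g hg l hl)) (hδ g i))
    (map_Dv (T.ro g) (hδ l i))
  rw [map_sub] at this
  exact (congrArg (· ∈ Dv i) (by abel)).mp this

/-- The sum of the local values of a quadratic character vanishes. -/
theorem char_sum {u : Gam F → Z2} (hu : Ch (Geo F) u) {γ : Option (kk F) → Gam F}
    (hγ : ∀ x, Gen x (γ x)) (S : Finset (Option (kk F))) (h0 : ∀ x, x ∉ S → u (γ x) = 0) :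
    ∑ x ∈ S, u (γ x) = 0 := by
  obtain ⟨v, h1, h2⟩ := geo_char hu
  have h3 : ∀ x ∈ Finset.insertNone v.support ∪ S, x ∉ S → u (γ x) = 0 := fun x _ => h0 x
  rw [Finset.sum_subset Finset.subset_union_right h3, ← Finset.sum_subset
    (Finset.subset_union_left (s₁ := Finset.insertNone v.support) (s₂ := S)), Finset.sum_insertNone,
    h2 _ (hγ none), Finset.sum_congr rfl fun c _ => h1 c _ (hγ (some c))]
  · exact CharTwo.add_self_eq_zero _
  · rintro (_ | c) _ hx
    · simp at hx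
    · rw [h1 c _ (hγ _)]
      simpa using hx

end

end Pool.Agent.Lib.MP_16ef92_ag.FF
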