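import Mathlib
import Pool.Agent.Lib.MP_03e5d0_nt.FF.MCy

set_option autoImplicit false
set_option linter.unusedSectionVars false
set_option linter.unusedVariables false

namespace Pool.Agent.Lib.MP_16ef92_ag.FF

open Polynomial GF
open scoped Classical

noncomputable section

variable {F : Type} [Field F] [Clos F] [Fintype F] [hq : Fact (Odd (Fintype.card F))]
variable {e : Fin 3 → Om F} {T : TD e}

theorem mnd_two {b : Gam F → V} (hb : Cy T b) {γ : Option (kk F) → Gam F} (hγ : ∀ x, Gen x (γ x))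
    {x y : Option (kk F)} (hne : x ≠ y) (h0 : ∀ z, z ≠ x → z ≠ y → b (γ z) = 0) :
    b (γ y) - b (γ x) ∈ Dv 1 := by
  have key : ∀ π : Vb →+ Z2, π (rh (b (γ x))) + π (rh (b (γ y))) = 0 := fun π => by
    have := char_sum (((cyL_of_cy hb 1).ch le_rfl).map π) hγ {x, y} fun z hz => by
      rw [Finset.mem_insert, Finset.mem_singleton, not_or] at hz
      rw [h0 z hz.1 hz.2, map_zero, map_zero]
    rwa [Finset.sum_pair hne] at this
  rw [← rb_eq, ← neg_vb (rh (b (γ x)))]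
  exact eq_neg_of_add_eq_zero_right
    (Prod.ext (key (AddMonoidHom.fst _ _)) (key (AddMonoidHom.snd _ _)))

/-- A cocycle that pairs evenly with all others is a torsion class modulo two. -/
theorem bt_even (h : Rp T) {B : Ad T →ₗ[ℤ_[2]] Ad T →ₗ[ℤ_[2]] ℤ_[2]} (hB : BtS T B) (a : Ad T)
    (ha : ∀ b, 2 ∣ B a b) : ∃ t, ∀ g ∈ Geo F, a.1 g - hL T g t ∈ Dv 1 := by
  obtain ⟨c, -, -, hc⟩ := h.exists_neg
  choose γ hγ using exists_gen (F := F)
  have hy := hc _ (hγ (some c))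
  generalize some c = y at hy
  have hS : ∀ x, x ∉ insert y h.fin.toFinset → ∀ O, Over O x → GoodAt T O := fun x hx O hO => by
    by_contra h1
    exact hx (Finset.mem_insert_of_mem (h.fin.mem_toFinset.2 ⟨O, hO, h1⟩))
  have key : ∀ x, a.1 (γ x) - hL T (γ x) (a.1 (γ y)) ∈ Dv 1 := fun x => by
    by_cases hx : x = y
    · rw [hx, hy, sub_self]
      exact zero_mem _
    by_cases hxS : x ∉ insert y h.fin.toFinset
    · obtain ⟨O, o1, o2, -⟩ := hγ x
      obtain ⟨μ, hμ⟩ := h.adm a o1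
      rw [hμ _ o2, hL_good (hS x hxS O o1) o2, hL_good (hS x hxS O o1) o2, sub_self]
      exact zero_mem _
    by_contra hn
    obtain ⟨μ, hμ⟩ := exists_dual hn
    obtain ⟨b, b1, b2⟩ := exists_cy h hγ (fun z => if z = x then hL T (γ x) μ else 0)
      ((Set.finite_singleton x).subset fun z hz => by
        by_contra h1
        exact hz (if_neg h1)) y
    have b3 : b (γ x) = hL T (γ x) μ := (b2 x hx).trans (if_pos rfl)
    have b4 : ∀ z, z ≠ x → z ≠ y → b (γ z) = 0 := fun z h1 h2 => (b2 z h2).trans (if_neg h1)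
    have b5 : LT T b := lt_of_gen b1 fun z => by
      by_cases h1 : z = x
      · exact ⟨γ z, μ, hγ z, h1 ▸ b3⟩
      by_cases h2 : z = y
      · exact ⟨γ z, b (γ z), hγ z, h2 ▸ (hy _).symm⟩
      · exact ⟨γ z, 0, hγ z, by rw [b4 z h1 h2, map_zero]⟩
    have h3 := hB.two a ⟨b, b1, b5⟩ _ γ
      (fun z => if z = x then μ else if z = y then hL T (γ x) μ else 0) hS (fun z _ => hγ z)
      fun z _ => by
        change b (γ z) - _ ∈ _
        split_ifs with h1 h2
        · rw [h1, b3, sub_self]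
          exact zero_mem _
        · rw [h2, hy, ← b3]
          exact mnd_two b1 hγ hx b4
        · rw [b4 z h1 h2, map_zero, sub_self]
          exact zero_mem _
    rw [Finset.sum_eq_add_of_mem x y (not_not.1 hxS) (Finset.mem_insert_self _ _) hx
      fun z _ hz => by rw [if_neg hz.1, if_neg hz.2, om_zero_right, map_zero],
      if_pos rfl, if_neg (Ne.symm hx), if_pos rfl, ← map_add,
      red_eq_zero.2 ((pow_one (2 : ℤ_[2])).symm ▸ ha _), eq_comm, red_eq_zero, pow_one] at h3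
    obtain ⟨u, hu⟩ := h3
    have h4 := om_hL (h.geo _ (hγ x).geo) (a.1 (γ y)) μ
    rw [om_sub_left] at hμ
    have h5 : red 1 1 = 0 := red_eq_zero.2
      ⟨u - om (hL T (γ x) (a.1 (γ y))) (hL T (γ x) μ), by linear_combination hu - h4 - hμ⟩
    rw [map_one] at h5
    exact absurd h5 (by decide)
  refine ⟨a.1 (γ y), fun g hg => rh_eq_zero.1 ?_⟩
  have h6 := fun π : Vb →+ Z2 => geo_zero
    (((cyL_of_cy (a - hb T (a.1 (γ y))).2.1 1).ch le_rfl).map π)
    (fun c => ⟨γ (some c), hγ _, by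
      rw [show rh ((a - hb T (a.1 (γ y))).1 (γ (some c))) = 0 from rh_eq_zero.2 (key _),
        map_zero]⟩) g hg
  exact Prod.ext (h6 (AddMonoidHom.fst _ _)) (h6 (AddMonoidHom.snd _ _))

/-- The nondegenerate invariant form on classes. -/
theorem exists_bm (h : Rp T) : ∃ B : MM T →ₗ[ℤ_[2]] MM T →ₗ[ℤ_[2]] ℤ_[2],
    (∀ a, (∀ b, B a b = 0) → a = 0) ∧ ∀ (s : Gam F) (Q : ℕ), Fr s Q → Odd Q → dt (T.ro s) = Q →
      ∀ a b, B (FM T s a) (FM T s b) = B a b := by
  obtain ⟨B, hB⟩ := exists_bt h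
  let C : MM T →ₗ[ℤ_[2]] MM T →ₗ[ℤ_[2]] ℤ_[2] := LinearMap.liftQ₂ (Nu T) (Nu T) B
    (fun a ha => LinearMap.ext (hB.null a ha))
    fun a ha => LinearMap.ext fun b => (hB.symm b a).trans (hB.null a ha b)
  have hC : ∀ a b, C ((Nu T).mkQ a) ((Nu T).mkQ b) = B a b := fun _ _ => rfl
  have h1 : ∀ x : MM T, (∀ b, C x b = 0) → ∃ y, x = (2 : ℤ_[2]) • y ∧ ∀ b, C y b = 0 := by
    intro x hx
    obtain ⟨a, rfl⟩ := (Nu T).mkQ_surjective x
    obtain ⟨y, hy⟩ := (mk_div_iff a 1).2 (bt_even h hB a fun b => by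
      rw [← hC, hx]
      exact dvd_zero _)
    rw [pow_one] at hy
    refine ⟨y, hy, fun b => mul_left_cancel₀ two_ne_zero ?_⟩
    rw [mul_zero, ← hx b, hy, map_smul]
    rfl
  refine ⟨C, fun x hx => h.lt.sep x fun k => ?_, fun s Q hs hQ hd x y => ?_⟩
  · induction k generalizing x with
    | zero => exact ⟨x, by rw [pow_zero, one_smul]⟩
    | succ k ih =>
      obtain ⟨y, rfl, hy⟩ := h1 x hx
      obtain ⟨z, rfl⟩ := ih y hy
      exact ⟨z, by rw [pow_succ', mul_smul]⟩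
  · obtain ⟨a, rfl⟩ := (Nu T).mkQ_surjective x
    obtain ⟨b, rfl⟩ := (Nu T).mkQ_surjective y
    exact hB.inv s Q hs hQ hd a b

end

end Pool.Agent.Lib.MP_16ef92_ag.FF
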