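import Mathlib
import Pool.Agent.Lib.MP_16ef92_ag.AL.NA2a
import Pool.Agent.Lib.MP_16ef92_ag.AL.NA2b

set_option autoImplicit false
set_option linter.unusedSectionVars false
set_option linter.unusedVariables false

namespace Pool.Agent.Lib.MP_16ef92_ag.FF

open Polynomial Module LinearMap AL
open scoped Classical

noncomputable section

variable {R Z : Type} [CommRing R] [IsDomain R] [IsPrincipalIdealRing R] [AddCommGroup Z]
  [Module R Z] [Module.Free R Z] [Module.Finite R Z]

/-- With matrices `F` of `g` and `G` of `B`: `G (1 - X F) = (Fᵀ - X) G F`. -/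
theorem ort_rev (g : End R Z) (B : Z →ₗ[R] Z →ₗ[R] R) (hB : ∀ a, (∀ b, B a b = 0) → a = 0)
    (hg : ∀ a b, B (g a) (g b) = B a b) : ∃ ε : R, g.charpoly.reverse = C ε * g.charpoly := by
  let b := Module.Free.chooseBasis R Z
  have e := LinearMap.toMatrix₂_compl₁₂ b b b b B g g
  rw [show B.compl₁₂ g g = B from LinearMap.ext₂ hg] at e
  have d := Matrix.separatingLeft_iff_det_ne_zero.1 (SeparatingLeft.toMatrix₂ b b (B := B) hB)
  rw [← g.charpoly_toMatrix b, Matrix.reverse_charpoly, Matrix.charpolyRev]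
  generalize toMatrix b b g = F at *
  generalize toMatrix₂ b b B = G at *
  have e1 := congrArg (C : R →+* R[X]).mapMatrix e
  rw [map_mul, map_mul] at e1
  have e2 : C.mapMatrix G * (1 - (X : R[X]) • F.map C) =
      -F.transpose.charmatrix * C.mapMatrix G * C.mapMatrix F := by
    rw [Matrix.charmatrix, neg_sub, Matrix.sub_mul, Matrix.sub_mul, ← e1, Matrix.mul_sub,
      Matrix.mul_one, Matrix.mul_smul, Matrix.scalar_apply, ← Matrix.smul_eq_diagonal_mul,
      Matrix.smul_mul]
    rfl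
  have e3 := congrArg Matrix.det e2
  rw [Matrix.det_mul, Matrix.det_mul, Matrix.det_mul, Matrix.det_neg, ← RingHom.map_det,
    ← RingHom.map_det, ← Matrix.charpoly, Matrix.charpoly_transpose] at e3
  refine ⟨(-1) ^ Fintype.card (Module.Free.ChooseBasisIndex R Z) * F.det,
    mul_left_cancel₀ (C_ne_zero.2 d) ?_⟩
  rw [e3, map_mul, map_pow, map_neg, map_one]
  ring

/-- Write `p = (X - 1) ^ m * u` with `u.eval 1 ≠ 0`. -/
theorem ort_sign {p : R[X]} (hp : p.Monic) {ε : R} (h : p.reverse = C ε * p) :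
    ε = (-1) ^ p.rootMultiplicity 1 := by
  obtain ⟨u, e, hu⟩ := exists_eq_pow_rootMultiplicity_mul_and_not_dvd p hp.ne_zero 1
  generalize p.rootMultiplicity 1 = m at *
  have r1 : (X - C 1 : R[X]).reverse = -(X - C 1) := by
    have := reverse_X_mul (C 1 : R[X])
    rw [reverse_C, C_1, mul_one] at this
    rw [sub_eq_add_neg, ← C_neg, reverse_add_C, this, natDegree_X, C_neg, C_1]
    ring
  have r2 : ∀ n : ℕ, ((X - C 1 : R[X]) ^ n).reverse = (-1) ^ n * (X - C 1) ^ n := fun n => by
    induction n with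
    | zero => simpa using reverse_C (1 : R)
    | succ n ih =>
      rw [pow_succ, reverse_mul_of_domain, ih, r1]
      ring
  have r3 : u.reverse.eval 1 = u.eval 1 := by
    let _ : Invertible (1 : R) := invertibleOne
    have := eval₂_reverse_mul_pow (RingHom.id R) 1 u
    rwa [invOf_one, one_pow, mul_one] at this
  subst e
  rw [reverse_mul_of_domain, r2] at h
  have r4 : (-1) ^ m * u.reverse = C ε * u :=
    mul_left_cancel₀ (pow_ne_zero m (X_sub_C_ne_zero (1 : R))) (by linear_combination h)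
  have := congrArg (eval 1) r4
  rw [eval_mul, eval_mul, eval_C, r3, eval_pow, eval_neg, eval_one] at this
  exact (mul_right_cancel₀ (fun r => hu (dvd_iff_isRoot.2 r)) this).symm

/-- Base change to the fraction field. -/
theorem mult_le_one (g : End R Z) (h : ∃ w₀, g w₀ = w₀ ∧ ∀ w, (g - 1) ((g - 1) w) = 0 →
    ∃ a b : R, a ≠ 0 ∧ a • w + b • w₀ = 0) : g.charpoly.rootMultiplicity 1 ≤ 1 := by
  obtain ⟨w₀, h0, h⟩ := h
  let K := FractionRing R
  have inj := IsFractionRing.injective R K
  rw [eq_rootMultiplicity_map inj, map_one, ← charpoly_baseChange, ← finrank_maxGenEigenspace_eq,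
    AL.rank_le_one_iff]
  refine ⟨TensorProduct.mk R K Z 1 w₀, by simp [h0], fun w hw => ?_⟩
  obtain ⟨⟨z, s⟩, e⟩ := IsLocalizedModule.surj (nonZeroDivisors R) (TensorProduct.mk R K Z 1) w
  rw [Submonoid.smul_def, ← algebraMap_smul K] at e
  have c : ∀ x, (g.baseChange K - 1) (TensorProduct.mk R K Z 1 x) =
      TensorProduct.mk R K Z 1 ((g - 1) x) := fun x => by simp [TensorProduct.tmul_sub]
  obtain ⟨t, ht⟩ := (IsLocalizedModule.eq_zero_iff (nonZeroDivisors R) (TensorProduct.mk R K Z 1)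
    (m := (g - 1) ((g - 1) z))).1 (by rw [← c, ← c, ← e, map_smul, map_smul, hw, smul_zero])
  obtain ⟨a, b, a0, hab⟩ := h z
    ((smul_eq_zero.1 ht).resolve_left (nonZeroDivisors.ne_zero t.2))
  refine ⟨algebraMap R K (a * s), algebraMap R K b, (map_ne_zero_iff _ inj).2
    (mul_ne_zero a0 (nonZeroDivisors.ne_zero s.2)), ?_⟩
  rw [map_mul, mul_smul, e, algebraMap_smul, algebraMap_smul, ← map_smul, ← map_smul, ← map_add,
    hab, map_zero]

theorem ort_lead (g : End R Z) (B : Z →ₗ[R] Z →ₗ[R] R) (hB : ∀ a, (∀ b, B a b = 0) → a = 0)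
    (hg : ∀ a b, B (g a) (g b) = B a b) :
    g.charpoly.reverse.rootMultiplicity 1 = g.charpoly.rootMultiplicity 1 ∧
      g.charpoly.reverse.leadingCoeff = (-1) ^ g.charpoly.rootMultiplicity 1 := by
  obtain ⟨ε, e⟩ := ort_rev g B hB hg
  have s := ort_sign g.charpoly_monic e
  rw [e, rootMultiplicity_mul (e ▸ reverse_eq_zero.not.2 g.charpoly_monic.ne_zero),
    rootMultiplicity_C, zero_add, leadingCoeff_mul, leadingCoeff_C, g.charpoly_monic, mul_one]
  exact ⟨rfl, s⟩

end

end Pool.Agent.Lib.MP_16ef92_ag.FF
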