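import Mathlib
import Pool.Agent.Lib.MP_16ef92_ag.AL.EDef

set_option autoImplicit false
set_option linter.unusedSectionVars false
set_option linter.unusedVariables false

namespace Pool.Agent.Lib.MP_16ef92_ag.FF

open Polynomial WeierstrassCurve AL AL.EC
open scoped Classical

noncomputable section

variable {k K : Type} [Field k] [Fintype k] [Field K]

/-- Count the roots of `X ^ card k - X`. -/
theorem range_iff (ι : k →+* K) (z : K) : z ∈ ι.range ↔ z ^ Fintype.card k = z := by
  refine ⟨?_, fun h => ?_⟩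
  · rintro ⟨a, rfl⟩
    rw [← map_pow, FiniteField.pow_card]
  · have h0 := FiniteField.X_pow_card_sub_X_ne_zero k (Fintype.one_lt_card (α := k))
    have h1 : (X ^ Fintype.card k - X : k[X]).Splits := by
      rw [splits_iff_card_roots, FiniteField.roots_X_pow_card_sub_X,
        FiniteField.X_pow_card_sub_X_natDegree_eq k Fintype.one_lt_card]
      rfl
    exact h1.mem_range_of_isRoot h0 (by simp [h])

/-- `exists_isMap` for `ι`, `IsMap.inj`, `IsMap.mem_range`, `pt_ext`. -/
theorem card_fix [DecidableEq K] (ι : k →+* K) {W : WeierstrassCurve k} {E : Affine K} (hE : Sh E)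
    (e : W.map ι = E) {σ : K →+* K} (hσ : ∀ z, σ z = z ^ Fintype.card k)
    {φ : E.Point →+ E.Point} (hφ : IsMap σ φ) :
    Nat.card {P // φ P = P} = Nat.card W.toAffine.Point := by
  have hW : Sh W.toAffine := ⟨ι.injective (by rw [map_zero, ← hE.a₁, ← e]; rfl),
    ι.injective (by rw [map_zero, ← hE.a₃, ← e]; rfl),
    fun h => hE.Δ (by rw [← e, map_Δ, show W.Δ = 0 from h, map_zero])⟩
  obtain ⟨ψ, hψ⟩ := exists_isMap hW ι e.symm
  rw [Nat.card_congr (AddMonoidHom.ofInjective hψ.inj).toEquiv]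
  refine Nat.card_congr (Equiv.subtypeEquivRight fun P => ?_)
  rw [hψ.mem_range hW e.symm, range_iff, range_iff, ← hσ, ← hσ, ← hφ.x, ← hφ.y]
  refine ⟨fun h => by rw [h]; exact ⟨rfl, rfl⟩, fun h => ?_⟩
  rcases eq_or_ne P 0 with rfl | h0
  exacts [map_zero φ, pt_ext (hφ.ne P h0) h0 h.1 h.2]

end

end Pool.Agent.Lib.MP_16ef92_ag.FF
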