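import Mathlib
import Pool.Agent.Lib.MP_03e5d0_nt.FF.MCy
import Pool.Agent.Lib.MP_16ef92_ag.ET.W1
import Pool.Agent.Lib.MP_16ef92_ag.GF.Twist

set_option autoImplicit false
set_option linter.unusedSectionVars false
set_option linter.unusedVariables false

namespace Pool.Agent.Lib.MP_16ef92_ag.FF

open Polynomial GF Module LinearMap
open scoped Classical

noncomputable section

variable {F : Type} [Field F] [Clos F] [Fintype F] [hq : Fact (Odd (Fintype.card F))]
variable {e : Fin 3 → Om F} {T : TD e} {O : ValuationSubring (Om F)} {x : Option (kk F)}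
  {γ f : Gam F} {n Q : ℕ} {π : V →ₗ[ℤ_[2]] Fin n → ℤ_[2]} {a : Gam F → V}

/-- Coordinates on the coinvariants of inertia modulo torsion. -/
structure Co (T : TD e) (O : ValuationSubring (Om F)) (γ : Gam F) {n : ℕ}
    (π : V →ₗ[ℤ_[2]] Fin n → ℤ_[2]) : Prop where
  surj : Function.Surjective π
  ker : ∀ v, π v = 0 ↔ ∃ μ, v = hL T γ μ
  ine : ∀ g ∈ Ine O, ∀ v, π (T.ro g v) = π v

theorem Co.hl (h : Co T O γ π) {g : Gam F} (hg : g ∈ Ine O) (v : V) : π (hL T g v) = 0 :=
  (smul_eq_zero_iff_right (two_ne_zero (α := ℤ_[2]))).1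
    (by rw [← map_smul, two_hL, map_sub, h.ine g hg, sub_self])

theorem Co.desc (h : Co T O γ π) (hγ : γ ∈ Ine O) (hf : f ∈ St O) :
    ∃ φ : End ℤ_[2] (Fin n → ℤ_[2]), ∀ v, φ (π v) = π (T.ro f v) := by
  obtain ⟨s, hs⟩ := π.exists_rightInverse_of_surjective (range_eq_top.2 h.surj)
  refine ⟨π ∘ₗ T.ro f ∘ₗ s, fun v => sub_eq_zero.1 ?_⟩
  obtain ⟨μ, e⟩ := (h.ker (s (π v) - v)).1
    (by rw [map_sub, ← comp_apply π s, hs, id_apply, sub_self])
  rw [comp_apply, comp_apply, ← map_sub, ← map_sub, e, ← hL_conj, h.hl (st_conj hf hγ)]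

theorem Co.tame (h : Co T O γ π) (hO : Over O x) (hγ : γ ∈ Ine O) (hf : f ∈ St O) (hQ : Fr f Q)
    (hp : f (pl x) = pl x) (ha : Cy T a) :
    (Q : ℤ_[2]) • π (tw T f a γ) = π (T.ro f (a γ)) := by
  obtain ⟨φ, hφ⟩ := h.desc hγ hf
  rw [tw, ← hφ, ← hφ, ← map_smul]
  refine congrArg φ (funext fun i => ?_)
  have := ET.hom_conj hO hf hQ hp ha (fun v => π v i) (fun y z => by rw [map_add, Pi.add_apply])
    (fun g hg y => by rw [h.ine g hg]) (fun n y hy => by
      obtain ⟨z, rfl⟩ := mem_Dv_iff.1 hy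
      rw [map_smul]
      exact Dvd.intro _ rfl) (st_conj ((St O).inv_mem hf) hγ)
  rw [inv_inv, show f * (f⁻¹ * γ * f) * f⁻¹ = γ by group] at this
  exact this.symm

/-- `π` is bijective at a good place. -/
theorem Co.trace_good (h : Co T O γ π) (hγ : γ ∈ Ine O) (hg : GoodAt T O)
    {φ : End ℤ_[2] (Fin n → ℤ_[2])} {ψ : End ℤ_[2] V} (hφ : ∀ v, φ (π v) = π (ψ v)) :
    trace _ _ φ = trace _ _ ψ := by
  let ε := LinearEquiv.ofBijective π ⟨(injective_iff_map_eq_zero π).2 fun v hv => by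
    obtain ⟨μ, rfl⟩ := (h.ker v).1 hv
    exact hL_good hg hγ μ, h.surj⟩
  rw [← trace_conj' ψ ε]
  refine congrArg _ (LinearMap.ext fun y => ?_)
  obtain ⟨v, rfl⟩ := ε.surjective y
  rw [LinearEquiv.conj_apply_apply, ε.symm_apply_apply]
  exact hφ v

theorem co_good (h : GoodAt T O) (hγ : γ ∈ Ine O) (ε : V ≃ₗ[ℤ_[2]] Fin 2 → ℤ_[2]) :
    Co T O γ ε.toLinearMap :=
  ⟨ε.surjective, fun v => by simp [hL_good h hγ], fun g hg v => by rw [h g hg]⟩

theorem co_twist (h : TwistAt T O x) (hγ : γ ∈ Ine O) (h1 : sg (pl x) γ = 1) :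
    Co T O γ (0 : V →ₗ[ℤ_[2]] Fin 0 → ℤ_[2]) :=
  ⟨fun _ => ⟨0, Subsingleton.elim _ _⟩,
    fun v => ⟨fun _ => ⟨v, (hL_twist h hγ h1 v).symm⟩, fun _ => rfl⟩, fun _ _ _ => rfl⟩

theorem mco_cc {r : V} {k : Fin 3} (hr : r - tv k ∈ Dv 1) (z : V) : cc k z = red 1 (om r z) := by
  rw [cc, ← neg_z2 (red 1 (om r z)), ← map_neg, red_eq,
    show om z (tv k) - -om r z = om (r - tv k) z by simp only [om, Prod.fst_sub, Prod.snd_sub]; ring]
  exact om_dvd_left hr z

/-- The coinvariants at a multiplicative place and the sign of Frobenius on them. -/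
theorem co_mult (hgeo : ∀ g ∈ Geo F, dt (T.ro g) = 1) {i j k : Fin 3} (hm : MP e O x i j k)
    (hγ : γ ∈ Ine O) (h1 : sg (pl x) γ = 1) : ∃ π : V →ₗ[ℤ_[2]] Fin 1 → ℤ_[2], Co T O γ π ∧
      ∀ f ∈ St O, ∀ Q : ℕ, Fr f Q → Q ≠ 0 → dt (T.ro f) = Q → f (pl x) = pl x →
        ∀ v, π (T.ro f v) = sgz (sg (e i - e k) f) • π v := by
  obtain ⟨r, b, htv⟩ := hm.exists_tv hgeo (T := T)
  obtain ⟨w, hw⟩ := (unit_of_red ((htv.par hm hγ).trans h1)).exists_right_inv
  obtain ⟨r', hr'⟩ := exists_dual (tv_prim htv.hr)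
  have h0 : ∀ μ, hL T γ μ = -(b γ * om r μ) • r := fun μ => hL_eq (by
    rw [htv.hb γ hγ]
    module)
  refine ⟨⟨⟨fun v _ => om r v, fun y z => funext fun _ => om_add_right r y z⟩,
    fun c y => funext fun _ => om_smul_right c r y⟩, ⟨fun y => ⟨y 0 • r', funext fun l => ?_⟩,
    fun v => ⟨fun h => ⟨-(om v r' * w) • r', ?_⟩, ?_⟩, fun g hg v => funext fun _ => ?_⟩,
    fun f hf Q hQ hQ0 hd hp v => funext fun _ => ?_⟩
  · change om r (y 0 • r') = y l
    rw [om_smul_right, hr', mul_one, Subsingleton.elim l 0]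
  · have h2 : om r v = 0 := congrFun h 0
    rw [h0, om_smul_right, hr']
    conv_lhs => rw [dual_expand hr' v, h2, zero_smul, add_zero]
    congr 1
    linear_combination (-om v r') * hw
  · rintro ⟨μ, rfl⟩
    funext _
    change om r (hL T γ μ) = 0
    rw [h0, om_smul_right, om_self, mul_zero]
  · change om r (T.ro g v) = om r v
    rw [htv.hb g hg, om_add_right, om_smul_right, om_self, mul_zero, add_zero]
  change om r (T.ro f v) = sgz (sg (e i - e k) f) * om r v
  have h3 : om r (T.ro f r) = 0 := by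
    have h4 := htv.fix (st_conj (inv_mem hf) hγ)
    have h5 : T.ro γ (T.ro f r) = T.ro f r := by
      rw [← ro_mul, show γ * f = f * (f⁻¹ * γ * f⁻¹⁻¹) by group, ro_mul, h4]
    rw [htv.hb γ hγ, add_eq_left] at h5
    have h6 := congrArg (om · r') h5
    simp only [om_smul_left, hr', om_zero_left] at h6
    exact mul_left_cancel₀ two_ne_zero (by linear_combination w * h6 - 2 * om r (T.ro f r) * hw)
  have h4 : ∀ y, om r (T.ro f y) = om r (T.ro f r') * om r y := fun y => by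
    conv_lhs => rw [dual_expand hr' y, map_add, map_smul, map_smul, om_add_right, om_smul_right,
      om_smul_right, h3]
    ring
  have hl := dual_expand hr' (T.ro f r)
  rw [h3, zero_smul, add_zero] at hl
  generalize om (T.ro f r) r' = c at hl
  have h5 : c * om r (T.ro f r') = Q := by rw [← om_smul_left, ← hl, om_map, hd, hr', mul_one]
  have h6 := congrArg (om · r') (htv.hb _ (st_conj hf hγ) (T.ro f r'))
  simp only [← ro_mul, inv_mul_cancel_right] at h6
  simp only [ro_mul, htv.hb γ hγ, map_add, map_smul, hl, hr', om_add_left, om_smul_left,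
    ET.conj_of hf hQ hp b (fun n z hz => htv.exists_u hm.ov hz) hγ] at h6
  have h7 := h4 (tv i)
  have h8 : red 1 (om r (tv i)) = 1 := (htv.cc i).trans (if_neg hm.ik)
  rw [T.nn_spec, om_add_right, om_smul_right] at h7
  rw [h4, ← T.cc_nn f hm.ik.symm (x := tv i) (by simp), mco_cc htv.hr]
  generalize om r (T.ro f r') = η at h5 h6 h7 ⊢
  have h9 : η * η = 1 := mul_left_cancel₀ (mul_ne_zero two_ne_zero
    (show (Q : ℤ_[2]) ≠ 0 by exact_mod_cast hQ0)) (by
      linear_combination (-w * η) * h6 + 2 * h5 + (2 * c * η - 2 * Q * η * η) * hw)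
  rcases mul_self_eq_one_iff.1 h9 with rfl | rfl
  · rw [show om r (T.nn f (tv i)) = 0 from mul_left_cancel₀ two_ne_zero (by
      linear_combination h7), map_zero, sgz_zero]
  · rw [show om r (T.nn f (tv i)) = -om r (tv i) from mul_left_cancel₀ two_ne_zero (by
      linear_combination h7), map_neg, h8, neg_z2, sgz_one]

end

end Pool.Agent.Lib.MP_16ef92_ag.FF
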