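import Mathlib

set_option autoImplicit false
set_option linter.unusedSectionVars false
set_option linter.unusedVariables false

namespace Pool.Agent.Lib.MP_16ef92_ag.FF

open PowerSeries
open scoped Classical

noncomputable section

variable {R S : Type} [CommRing R] [CommRing S] {P Q : R⟦X⟧} {r r' : ℕ → R}

/-- The numbers `r j`, `j > 0`, are the power sums of the inverse roots of `P`. -/
def LD (P : R⟦X⟧) (r : ℕ → R) : Prop :=
  constantCoeff P = 1 ∧ d⁄dX R P = -(PowerSeries.mk fun j => r (j + 1)) * P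

theorem LD.congr (h : LD P r) (e : ∀ j, 0 < j → r j = r' j) : LD P r' := by
  refine ⟨h.1, ?_⟩
  rw [h.2]
  congr 3
  exact funext fun j => e _ j.succ_pos

theorem ld_one : LD (1 : R⟦X⟧) fun _ => 0 := by
  refine ⟨map_one _, ?_⟩
  rw [derivative_one, mul_one, eq_comm, neg_eq_zero]
  ext n
  simp

/-- Leibniz rule. -/
theorem LD.mul (h : LD P r) (h' : LD Q r') : LD (P * Q) fun j => r j + r' j := by
  refine ⟨by rw [map_mul, h.1, h'.1, mul_one], ?_⟩
  have e : (PowerSeries.mk fun j => r (j + 1) + r' (j + 1)) =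
      (PowerSeries.mk fun j => r (j + 1)) + PowerSeries.mk fun j => r' (j + 1) := by
    ext n
    simp
  rw [Derivation.leibniz, h.2, h'.2, e, smul_eq_mul, smul_eq_mul]
  ring

theorem LD.prod {ι : Type} (s : Finset ι) {f : ι → R⟦X⟧} {u : ι → ℕ → R}
    (h : ∀ i ∈ s, LD (f i) (u i)) : LD (∏ i ∈ s, f i) fun j => ∑ i ∈ s, u i j := by
  induction s using Finset.induction_on with
  | empty => simpa using ld_one
  | insert a s ha ih =>
    simp only [Finset.prod_insert ha, Finset.sum_insert ha]
    exact (h a (Finset.mem_insert_self _ _)).mul (ih fun i hi => h i (Finset.mem_insert_of_mem hi))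

/-- Differentiate `P * Q = 1`. -/
theorem LD.inv (h : LD P r) (e : P * Q = 1) : LD Q fun j => -r j := by
  refine ⟨by simpa [h.1] using congrArg constantCoeff e, ?_⟩
  have e1 : (PowerSeries.mk fun j => -r (j + 1)) = -PowerSeries.mk fun j => r (j + 1) := by
    ext n
    simp
  have e2 := congrArg (d⁄dX R) e
  rw [Derivation.leibniz, h.2, derivative_one, smul_eq_mul, smul_eq_mul] at e2
  rw [e1]
  linear_combination Q * e2 -
    (d⁄dX R Q - (PowerSeries.mk fun j => r (j + 1)) * Q) * e

theorem LD.map (h : LD P r) (φ : R →+* S) : LD (PowerSeries.map φ P) fun j => φ (r j) := by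
  refine ⟨by rw [← coeff_zero_eq_constantCoeff_apply, coeff_map,
    coeff_zero_eq_constantCoeff_apply, h.1, map_one], ?_⟩
  have e1 : d⁄dX S (PowerSeries.map φ P) = PowerSeries.map φ (d⁄dX R P) := by
    ext n
    simp [coeff_derivative]
  have e2 : (PowerSeries.mk fun j => φ (r (j + 1))) =
      PowerSeries.map φ (PowerSeries.mk fun j => r (j + 1)) := by
    ext n
    simp
  rw [e1, e2, h.2, map_mul, map_neg]

theorem mld_newton (h : LD P r) (k : ℕ) : coeff (k + 1) P * (k + 1) =
    -∑ x ∈ Finset.HasAntidiagonal.antidiagonal k, r (x.1 + 1) * coeff x.2 P := by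
  rw [← coeff_derivative, h.2, neg_mul, map_neg, coeff_mul]
  simp only [coeff_mk]

/-- Newton's identities determine the coefficients. -/
theorem LD.coeff_eq [IsDomain R] [CharZero R] (h : LD P r) (h' : LD Q r') {n : ℕ}
    (e : ∀ j, 0 < j → j ≤ n → r j = r' j) {k : ℕ} (hk : k ≤ n) : coeff k P = coeff k Q := by
  induction k using Nat.strong_induction_on with
  | _ k ih =>
    cases k with
    | zero => simp [h.1, h'.1]
    | succ k =>
      refine mul_right_cancel₀ (Nat.cast_add_one_ne_zero k) ?_
      rw [mld_newton h, mld_newton h']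
      refine congrArg _ (Finset.sum_congr rfl fun x hx => ?_)
      have := Finset.HasAntidiagonal.mem_antidiagonal.1 hx
      rw [e _ (Nat.succ_pos _) (by omega), ih x.2 (by omega) (by omega)]

theorem LD.unique [IsDomain R] [CharZero R] (h : LD P r) (h' : LD Q r) : P = Q :=
  PowerSeries.ext fun k => h.coeff_eq h' (fun _ _ _ => rfl) le_rfl

theorem LD.rescale (h : LD P r) (c : R) : LD (rescale c P) fun j => c ^ j * r j := by
  refine ⟨by rw [← coeff_zero_eq_constantCoeff_apply, coeff_rescale,
    coeff_zero_eq_constantCoeff_apply, h.1, pow_zero, mul_one], ?_⟩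
  have e1 : d⁄dX R (PowerSeries.rescale c P) = C c * PowerSeries.rescale c (d⁄dX R P) := by
    ext n
    simp only [coeff_derivative, coeff_rescale, coeff_C_mul]
    ring
  have e2 : (PowerSeries.mk fun j => c ^ (j + 1) * r (j + 1)) =
      C c * PowerSeries.rescale c (PowerSeries.mk fun j => r (j + 1)) := by
    ext n
    simp only [coeff_mk, coeff_rescale, coeff_C_mul]
    ring
  rw [e1, e2, h.2, map_mul, map_neg]
  ring

theorem mld_exp {e : ℕ} (he : e ≠ 0) {u v : ℕ → R}
    (h : ∀ j, v j = if e ∣ j then e * u (j / e) else 0) :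
    (X * PowerSeries.mk fun j => v (j + 1)) =
      C (e : R) * PowerSeries.expand e he (X * PowerSeries.mk fun j => u (j + 1)) := by
  ext n
  rw [coeff_C_mul, PowerSeries.coeff_expand]
  cases n with
  | zero => simp
  | succ n =>
    rw [coeff_succ_X_mul, coeff_mk, h]
    split_ifs with hd
    · obtain ⟨m, hm⟩ : ∃ m, (n + 1) / e = m + 1 := Nat.exists_eq_succ_of_ne_zero
        (Nat.div_pos (Nat.le_of_dvd n.succ_pos hd) (Nat.pos_of_ne_zero he)).ne'
      rw [hm, coeff_succ_X_mul, coeff_mk]
    · rw [mul_zero]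

/-- Substitution of `X ^ e`. -/
theorem LD.expand {p : Polynomial R} (h : LD (p : R⟦X⟧) r) {e : ℕ} (he : 0 < e) :
    LD (Polynomial.expand R e p : Polynomial R) fun j => if e ∣ j then e * r (j / e) else 0 := by
  have e0 : ((Polynomial.expand R e p : Polynomial R) : R⟦X⟧) =
      PowerSeries.expand e he.ne' (p : R⟦X⟧) := by
    ext n
    simp only [Polynomial.coeff_coe, PowerSeries.coeff_expand, Polynomial.coeff_expand he]
  have e1 : ∀ f : R⟦X⟧, d⁄dX R f = PowerSeries.mk fun j => coeff (j + 1) f * ((j + 1 : ℕ) : R) :=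
    fun f => PowerSeries.ext fun n => by rw [coeff_derivative, coeff_mk, Nat.cast_succ]
  rw [e0]
  refine ⟨by rw [constantCoeff_expand, h.1], X_mul_cancel ?_⟩
  have e2 := mld_exp he.ne' (u := fun j => coeff j (p : R⟦X⟧) * (j : R))
    (v := fun j => coeff j (PowerSeries.expand e he.ne' (p : R⟦X⟧)) * (j : R)) fun j => by
      rw [PowerSeries.coeff_expand]
      split_ifs with hd
      · obtain ⟨m, rfl⟩ := hd
        rw [Nat.mul_div_cancel_left _ he, Nat.cast_mul]
        ring
      · rw [zero_mul]
  have e3 := mld_exp he.ne' (u := r) (v := fun j => if e ∣ j then e * r (j / e) else 0)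
    fun _ => rfl
  rw [← e1, ← e1, h.2, ← mul_assoc, mul_neg, map_mul, map_neg] at e2
  rw [e2, ← mul_assoc X, mul_neg X, e3]
  ring

theorem ld_lin (c : R) :
    LD ((1 - Polynomial.C c * Polynomial.X : Polynomial R) : R⟦X⟧) fun j => c ^ j := by
  have e0 : ((1 - Polynomial.C c * Polynomial.X : Polynomial R) : R⟦X⟧) = 1 - C c * X := by
    rw [← Polynomial.coeToPowerSeries.ringHom_apply, map_sub, map_one, map_mul]
    simp
  rw [e0]
  refine ⟨by simp, ?_⟩
  rw [map_sub, derivative_one, Derivation.leibniz, derivative_C, derivative_X, smul_zero, add_zero,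
    smul_eq_mul, mul_one, zero_sub, neg_mul, neg_inj, mul_sub, mul_one, mul_left_comm]
  ext n
  cases n with
  | zero => simp
  | succ n => simp [coeff_succ_mul_X, pow_succ']

theorem LD.coeff_one (h : LD P r) : coeff 1 P = -r 1 := by
  simpa [h.1] using mld_newton h 0

end

end Pool.Agent.Lib.MP_16ef92_ag.FF
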