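import Mathlib
import Pool.Agent.Lib.MP_03e5d0_nt.FF.MLd

set_option autoImplicit false
set_option linter.unusedSectionVars false
set_option linter.unusedVariables false

namespace Pool.Agent.Lib.MP_16ef92_ag.FF

open PowerSeries
open scoped Classical

noncomputable section

variable {R : Type} [CommRing R]

/-- The ring homomorphism `a ↦ a + ε d a`. -/
def mjac_hom {A : Type} [CommRing A] [Algebra R A] (d : Derivation R A A) :
    A →+* DualNumber A where
  toFun a := algebraMap A _ a + algebraMap A _ (d a) * DualNumber.eps
  map_one' := by simp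
  map_zero' := by simp
  map_add' a b := by
    simp only [map_add]
    ring
  map_mul' a b := by
    have := DualNumber.eps_mul_eps (R := A)
    simp only [Derivation.leibniz, smul_eq_mul, map_add, map_mul]
    linear_combination -(algebraMap A _ (d a) * algebraMap A _ (d b)) * this

/-- Jacobi's formula for a derivation. -/
theorem jac_det {A n : Type} [CommRing A] [Algebra R A] [Fintype n] [DecidableEq n]
    (d : Derivation R A A) (M N : Matrix n n A) (h : N * M = 1) :
    d M.det = M.det * (N * M.map d).trace := by
  have e : (mjac_hom d).mapMatrix M = (algebraMap A (DualNumber A)).mapMatrix M *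
      (1 + (DualNumber.eps : DualNumber A) •
        (algebraMap A (DualNumber A)).mapMatrix (N * M.map d)) := by
    rw [mul_add, mul_one, Matrix.mul_smul, ← map_mul, ← mul_assoc, mul_eq_one_comm.1 h, one_mul]
    refine Matrix.ext fun a b => ?_
    rw [Matrix.add_apply, Matrix.smul_apply, smul_eq_mul, mul_comm]
    rfl
  have e1 := (mjac_hom d).map_det M
  rw [e, Matrix.det_mul, Matrix.det_one_add_smul, DualNumber.eps_pow_two, mul_zero, add_zero,
    ← RingHom.map_det, RingHom.mapMatrix_apply, ← AddMonoidHom.map_trace] at e1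
  have e2 := congrArg TrivSqZeroExt.snd e1
  simpa [mjac_hom, TrivSqZeroExt.algebraMap_eq_inl] using e2

theorem ld_matrix {n : Type} [Fintype n] [DecidableEq n] (M : Matrix n n R) :
    LD (M.charpolyRev : R⟦X⟧) fun j => (M ^ j).trace := by
  refine ⟨by rw [Polynomial.constantCoeff_coe, Polynomial.coeff_zero_eq_eval_zero,
    Matrix.eval_charpolyRev], ?_⟩
  have e0 : (M.charpolyRev : R⟦X⟧) = (1 - (X : R⟦X⟧) • M.map C).det := by
    rw [← Polynomial.coeToPowerSeries.ringHom_apply, Matrix.charpolyRev, RingHom.map_det, map_sub,
      map_one]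
    refine congrArg (fun U : Matrix n n R⟦X⟧ => (1 - U).det) (Matrix.ext fun a b => ?_)
    simpa using mul_comm (C (M a b)) X
  have e1 : (Matrix.of fun a b => PowerSeries.mk fun j => (M ^ j) a b) * M.map C =
      Matrix.of fun a b => PowerSeries.mk fun j => (M ^ (j + 1)) a b := by
    ext a b j
    simp only [Matrix.mul_apply, Matrix.of_apply, Matrix.map_apply, map_sum, coeff_mul_C, coeff_mk,
      pow_succ]
  have e2 : (1 - (X : R⟦X⟧) • M.map C).map (d⁄dX R) = -M.map C := by
    refine Matrix.ext fun a b => ?_
    simp [Matrix.one_apply, apply_ite (d⁄dX R)]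
  rw [e0, jac_det (d⁄dX R) _ (Matrix.of fun a b => PowerSeries.mk fun j => (M ^ j) a b), e2,
    mul_neg, e1, mul_comm, Matrix.trace_neg]
  · refine congrArg (fun U => -U * _) (PowerSeries.ext fun j => ?_)
    simp [Matrix.trace]
  · rw [mul_sub, mul_one, Matrix.mul_smul, e1]
    ext a b j
    cases j with
    | zero => simp [Matrix.one_apply, apply_ite (constantCoeff (R := R))]
    | succ j => simp [Matrix.one_apply, coeff_succ_X_mul, apply_ite (coeff (R := R) (j + 1)),
        coeff_one]

theorem ld_end {Z : Type} [AddCommGroup Z] [Module R Z] [Module.Free R Z] [Module.Finite R Z]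
    (g : Module.End R Z) :
    LD (g.charpoly.reverse : R⟦X⟧) fun j => LinearMap.trace R Z (g ^ j) := by
  have b := Module.Free.chooseBasis R Z
  rw [← LinearMap.charpoly_toMatrix g b, Matrix.reverse_charpoly]
  exact (ld_matrix _).congr fun j _ => by
    rw [LinearMap.trace_eq_matrix_trace R b, LinearMap.toMatrix_pow]

/-- Rank two. -/
theorem ld_two (g : Module.End R (Fin 2 → R)) :
    LD ((1 - Polynomial.C (LinearMap.trace R _ g) * Polynomial.X +
      Polynomial.C (LinearMap.det g) * Polynomial.X ^ 2 : Polynomial R) : R⟦X⟧)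
      fun j => LinearMap.trace R _ (g ^ j) := by
  have b := Pi.basisFun R (Fin 2)
  have e : (1 - Polynomial.C (LinearMap.trace R _ g) * Polynomial.X +
      Polynomial.C (LinearMap.det g) * Polynomial.X ^ 2 : Polynomial R) =
      (LinearMap.toMatrix b b g).charpolyRev := by
    rw [LinearMap.trace_eq_matrix_trace R b, ← LinearMap.det_toMatrix b, Matrix.charpolyRev]
    generalize LinearMap.toMatrix b b g = U
    simp [Matrix.det_fin_two, Matrix.trace_fin_two]
    ring
  rw [e]
  exact (ld_matrix _).congr fun j _ => by
    rw [LinearMap.trace_eq_matrix_trace R b, LinearMap.toMatrix_pow]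

end

end Pool.Agent.Lib.MP_16ef92_ag.FF
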