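import Mathlib
import Pool.Agent.Lib.MP_03e5d0_nt.FF.MLd
import Pool.Agent.Lib.MP_16ef92_ag.AL.E7
import Pool.Agent.Lib.MP_03e5d0_nt.CLoc

set_option autoImplicit false
set_option linter.unusedSectionVars false
set_option linter.unusedVariables false

namespace Pool.Agent.Lib.MP_16ef92_ag.FF

open Polynomial AL
open scoped Classical

noncomputable section

variable {F : Type} [Field F] [Clos F] [Fintype F] [hq : Fact (Odd (Fintype.card F))]

/-- The point is fixed by the `Q`-th power map. -/
def Fx (Q : ℕ) : Option (kk F) → Prop
  | none => True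
  | some c => c ^ Q = c

/-- The fibre of the minimal model at a point of the projective line. -/
def fibx (A B D : F[X]) : Option (kk F) → WeierstrassCurve.Affine (kk F)
  | some c => fib A B D c
  | none => if Even (A.natDegree + D.natDegree) then
      ⟨0, -(algebraMap F _ (D * A).leadingCoeff + algebraMap F _ (D * B).leadingCoeff), 0,
        algebraMap F _ (D * A).leadingCoeff * algebraMap F _ (D * B).leadingCoeff, 0⟩
    else ⟨0, 0, 0, 0, 0⟩

/-- The local polynomial as a 2-adic power series. -/
def lps {k : Type} [Field k] (W : WeierstrassCurve k) : PowerSeries ℤ_[2] :=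
  ((MP_03e5d0_nt.lp W).map (Int.castRingHom ℤ_[2]) : ℤ_[2][X])

end

end Pool.Agent.Lib.MP_16ef92_ag.FF
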