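import Mathlib
import Pool.Agent.Lib.MP_03e5d0_nt.FF.MDef
import Pool.Agent.Lib.MP_16ef92_ag.AL.EMain
import Pool.Agent.Lib.MP_16ef92_ag.GF.Rep
import Pool.Agent.Lib.MP_16ef92_ag.GF.Symb

set_option autoImplicit false
set_option linter.unusedSectionVars false
set_option linter.unusedVariables false

namespace Pool.Agent.Lib.MP_16ef92_ag.FF

open Polynomial GF AL AL.EC
open scoped Classical

noncomputable section

variable {F : Type} [Field F] [Clos F] [Fintype F] [hq : Fact (Odd (Fintype.card F))]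
variable [DecidableEq (kk F)] {A B D : F[X]}

/-- The trace of Frobenius at a place of good reduction. -/
theorem trace_spec (h0 : A * B * (A - B) * D ≠ 0) {l : ℕ} [Fact l.Prime] (hl : (l : F) ≠ 0)
    (T : TM l (curve A B D)) {E : WeierstrassCurve.Affine (kk F)} (hE : Sh E)
    (π : Pt (curve A B D) →+ E.Point) (hπ : ∀ j P, l ^ j • P = 0 → π P = 0 → P = 0) {r : ℕ}
    (hr : 0 < r) {σ : kk F →+* kk F} (hσ : ∀ z, σ z = z ^ Fintype.card F ^ r)
    (e : E = WeierstrassCurve.map E σ) {φ : E.Point →+ E.Point} (hφ : IsMap σ φ) {f : Gam F}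
    (hf : ∀ P, π (pm f P) = φ (π P)) : LinearMap.trace _ _ (T.ro f) =
      ((Fintype.card F ^ r : ℕ) + 1 - Nat.card {P // φ P = P} : ℤ) := by
  obtain ⟨p, hp⟩ := CharP.exists F
  obtain ⟨⟨n, hn0⟩, hpp, hn⟩ := FiniteField.card F p
  replace hn : Fintype.card F = p ^ n := hn
  have := Fact.mk hpp
  have : CharP (kk F) p := charP_of_injective_algebraMap (algebraMap F _).injective p
  have hQ : Fintype.card F ^ r = p ^ (n * r) := by rw [hn, pow_mul]
  obtain ⟨t, p2, p3⟩ := frob_char hE (Nat.mul_pos hn0 hr) (fun z => by rw [hσ, hQ]) e hφ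
  have hlj : ∀ j, ((l ^ j : ℕ) : F) ≠ 0 := fun j => by push_cast; exact pow_ne_zero j hl
  have hc : ∀ j, Nat.card {P : Pt (curve A B D) // l ^ j • P = 0} = l ^ (2 * j) := fun j => by
    rw [card_tors h0 (hlj j), ← pow_mul, mul_comm]
  have hev : TA l T.ev := ⟨T.mem, T.surj, T.lvl, T.zero⟩
  have h1 := hev.trace (f := pm f) (t := t) (Q := ((p ^ (n * r) : ℕ) : ℤ))
    (fun x j => congrFun (T.equiv f x) j) (fun j P hP => hπ j _ (by
      rw [smul_add, smul_sub, smul_comm, smul_comm _ (_ : ℤ), ← map_nsmul, ← map_nsmul, hP]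
      simp) (by rw [map_add, map_sub, map_zsmul, map_zsmul, hf, hf, p2])) hpp
    (fun e => hl (e ▸ CharP.cast_eq_zero F p)) fun b j hb h4 => by
      rw [← (p3 b fun e => hb ((CharP.intCast_eq_zero_iff _ p b).1 e)).2, ← Nat.cast_pow, ← hc]
      exact Int.natCast_dvd_natCast.2 (sub_dvd_card π b φ (hπ j) fun P hP => by
        rw [← hf, ← map_zsmul, ← map_add, h4 P hP, map_zero])
  have h2 := (p3 (-1) (by simp)).2
  simp only [neg_smul, one_smul, neg_add_eq_zero, eq_comm (b := φ _)] at h2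
  rw [h1, hQ, h2]
  congr 1
  ring

theorem msp_fibx (hd : Even (A.natDegree + D.natDegree)) : fibx A B D none =
    ⟨0, -(algebraMap F _ (D * A).leadingCoeff + algebraMap F _ (D * B).leadingCoeff), 0,
      algebraMap F _ (D * A).leadingCoeff * algebraMap F _ (D * B).leadingCoeff, 0⟩ := if_pos hd

theorem sh_inf (h : Fam0 A B D) (hd : Even (A.natDegree + D.natDegree)) :
    Sh (fibx A B D none) := by
  obtain ⟨hA, hB, hC, hD⟩ := h.ne
  have e : (A - B).leadingCoeff = A.leadingCoeff - B.leadingCoeff := by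
    rw [leadingCoeff, leadingCoeff, leadingCoeff, h.dC, h.dB, coeff_sub]
  have h0 := (_root_.map_ne_zero (algebraMap F (kk F))).2
    (leadingCoeff_ne_zero.2 h.sq.ne_zero)
  simp only [leadingCoeff_mul, e, map_mul, map_sub] at h0
  simp only [msp_fibx hd, leadingCoeff_mul, map_mul]
  exact e7_sh (fun e => two_ne (F := F) (congrArg Subtype.val e)) h0

theorem msp_inf {O : ValuationSubring (Om F)} (h : Over O none) (p : F[X]) : O.valuation
    (ev p / tt F ^ p.natDegree - (algebraMap F (kk F) p.leadingCoeff : kk F)) < 1 := by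
  have h1 := poly_sub O (w := (tt F)⁻¹) (c := 0) (by simpa [Over, pl] using h)
    (p.reverse.map (algebraMap F (kk F)))
  have : Invertible (tt F) := invertibleOfNonzero tt_ne
  have h2 := eval₂_reverse_mul_pow (algebraMap F (Om F)) (tt F) p
  rw [invOf_eq_inv, ← aeval_def, ← aeval_def] at h2
  rw [aeval_map_algebraMap, ← coeff_zero_eq_eval_zero, coeff_map, coeff_zero_reverse] at h1
  rwa [ev, ← h2, mul_div_cancel_right₀ _ (pow_ne_zero _ tt_ne)]

theorem msp_sc {L : Type} [Field L] [DecidableEq L] {W W' : WeierstrassCurve.Affine L} {u : L}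
    (h : Sc W W' u) (P : W.Point) :
    xc (h.hom P) = u ^ 2 * xc P ∧ yc (h.hom P) = u ^ 3 * yc P := by
  rcases P with _ | ⟨x, y, n⟩
  · exact ⟨(mul_zero _).symm, (mul_zero _).symm⟩
  · exact ⟨rfl, rfl⟩

/-- Good reduction at infinity. -/
theorem exists_spec_inf (h : Fam0 A B D) (hd : Even (A.natDegree + D.natDegree))
    {O : ValuationSubring (Om F)} (hO : Over O none) :
    ∃ π : Pt (curve A B D) →+ (fibx A B D none).Point,
      (∀ m : ℕ, (m : F) ≠ 0 → ∀ P, m • P = 0 → π P = 0 → P = 0) ∧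
      ∀ f ∈ St O, ∀ Q, Fr f Q → ∀ (σ : kk F →+* kk F) (φ : (fibx A B D none).Point →+ _),
        (∀ z, σ z = z ^ Q) → IsMap σ φ → ∀ P, π (pm f P) = φ (π P) := by
  obtain ⟨hA, hB, hC, hD⟩ := h.ne
  obtain ⟨m, hm⟩ := id hd
  obtain ⟨rd, he⟩ := e7_ev hO
  have hu : ∀ (z : O.toSubring) (d : kk F), O.valuation ((z : Om F) - d) < 1 → rd z = d :=
    fun z d h => const_eq O (by
      have := Valuation.map_sub_lt _ h (he z)
      rwa [sub_sub_sub_cancel_left] at this)
  obtain ⟨u, hu0, hu1, hp⟩ : ∃ u : Om F, u ≠ 0 ∧ (∀ g : Gam F, g u = u) ∧ ∀ p : F[X], p ≠ 0 →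
      p.natDegree = A.natDegree → ∃ h : u ^ 2 * ev (D * p) ∈ O.toSubring,
        rd ⟨_, h⟩ = algebraMap F _ (D * p).leadingCoeff := by
    refine ⟨(tt F ^ m)⁻¹, inv_ne_zero (pow_ne_zero _ tt_ne), fun g => by
      rw [map_inv₀, map_pow, gam_tt], fun p h0 h1 => ?_⟩
    have h2 := msp_inf hO (D * p)
    rw [natDegree_mul hD h0, h1, add_comm, hm, div_eq_inv_mul, pow_add, mul_inv, ← sq] at h2
    have h3 := Valuation.map_add_le O.valuation h2.le
      (val_const_le O (algebraMap F _ (D * p).leadingCoeff))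
    rw [sub_add_cancel] at h3
    exact ⟨(O.valuation_le_one_iff _).1 h3, hu _ _ h2⟩
  obtain ⟨a1, a2⟩ := hp A hA rfl
  obtain ⟨b1, b2⟩ := hp B hB h.dB
  let W : WeierstrassCurve.Affine (Om F) := ⟨0, -(u ^ 2 * ev (D * A) + u ^ 2 * ev (D * B)), 0,
    u ^ 2 * ev (D * A) * (u ^ 2 * ev (D * B)), 0⟩
  have hS : Sc ((curve A B D).baseChange (Om F)).toAffine W u := by
    refine ⟨by simp [curve], by simp [curve], rfl, rfl, ?_, ?_, by simp [curve, W], hu0⟩
    · simp only [W, ev, ← rf_eq]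
      simp [curve, mul_add, add_comm]
    · simp only [W, ev, ← rf_eq]
      simp only [curve, WeierstrassCurve.baseChange, WeierstrassCurve.map_a₄, map_mul]
      ring
  have hW : Sh W := by
    have h0 := ev_ne h.sq.ne_zero
    simp only [map_mul, map_sub] at h0
    simp only [W, map_mul, ← mul_assoc (u ^ 2)]
    exact e7_sh two_ne (by
      rw [mul_left_comm]
      exact mul_ne_zero (pow_ne_zero 2 hu0) h0)
  have S : SpecData O.toSubring rd W (fibx A B D none) := by
    have hs := sh_inf h hd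
    refine ⟨O.mem_or_inv_mem, fun z hz => ?_, rfl, rfl, hs.a₁, hs.a₃, ⟨neg_mem (add_mem a1 b1), ?_⟩,
      ⟨mul_mem a1 b1, ?_⟩, ⟨zero_mem _, ?_⟩, hs.Δ⟩
    · refine (O.valuation_le_one_iff _).1 ?_
      rw [map_inv₀, val_one_of_sub O (val_const O hz) (he z), inv_one]
    · rw [msp_fibx hd, ← a2, ← b2, ← map_add, ← map_neg]
      rfl
    · rw [msp_fibx hd, ← a2, ← b2, ← map_mul]
      rfl
    · rw [msp_fibx hd]
      exact map_zero rd
  refine ⟨S.hom.comp hS.hom, fun n hn P h1 h2 => hS.hom_eq_zero.1 (S.tors_inj hW (n := n) ?_ ?_ h2),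
    fun f hf Q hQ σ φ hσ hφ P => ?_⟩
  · rw [← map_natCast (algebraMap F (kk F))]
    exact (_root_.map_ne_zero _).2 hn
  · rw [← map_nsmul, h1, map_zero]
  obtain ⟨ψ, hψ⟩ := exists_isMap (E' := W) hW (f : Om F →+* Om F) (by
    ext <;> simp [W, hu1, gam_ev])
  have e : hS.hom (pm f P) = ψ (hS.hom P) := by
    by_cases h0 : P = 0
    · rw [h0, map_zero, map_zero, map_zero]
    refine pt_ext (mt hS.hom_eq_zero.1 ((isMap_pm f).ne P h0))
      (hψ.ne _ (mt hS.hom_eq_zero.1 h0)) ?_ ?_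
    · rw [hψ.x, (msp_sc hS _).1, (msp_sc hS _).1, (isMap_pm f).x, map_mul, map_pow]
      exact congrArg (· ^ 2 * _) (hu1 f).symm
    · rw [hψ.y, (msp_sc hS _).2, (msp_sc hS _).2, (isMap_pm f).y, map_mul, map_pow]
      exact congrArg (· ^ 3 * _) (hu1 f).symm
  rw [AddMonoidHom.comp_apply, AddMonoidHom.comp_apply, e]
  refine S.equiv hψ hφ hf (fun z h h' => hu _ _ ?_) _
  have h1 := st_lt hf (he ⟨z, h⟩)
  rw [map_sub, hQ] at h1
  rw [hσ]
  exact h1

/-- The quadratic character of a unit at a Frobenius element. -/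
theorem sg_sq {O : ValuationSubring (Om F)} {c : kk F} (hO : Over O (some c)) {f : Gam F}
    (hf : f ∈ St O) {Q : ℕ} (hQ : Fr f Q) (ho : Odd Q) {p : F[X]} (hp : aeval c p ≠ 0) :
    sg (ev p) f = 0 ↔ ∃ w : kk F, w ^ Q = w ∧ w ^ 2 = aeval c p := by
  have h1 := ev_sub hO p
  refine ⟨fun h => by_contra fun h2 => ?_, fun ⟨w, h2, h3⟩ => ?_⟩
  · have := (sg_nonsq hO hQ hf (gam_ev f p) h1 (fun y a b => h2 ⟨y, a, b⟩) ho.pos).2
    exact absurd (h.symm.trans this) (by decide)
  have h4 : f w = w := by rw [hQ w]; exact_mod_cast congrArg (fun z : kk F => (z : Om F)) h2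
  have h5 : (w : Om F) ^ 2 = (aeval c p : kk F) := by rw [← h3]; norm_cast
  have h6 := val_const O hp
  have h7 : ((aeval c p : kk F) : Om F) ≠ 0 := fun e => by simp [e] at h6
  have h8 : f (aeval c p : kk F) = (aeval c p : kk F) := by rw [← h5, map_pow, h4]
  have h9 : ev p ≠ 0 := ev_ne fun e => hp (by simp [e])
  rw [← div_mul_cancel₀ (ev p) h7, sg_mul_left (by rw [map_div₀, h8, gam_ev])
    (div_ne_zero h9 h7) h8 h7, sg_of_fix h7 h5 h4, add_zero]
  refine sg_one_unit hf (by rw [map_div₀, h8, gam_ev]) ?_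
  rwa [div_sub_one h7, map_div₀, h6, div_one]

end

end Pool.Agent.Lib.MP_16ef92_ag.FF
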