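import Mathlib
import Pool.Agent.Lib.MP_03e5d0_nt.FF.MCy
import Pool.Agent.Lib.MP_16ef92_ag.AL.NMain

set_option autoImplicit false
set_option linter.unusedSectionVars false
set_option linter.unusedVariables false

namespace Pool.Agent.Lib.MP_16ef92_ag.FF

open Polynomial GF AL Module LinearMap
open scoped Classical

noncomputable section

variable {F : Type} [Field F] [Clos F] [Fintype F] [hq : Fact (Odd (Fintype.card F))]
variable {e : Fin 3 → Om F} {T : TD e} {W : WeierstrassCurve (RatFunc F)} {N : F[X]}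

/-- Comparison of the two coordinate systems on the Tate module. -/
theorem exists_eps (T : TD e) {ev' : V →+ ℕ → Pt W} (hin : ∀ x, InTate (ev' x))
    (hsurj : ∀ P, InTate P → ∃ x, ev' x = P) (hker : ∀ n x, ev' x n = 0 ↔ x ∈ Dv n)
    (hro : ∀ g x, ev' (T.ro g x) = act g (ev' x)) (T₂ : TM 2 W) :
    ∃ ε : V ≃ₗ[ℤ_[2]] Fin 2 → ℤ_[2], ∀ g x, T₂.ro g (ε x) = ε (T.ro g x) := by
  choose ε₀ h0 using fun x => T₂.surj _ (hin x)
  let φ := LinearEquiv.finTwoArrow ℤ_[2] ℤ_[2]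
  let f : V →+ V := AddMonoidHom.mk' (fun x => φ (ε₀ x)) fun x y => by
    rw [← map_add]
    exact congrArg φ (T₂.inj (by rw [map_add, h0, h0, h0, map_add]))
  have h1 : ∀ x, φ.symm (lin f x) = ε₀ x := fun x => φ.symm_apply_apply _
  refine ⟨LinearEquiv.ofBijective (φ.symm.toLinearMap ∘ₗ lin f)
    ⟨(injective_iff_map_eq_zero _).2 fun x hx => eq_zero_of_Dv fun n => (hker n x).1 ?_,
      fun y => ?_⟩, fun g x => T₂.inj ?_⟩
  · rw [← h0, (h1 x).symm.trans hx, map_zero]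
    rfl
  · obtain ⟨x, hx⟩ := hsurj _ (T₂.mem y)
    exact ⟨x, (h1 x).trans (T₂.inj ((h0 x).trans hx))⟩
  · change T₂.ev (T₂.ro g (φ.symm (lin f x))) = T₂.ev (φ.symm (lin f _))
    rw [h1, h1, T₂.equiv, h0, h0, hro]

theorem eps_dvd (ε : V ≃ₗ[ℤ_[2]] Fin 2 → ℤ_[2]) (n : ℕ) (x : V) :
    (∀ i, ((2 : ℕ) : ℤ_[2]) ^ n ∣ ε x i) ↔ x ∈ Dv n := by
  rw [mem_Dv_iff, Nat.cast_ofNat]
  refine ⟨fun h => ?_, ?_⟩
  · choose y hy using h
    exact ⟨ε.symm y, ε.injective (by rw [map_smul, ε.apply_symm_apply]; exact funext hy)⟩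
  · rintro ⟨z, rfl⟩ i
    rw [map_smul]
    exact dvd_mul_right _ _

theorem eps_det (ε : V ≃ₗ[ℤ_[2]] Fin 2 → ℤ_[2]) {f : End ℤ_[2] V} {g : End ℤ_[2] (Fin 2 → ℤ_[2])}
    (h : ∀ x, g (ε x) = ε (f x)) : LinearMap.det g = dt f ∧ trace _ _ g = trace _ _ f := by
  obtain rfl : g = ε.conj f := LinearMap.ext fun y => by
    rw [← ε.apply_symm_apply y, h, LinearEquiv.conj_apply_apply, ε.symm_apply_apply]
  refine ⟨(LinearMap.det_conj f ε).trans ?_, trace_conj' f ε⟩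
  rw [← det_toMatrix (Basis.finTwoProd ℤ_[2]), Matrix.det_fin_two]
  simp [toMatrix_apply, dt, om, mul_comm]

variable {T₂ : TM 2 W} {ε : V ≃ₗ[ℤ_[2]] Fin 2 → ℤ_[2]}

theorem exists_cz (hε : ∀ g x, T₂.ro g (ε x) = ε (T.ro g x)) (z : Zi (fam N) T₂.rg) :
    ∃ a, Cy T a ∧ GI N (fun g => a g = 0) ∧ ∀ g : Geo F, z.1 g = ε (a g) := by
  let a : Gam F → V := fun g => if h : g ∈ Geo F then ε.symm (z.1 ⟨g, h⟩) else 0
  have ha : ∀ g (h : g ∈ Geo F), ε (a g) = z.1 ⟨g, h⟩ := fun g h =>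
    (congrArg ε (dif_pos h)).trans (ε.apply_symm_apply _)
  refine ⟨a, ⟨fun g hg l hl => ε.injective ?_, fun n => ?_⟩,
    fun c hc O hO g hg => eq_zero_of_Dv fun n => ?_, fun g => (ha g g.2).symm⟩
  · rw [map_add, ← hε, ha g hg, ha l hl, ha _ (mul_mem hg hl)]
    exact z.2.1 ⟨g, hg⟩ ⟨l, hl⟩
  · exact (ev_near (z.2.2 n)).mono fun g hg h => (eps_dvd ε n _).1 (ha g h ▸ hg h)
  · exact (eps_dvd ε n _).1 (ha g hg.1 ▸ ev_ine (z.2.2 n) c hc O hO g hg hg.1)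

theorem exists_z (hε : ∀ g x, T₂.ro g (ε x) = ε (T.ro g x)) {a : Gam F → V} (ha : Cy T a)
    (hi : GI N fun g => a g = 0) : ∃ z : Zi (fam N) T₂.rg, ∀ g : Geo F, z.1 g = ε (a g) := by
  refine ⟨⟨fun g => ε (a g), fun g l => ?_, fun n => ?_⟩, fun g => rfl⟩
  · exact (congrArg ε (ha.mul _ g.2 _ l.2)).trans ((map_add ε _ _).trans (congrArg _ (hε _ _).symm))
  let H : Subgroup (Gam F) :=
    { carrier := {g | g ∈ Geo F ∧ a g ∈ Dv n}
      mul_mem' := fun {g l} hg hl => ⟨mul_mem hg.1 hl.1, by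
        rw [ha.mul g hg.1 l hl.1]
        exact add_mem hg.2 (map_Dv _ hl.2)⟩
      one_mem' := ⟨one_mem _, ha.one ▸ zero_mem _⟩
      inv_mem' := fun {g} hg => ⟨inv_mem hg.1, by
        have := ha.mul _ (inv_mem hg.1) g hg.1
        rw [inv_mul_cancel, ha.one] at this
        rw [eq_neg_of_add_eq_zero_left this.symm]
        exact neg_mem (map_Dv _ hg.2)⟩ }
  exact (ev_of H ((ha.near n).mono fun g hg h => ⟨h, hg h⟩) fun d hd O hO g hg =>
    ⟨hg.1, (hi d hd O hO g hg).symm ▸ zero_mem _⟩).mono fun g hg => (eps_dvd ε n _).2 hg.2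

theorem exists_res (hε : ∀ g x, T₂.ro g (ε x) = ε (T.ro g x))
    (hg : ∀ c : kk F, aeval c N ≠ 0 → ∀ O, Over O (some c) → GoodAt T O) :
    ∃ res : Ad T →ₗ[ℤ_[2]] Zi (fam N) T₂.rg, ∀ a (g : Geo F), (res a).1 g = ε (a.1 g) := by
  choose z hz using fun a : Ad T => exists_z (N := N) hε a.2.1 fun c hc O hO g h =>
    loc_good a.2.2 hO (hg c hc O hO) h
  refine ⟨⟨⟨z, fun a b => Subtype.ext (funext fun g => ?_)⟩,
    fun c a => Subtype.ext (funext fun g => ?_)⟩, hz⟩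
  · exact (hz _ g).trans ((map_add ε _ _).trans (congrArg₂ _ (hz a g).symm (hz b g).symm))
  · exact (hz _ g).trans ((map_smul ε _ _).trans (congrArg _ (hz a g).symm))

end

end Pool.Agent.Lib.MP_16ef92_ag.FF
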