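import Mathlib
import Pool.Agent.Lib.MP_03e5d0_nt.FF.MZ
import Pool.Agent.Lib.MP_03e5d0_nt.FF.MCo
import Pool.Agent.Lib.MP_03e5d0_nt.FF.MSp
import Pool.Agent.Lib.MP_03e5d0_nt.FF.MCnt
import Pool.Agent.Lib.MP_03e5d0_nt.FF.MJac
import Pool.Agent.Lib.MP_16ef92_ag.GF.Red
import Pool.Agent.Lib.MP_16ef92_ag.ET.W2

set_option autoImplicit false
set_option linter.unusedSectionVars false
set_option linter.unusedVariables false

namespace Pool.Agent.Lib.MP_16ef92_ag.FF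

open Polynomial GF AL AL.EC Module LinearMap
open scoped Classical

noncomputable section

/-- The local polynomial of `y ^ 2 = (x - a) ^ 2 (x - b)`. -/
theorem lp_node {k K : Type} [Field k] [Fintype k] [Field K] (ι : k →+* K) (h2 : (2 : K) ≠ 0)
    {W : WeierstrassCurve k} {a b : K} (hab : a ≠ b)
    (e : W.map ι = ⟨0, -(2 * a + b), 0, a ^ 2 + 2 * a * b, -(a ^ 2 * b)⟩) :
    MP_03e5d0_nt.lp W =
      if ∃ w : K, w ^ Fintype.card k = w ∧ w ^ 2 = a - b then 1 - X else 1 + X := by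
  have h0 : (16 : K) * (a - b) ^ 2 ≠ 0 := mul_ne_zero
    (by rw [show (16 : K) = 2 ^ 4 by norm_num]; exact pow_ne_zero 4 h2)
    (pow_ne_zero 2 (sub_ne_zero.2 hab))
  have hΔ : W.Δ = 0 := ι.injective (by
    rw [← W.map_Δ, e, map_zero]
    simp only [WeierstrassCurve.Δ, WeierstrassCurve.b₂, WeierstrassCurve.b₄, WeierstrassCurve.b₆,
      WeierstrassCurve.b₈]
    ring)
  have hc : W.c₄ ≠ 0 := fun h => h0 (by
    rw [← map_zero ι, ← h, ← W.map_c₄, e]
    simp only [WeierstrassCurve.c₄, WeierstrassCurve.b₂, WeierstrassCurve.b₄]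
    ring)
  have hn : ∀ T, MP_03e5d0_nt.nodeq W T = 0 ↔ ι T ^ 2 = a - b := fun T => by
    rw [← map_eq_zero ι, ← MP_03e5d0_nt.nodeq_map, e, ← sub_eq_zero (b := a - b),
      ← mul_eq_zero_iff_left (b := _ - _) h0]
    simp only [MP_03e5d0_nt.nodeq, WeierstrassCurve.c₄, WeierstrassCurve.b₂, WeierstrassCurve.b₄,
      WeierstrassCurve.b₆]
    exact Eq.congr_left (by ring)
  split_ifs with h
  · obtain ⟨w, h1, h3⟩ := h
    obtain ⟨T, rfl⟩ := (range_iff ι w).2 h1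
    exact MP_03e5d0_nt.lp_split hΔ hc ⟨T, (hn T).2 h3⟩
  · exact MP_03e5d0_nt.lp_nonsplit hΔ hc fun ⟨T, hT⟩ =>
      h ⟨ι T, (range_iff ι _).1 ⟨T, rfl⟩, (hn T).1 hT⟩

theorem lp_cusp {k K : Type} [Field k] [Field K] (ι : k →+* K) {W : WeierstrassCurve k}
    (e : W.map ι = ⟨0, 0, 0, 0, 0⟩) : MP_03e5d0_nt.lp W = 1 := by
  refine MP_03e5d0_nt.lp_add (ι.injective ?_) (ι.injective ?_)
  · rw [← W.map_Δ, e, map_zero]
    simp [WeierstrassCurve.Δ, WeierstrassCurve.b₂, WeierstrassCurve.b₄, WeierstrassCurve.b₆]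
  · rw [← W.map_c₄, e, map_zero]
    simp [WeierstrassCurve.c₄, WeierstrassCurve.b₂, WeierstrassCurve.b₄]

variable {F : Type} [Field F] [Clos F] [Fintype F] [hq : Fact (Odd (Fintype.card F))]
variable {e : Fin 3 → Om F} {O : ValuationSubring (Om F)} {x : Option (kk F)} {s f : Gam F}
  {Q : ℕ}

theorem dt_fr {T : TD e} (hs : Fr s (Fintype.card F)) (hd : dt (T.ro s) = Fintype.card F) {j : ℕ}
    (hf : Fr f (Fintype.card F ^ j)) : dt (T.ro f) = (Fintype.card F ^ j : ℕ) := by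
  have h1 : ∀ n : ℕ, dt (T.ro (s ^ n)) = (Fintype.card F ^ n : ℕ) := fun n => by
    induction n with
    | zero => simp [dt_one]
    | succ n ih => rw [pow_succ, map_mul, dt_mul, ih, hd, pow_succ, Nat.cast_mul]
  rw [← inv_mul_cancel_right f (s ^ j), map_mul, dt_mul, T.dt_geo hs (red_geo (hs.pow j) hf),
    one_mul, h1]

theorem st_pl (hO : Over O x) (hf : f ∈ St O) (hQ : Fr f Q) : f (pl x) = pl x := by
  cases x with
  | none => exact gam_pl _ none
  | some c => exact hQ.pl (congrArg Subtype.val (fix_of_st hO hf hQ))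

theorem exists_st (hs : Fr s Q) (hx : Fx Q x) (hO : Over O x) : ∃ f ∈ St O, Fr f Q := by
  cases x with
  | none =>
    obtain ⟨g, hg, h2⟩ := over_trans (O := cm s⁻¹ O) (x := none) (over_cm (by simpa using hO)) hO
    exact ⟨g * s, fun z => by rw [AlgEquiv.mul_apply, ← h2, mem_cm, inv_apply_self], hs.geo_mul hg⟩
  | some c =>
    obtain ⟨g, hg, h2⟩ := hs.exists_st (congrArg Subtype.val hx) hO
    exact ⟨_, h2, hs.geo_mul hg⟩

variable {A B D : F[X]} {T : TD fun i => ev (EE A B D i)} {j : ℕ} {k : Type} [Field k] [Fintype k]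
  {ι : k →+* kk F} {W : WeierstrassCurve k}

theorem mloc_frob (j : ℕ) : ∃ σ : kk F →+* kk F, ∀ z, σ z = z ^ Fintype.card F ^ j := by
  obtain ⟨p, hp⟩ := CharP.exists F
  obtain ⟨⟨n, hn0⟩, hpp, hn⟩ := FiniteField.card F p
  have := Fact.mk hpp
  have : CharP (kk F) p := charP_of_injective_algebraMap (algebraMap F _).injective p
  exact ⟨iterateFrobenius (kk F) p (n * j), fun z => by rw [hn, ← pow_mul]; rfl⟩

/-- Good reduction. -/
theorem ld_good (h : Fam0 A B D) (T₂ : TM 2 (curve A B D)) (hO : Over O x)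
    (hx : (∃ c, x = some c ∧ aeval c (A * B * (A - B) * D) ≠ 0) ∨
      (x = none ∧ Even (A.natDegree + D.natDegree))) (hf : f ∈ St O) (hj : 0 < j)
    (hQ : Fr f (Fintype.card F ^ j)) (hd : LinearMap.det (T₂.ro f) = (Fintype.card F ^ j : ℕ))
    (hk : Fintype.card k = Fintype.card F ^ j) (hW : W.map ι = fibx A B D x) :
    LD (lps W) fun i => trace _ _ (T₂.ro f ^ i) := by
  have h0 := h.sq.ne_zero
  have h2 : ∀ n, ((2 ^ n : ℕ) : F) ≠ 0 := fun n => by
    exact_mod_cast pow_ne_zero n (two_neF (F := F))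
  obtain ⟨σ, hσ⟩ := mloc_frob (F := F) j
  obtain ⟨hE, π, hπ, hS⟩ : Sh (fibx A B D x) ∧ ∃ π : Pt (curve A B D) →+ (fibx A B D x).Point,
      (∀ n P, 2 ^ n • P = 0 → π P = 0 → P = 0) ∧
      ∀ φ : (fibx A B D x).Point →+ _, IsMap σ φ → ∀ P, π (pm f P) = φ (π P) := by
    rcases hx with ⟨c, rfl, hc⟩ | ⟨rfl, hd⟩
    · obtain ⟨_, S, -, hS⟩ := exists_spec hc hO
      exact ⟨sh_fib hc, S.hom, fun n P => S.tors_inj (sh_om h0) (cast_kk (h2 n)),
        fun φ => hS f hf _ hQ σ φ hσ⟩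
    · obtain ⟨π, h1, hS⟩ := exists_spec_inf h hd hO
      exact ⟨sh_inf h hd, π, fun n => h1 _ (h2 n), fun φ => hS f hf _ hQ σ φ hσ⟩
  have e : fibx A B D x = WeierstrassCurve.map (fibx A B D x) σ := by
    rw [← hW, WeierstrassCurve.map_map]
    congr 1
    exact RingHom.ext fun z => by rw [RingHom.comp_apply, hσ, ← map_pow, ← hk, FiniteField.pow_card]
  obtain ⟨φ, hφ⟩ := exists_isMap hE σ e
  have ht := trace_spec h0 (by exact_mod_cast two_neF (F := F)) T₂ hE π hπ hj hσ e hφ (hS φ hφ)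
  rw [card_fix ι hE hW (by rwa [hk]) hφ] at ht
  have hΔ : W.Δ ≠ 0 := fun e => hE.Δ (by rw [← hW, WeierstrassCurve.map_Δ, e, map_zero])
  have := ld_two (T₂.ro f)
  rw [ht, hd] at this
  rw [lps, MP_03e5d0_nt.lp_good hΔ, Nat.card_eq_fintype_card, hk]
  simpa using this

theorem mloc_fib {K : Type} [Field K] (ε : Fin 3 → K) (h0 : ε 0 = 0) {i i' l : Fin 3} (h1 : i ≠ i')
    (h2 : i ≠ l) (h3 : i' ≠ l) (h : ε i = ε i') :
    (⟨0, -(ε 1 + ε 2), 0, ε 1 * ε 2, 0⟩ : WeierstrassCurve K) =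
      ⟨0, -(2 * ε i + ε l), 0, ε i ^ 2 + 2 * ε i * ε l, -(ε i ^ 2 * ε l)⟩ := by
  fin_cases i <;> fin_cases i' <;> fin_cases l <;> simp at h h1 h2 h3 ⊢ <;> grind

/-- Multiplicative reduction. -/
theorem ld_mult {c : kk F} {i i' l : Fin 3}
    (hm : MP (fun i => ev (EE A B D i)) O (some c) i i' l) (hf : f ∈ St O)
    (hQ : Fr f (Fintype.card F ^ j)) (hk : Fintype.card k = Fintype.card F ^ j)
    (hW : W.map ι = fibx A B D (some c)) :
    LD (lps W) fun n => sgz (sg (ev (EE A B D i) - ev (EE A B D l)) f) ^ n := by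
  have h1 : aeval c (EE A B D i) = aeval c (EE A B D i') := by
    by_contra h
    exact hm.lt.ne (by simpa using over_ev hm.ov (p := EE A B D i - EE A B D i') (by
      rwa [map_sub, sub_ne_zero]))
  have h2 : aeval c (EE A B D i - EE A B D l) ≠ 0 := fun h => by
    have := poly_sub O hm.ov ((EE A B D i - EE A B D l).map (algebraMap F (kk F)))
    rw [eval_map_algebraMap, h, aeval_map_algebraMap] at this
    exact this.ne (by simpa using hm.vik)
  have h3 := lp_node ι (fun e => two_ne (F := F) (congrArg Subtype.val e))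
    (by rwa [map_sub, sub_ne_zero] at h2)
    (hW.trans (mloc_fib (fun n => aeval c (EE A B D n)) (map_zero (aeval c : F[X] →ₐ[F] _))
      hm.ij hm.ik hm.jk h1))
  have h4 := sg_sq hm.ov hf hQ hq.out.pow h2
  rw [ev, map_sub, map_sub] at h4
  rw [hk, ← h4] at h3
  rcases z2_cases (sg (ev (EE A B D i) - ev (EE A B D l)) f) with h | h
  · rw [if_pos h] at h3
    simpa [lps, h3, h, sgz_zero] using ld_lin (1 : ℤ_[2])
  · rw [if_neg (by rw [h]; decide)] at h3
    simpa [lps, h3, h, sgz_one] using ld_lin (-1 : ℤ_[2])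

/-- The local data. -/
theorem exists_loc (h : Fam0 A B D) (hs : Fr s (Fintype.card F))
    (hd : dt (T.ro s) = Fintype.card F) {T₂ : TM 2 (curve A B D)}
    {ε : V ≃ₗ[ℤ_[2]] Fin 2 → ℤ_[2]} (hε : ∀ g x, T₂.ro g (ε x) = ε (T.ro g x)) (hO : Over O x)
    {γ : Gam F} (hγ : γ ∈ Ine O) (h1 : sg (pl x) γ = 1) :
    ∃ (n : ℕ) (π : V →ₗ[ℤ_[2]] Fin n → ℤ_[2]), Co T O γ π ∧
      ∀ f ∈ St O, ∀ j, 0 < j → Fr f (Fintype.card F ^ j) → ∀ φ : End ℤ_[2] (Fin n → ℤ_[2]),
        (∀ v, φ (π v) = π (T.ro f v)) → ∀ (k : Type) [Field k] [Fintype k] (ι : k →+* kk F)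
          (W : WeierstrassCurve k), Fintype.card k = Fintype.card F ^ j →
          W.map ι = fibx A B D x → LD (lps W) fun i => trace _ _ (φ ^ i) := by
  by_cases h2 : (∃ c, x = some c ∧ aeval c (A * B * (A - B) * D) ≠ 0) ∨
      (x = none ∧ Even (A.natDegree + D.natDegree))
  · have hg : GoodAt T O := by
      rcases h2 with ⟨c, rfl, hc⟩ | ⟨rfl, hc⟩
      exacts [good_fin T hO hc, h.good_inf T hc hO]
    refine ⟨2, ε.toLinearMap, co_good hg hγ ε, fun f hf j hj hQ φ hφ k _ _ ι W hk hW => ?_⟩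
    obtain rfl : φ = T₂.ro f := LinearMap.ext fun y => by
      obtain ⟨v, rfl⟩ := ε.surjective y
      exact (hφ v).trans (hε f v).symm
    exact ld_good h T₂ hO h2 hf hj hQ ((eps_det ε (hε f)).1.trans (dt_fr hs hd hQ)) hk hW
  by_cases h3 : TwistAt T O x ∧ fibx A B D x = ⟨0, 0, 0, 0, 0⟩
  · refine ⟨0, 0, co_twist h3.1 hγ h1, fun f hf j hj hQ φ hφ k _ _ ι W hk hW => ?_⟩
    rw [lps, lp_cusp ι (hW.trans h3.2), Polynomial.map_one, Polynomial.coe_one]
    exact ld_one.congr fun i _ => by rw [Subsingleton.elim (φ ^ i) 0, map_zero]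
  rcases x with _ | c
  · have hc : ¬ Even (A.natDegree + D.natDegree) := fun e => h2 (Or.inr ⟨rfl, e⟩)
    exact absurd ⟨h.twist_inf T hc hO, if_neg hc⟩ h3
  have hc : aeval c (A * B * (A - B) * D) = 0 := not_not.1 fun e => h2 (Or.inl ⟨c, rfl, e⟩)
  have hD : aeval c D ≠ 0 := fun e => h3 ⟨h.twist_fin T e hO, by simp [fibx, fib, e]⟩
  rw [map_mul, mul_eq_zero, or_iff_left hD] at hc
  have hi : IsIntegral F c := Algebra.IsIntegral.isIntegral c
  obtain ⟨i, i', hm⟩ := h.mult ⟨minpoly.monic hi, minpoly.irreducible hi⟩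
    (minpoly.dvd F c hc) (minpoly.aeval F c)
  obtain ⟨π, hπ, hr⟩ := co_mult (fun g hg => T.dt_geo hs hg) (hm O hO) hγ h1
  refine ⟨1, π, hπ, fun f hf j hj hQ φ hφ k _ _ ι W hk hW =>
    (ld_mult (hm O hO) hf hQ hk hW).congr fun n _ => ?_⟩
  have h4 := hr f hf _ hQ (pow_ne_zero _ Fintype.card_ne_zero) (dt_fr hs hd hQ) (st_pl hO hf hQ)
  generalize sgz _ = z at h4 ⊢
  obtain rfl : φ = z • 1 := LinearMap.ext fun y => by
    obtain ⟨v, rfl⟩ := hπ.surj y
    exact (hφ v).trans (h4 v)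
  rw [_root_.smul_pow, one_pow, map_smul, trace_one]
  simp

end

end Pool.Agent.Lib.MP_16ef92_ag.FF
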