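import Mathlib
import Pool.Agent.Lib.MP_16ef92_ag.AL.NA2b
import Pool.Agent.Lib.MP_16ef92_ag.AL.PT

set_option autoImplicit false
set_option linter.unusedSectionVars false
set_option linter.unusedVariables false

namespace Pool.Agent.Lib.MP_16ef92_ag.FF

open Module LinearMap AL
open scoped Classical

noncomputable section

variable {R : Type} [CommRing R]

theorem mseq_desc {Z Q N : Type} [AddCommGroup Z] [Module R Z] [AddCommGroup Q] [Module R Q]
    [AddCommGroup N] [Module R N] {p : Z →ₗ[R] Q} (hp : Function.Surjective p) (f : Z →ₗ[R] N)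
    (h : ∀ z, p z = 0 → f z = 0) : ∃ f' : Q →ₗ[R] N, ∀ z, f' (p z) = f z :=
  ⟨(ker p).liftQ f h ∘ₗ (p.quotKerEquivOfSurjective hp).symm, fun z => by
    rw [comp_apply, LinearEquiv.coe_coe, quotKerEquivOfSurjective_symm_apply]; rfl⟩

theorem exists_desc {Z Q : Type} [AddCommGroup Z] [Module R Z] [AddCommGroup Q] [Module R Q]
    {p : Z →ₗ[R] Q} (hp : Function.Surjective p) (g : End R Z) (h : ∀ z, p z = 0 → p (g z) = 0) :
    ∃ g' : End R Q, ∀ z, g' (p z) = p (g z) :=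
  mseq_desc hp (p ∘ₗ g) h

theorem trace_dpi {J : Type} [Fintype J] {n : J → ℕ} (f : End R (∀ j, Fin (n j) → R)) :
    trace R _ f = ∑ j, trace R (Fin (n j) → R)
      (LinearMap.proj j ∘ₗ f ∘ₗ LinearMap.single R (fun j => Fin (n j) → R) j) := by
  have k : f = ∑ j, LinearMap.single R (fun j => Fin (n j) → R) j ∘ₗ LinearMap.proj j ∘ₗ f := by
    refine LinearMap.ext fun x => ?_
    simp [Finset.univ_sum_single]
  rw [congrArg (trace R _) k, map_sum]
  exact Finset.sum_congr rfl fun j _ => trace_comp_comm' _ _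

variable [IsDomain R] [IsPrincipalIdealRing R] {Z T Q A M : Type} [AddCommGroup Z] [Module R Z]
  [Module.Free R Z] [Module.Finite R Z] [AddCommGroup T] [Module R T] [Module.Free R T]
  [Module.Finite R T] [AddCommGroup Q] [Module R Q] [Module.Free R Q] [Module.Finite R Q]
  [AddCommGroup A] [Module R A] [AddCommGroup M] [Module R M]

/-- The exact sequences `0 → T → K → M → 0` and `0 → K → Z → Q → 0`, where `K` is the image of
`A` in `Z`. -/
structure Sq (b : T →ₗ[R] A) (res : A →ₗ[R] Z) (π : A →ₗ[R] M) (p : Z →ₗ[R] Q) : Prop where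
  inj : ∀ t, res (b t) = 0 → t = 0
  sπ : Function.Surjective π
  sp : Function.Surjective p
  kπ : ∀ a, π a = 0 ↔ ∃ t, res a = res (b t)
  kp : ∀ z, p z = 0 ↔ ∃ a, res a = z
  tf : ∀ (c : R) (x : M), c • x = 0 → c = 0 ∨ x = 0

variable {b : T →ₗ[R] A} {res : A →ₗ[R] Z} {π : A →ₗ[R] M} {p : Z →ₗ[R] Q}

theorem mseq_fac (h : Sq b res π p) :
    ∃ π' : range res →ₗ[R] M, ∀ a, π' (res.rangeRestrict a) = π a :=
  mseq_desc res.surjective_rangeRestrict π fun a ha =>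
    (h.kπ a).2 ⟨0, by simpa using congrArg Subtype.val ha⟩

theorem Sq.free (h : Sq b res π p) : Module.Free R M ∧ Module.Finite R M := by
  obtain ⟨π', e⟩ := mseq_fac h
  have : Module.Finite R M := .of_surjective π' fun x => (h.sπ x).elim fun a ha => ⟨_, ha ▸ e a⟩
  have : Module.IsTorsionFree R M := .of_smul_eq_zero h.tf
  exact ⟨inferInstance, inferInstance⟩

theorem Sq.trace (h : Sq b res π p) {gT : End R T} {gA : End R A} {gZ : End R Z} {gM : End R M}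
    {gQ : End R Q} (h1 : ∀ t, res (gA (b t)) = res (b (gT t))) (h2 : ∀ a, gZ (res a) = res (gA a))
    (h3 : ∀ a, gM (π a) = π (gA a)) (h4 : ∀ z, gQ (p z) = p (gZ z)) :
    trace R Z gZ = trace R T gT + trace R M gM + trace R Q gQ := by
  obtain ⟨π', e⟩ := mseq_fac h
  obtain ⟨_, _⟩ := h.free
  have hs := res.surjective_rangeRestrict
  let gK : End R (range res) := gZ.restrict (by rintro _ ⟨a, rfl⟩; exact ⟨_, (h2 a).symm⟩)
  have k : ∀ a, gK (res.rangeRestrict a) = res.rangeRestrict (gA a) := fun a => Subtype.ext (h2 a)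
  rw [tr3 (i := (range res).subtype) (fA := gK) (fC := gQ) Subtype.val_injective h.sp
    (fun z => (h.kp z).trans ⟨fun hz => ⟨⟨z, hz⟩, rfl⟩, fun ⟨x, hx⟩ => hx ▸ x.2⟩) (fun _ => rfl)
    (fun z => (h4 z).symm), tr3 (i := res.rangeRestrict ∘ₗ b) (p := π') (fA := gT) (fC := gM)
    ((injective_iff_map_eq_zero _).2 fun t ht => h.inj t (congrArg Subtype.val ht))
    (fun x => (h.sπ x).elim fun a ha => ⟨_, ha ▸ e a⟩)
    (hs.forall.2 fun a => by
      rw [e, h.kπ]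
      exact exists_congr fun t => ⟨fun ht => Subtype.ext ht.symm, fun ht =>
        (congrArg Subtype.val ht).symm⟩)
    (fun t => (k _).trans (Subtype.ext (h1 t))) (hs.forall.2 fun a => by rw [k, e, e, h3])]

theorem Sq.sim (h : Sq b res π p) {T' : Type} [AddCommGroup T'] [Module R T'] [Module.Free R T']
    [Module.Finite R T'] {ι : T' →ₗ[R] Z} {c : R} (hc : c ≠ 0) (h0 : ∀ t, ∃ x, c • res (b t) = ι x)
    (h1 : ∀ x, ∃ t, ι x = res (b t)) {gA : End R A} {gZ : End R Z} {gM : End R M}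
    (h2 : ∀ a, gZ (res a) = res (gA a)) (h3 : ∀ a, gM (π a) = π (gA a))
    (h4 : ∀ x, ∃ y, gZ (ι x) = ι y) (hS : Sim ι gZ) :
    ∃ w₀, gM w₀ = w₀ ∧ ∀ w, (gM - 1) ((gM - 1) w) = 0 →
      ∃ a a' : R, a ≠ 0 ∧ a • w + a' • w₀ = 0 := by
  obtain ⟨z₀, hz, hS⟩ := hS
  have n1 : ∀ a, res a ∈ na2b_U ι ↔ π a = 0 := fun a =>
    ⟨fun ⟨d, hd, x, hx⟩ => (h.tf d _ (by
      obtain ⟨t, ht⟩ := h1 x
      rw [← map_smul, h.kπ]
      exact ⟨t, by rw [map_smul, hx, ht]⟩)).resolve_left hd, fun ha => by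
      obtain ⟨t, ht⟩ := (h.kπ a).1 ha
      exact ⟨c, hc, ht ▸ h0 t⟩⟩
  have n2 : ∀ z ∈ na2b_U ι, (gZ - 1) z ∈ na2b_U ι := fun z ⟨d, hd, x, hx⟩ => by
    obtain ⟨y, hy⟩ := h4 x
    exact ⟨d, hd, y - x, by rw [← map_smul, hx, map_sub, ← hy]; rfl⟩
  have e2 : ∀ a, (gZ - 1) (res a) = res ((gA - 1) a) := fun a => by simp [h2]
  have e3 : ∀ a, (gM - 1) (π a) = π ((gA - 1) a) := fun a => by simp [h3]
  have n3 : ∀ a, (gM - 1) ((gM - 1) (π a)) = 0 →
      ∃ u v : R, u ≠ 0 ∧ u • res a + v • z₀ ∈ na2b_U ι := fun a ha =>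
    hS _ (by rw [e2, e2]; exact (n1 _).2 (by rwa [e3, e3] at ha))
  by_cases hw : ∀ w, (gM - 1) ((gM - 1) w) = 0 → w = 0
  · exact ⟨0, map_zero _, fun w h => ⟨1, 0, one_ne_zero, by simp [hw w h]⟩⟩
  obtain ⟨w, hw⟩ := not_forall.1 hw
  obtain ⟨a₁, rfl⟩ := h.sπ w
  obtain ⟨u₁, v₁, hu, m1⟩ := n3 a₁ (of_not_imp hw)
  have hv : v₁ ≠ 0 := by
    rintro rfl
    rw [zero_smul, add_zero, ← map_smul, n1, map_smul] at m1
    exact (h.tf _ _ m1).elim hu (not_of_not_imp hw)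
  refine ⟨π a₁, ?_, h.sπ.forall.2 fun a ha => ?_⟩
  · have m2 := sub_mem (n2 _ m1) ((na2b_U ι).smul_mem v₁ hz)
    rw [map_add, map_smul, map_smul, add_sub_cancel_right, e2, ← map_smul, n1, map_smul,
      ← e3] at m2
    exact sub_eq_zero.1 ((h.tf _ _ m2).resolve_left hu)
  · obtain ⟨u, v, hu', m2⟩ := n3 a ha
    refine ⟨v₁ * u, -(v * u₁), mul_ne_zero hv hu', ?_⟩
    rw [← map_smul, ← map_smul, ← map_add, ← n1, map_add, map_smul, map_smul]
    rw [show (v₁ * u) • res a + -(v * u₁) • res a₁ =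
      v₁ • (u • res a + v • z₀) - v • (u₁ • res a₁ + v₁ • z₀) by module]
    exact sub_mem ((na2b_U ι).smul_mem v₁ m2) ((na2b_U ι).smul_mem v m1)

end

end Pool.Agent.Lib.MP_16ef92_ag.FF
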