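import Mathlib
import Pool.Agent.Lib.MP_03e5d0_nt.FF.MZ
import Pool.Agent.Lib.MP_03e5d0_nt.FF.MCo
import Pool.Agent.Lib.MP_03e5d0_nt.FF.MSeq
import Pool.Agent.Lib.MP_03e5d0_nt.FF.MDef
import Pool.Agent.Lib.MP_16ef92_ag.GF.Red

set_option autoImplicit false
set_option linter.unusedSectionVars false
set_option linter.unusedVariables false

namespace Pool.Agent.Lib.MP_16ef92_ag.FF

open Polynomial GF AL Module LinearMap
open scoped Classical

noncomputable section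

variable {F : Type} [Field F] [Clos F] [Fintype F] [hq : Fact (Odd (Fintype.card F))]
variable {e : Fin 3 → Om F} {T : TD e} {W : WeierstrassCurve (RatFunc F)} {N : F[X]}
  {T₂ : TM 2 W} {ε : V ≃ₗ[ℤ_[2]] Fin 2 → ℤ_[2]}

/-- Local data at all points. -/
structure Ld (T : TD e) where
  O : Option (kk F) → ValuationSubring (Om F)
  γ : Option (kk F) → Gam F
  n : Option (kk F) → ℕ
  π : ∀ x, V →ₗ[ℤ_[2]] Fin (n x) → ℤ_[2]
  ov : ∀ x, Over (O x) x
  ine : ∀ x, γ x ∈ Ine (O x)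
  sg1 : ∀ x, sg (pl x) (γ x) = 1
  co : ∀ x, Co T (O x) (γ x) (π x)

theorem Ld.gen (L : Ld T) (x : Option (kk F)) : Gen x (L.γ x) := ⟨_, L.ov x, L.ine x, L.sg1 x⟩

/-- The class map as a linear map. -/
def hbL (T : TD e) : V →ₗ[ℤ_[2]] Ad T where
  toFun := hb T
  map_add' a b := Subtype.ext (funext fun g => map_add (hL T g) a b)
  map_smul' a b := Subtype.ext (funext fun g => map_smul (hL T g) a b)

/-- The localisation map. -/
def Ld.loc (L : Ld T) (ε : V ≃ₗ[ℤ_[2]] Fin 2 → ℤ_[2]) (S : Finset (Option (kk F))) :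
    Zi (fam N) T₂.rg →ₗ[ℤ_[2]] ∀ x : S, Fin (L.n x) → ℤ_[2] where
  toFun z x := L.π x (ε.symm (z.1 ⟨L.γ x, (L.gen x).geo⟩))
  map_add' a b := funext fun x => by simp
  map_smul' a b := funext fun x => by simp

variable (L : Ld T) {S : Finset (Option (kk F))} {res : Ad T →ₗ[ℤ_[2]] Zi (fam N) T₂.rg}

theorem Ld.sq (h : Rp T) (hε : ∀ g x, T₂.ro g (ε x) = ε (T.ro g x))
    (hg : ∀ c : kk F, aeval c N ≠ 0 → ∀ O, Over O (some c) → GoodAt T O)
    (hS : ∀ x, x ∈ S ↔ ∀ c, x = some c → aeval c N = 0)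
    (hr : ∀ a (g : Geo F), (res a).1 g = ε (a.1 g)) :
    Sq (hbL T) res (Nu T).mkQ (L.loc ε S) := by
  obtain ⟨c, γ, hγ, hc⟩ := h.exists_neg
  have hl : ∀ (z : Zi (fam N) T₂.rg) (a : Gam F → V), (∀ g : Geo F, z.1 g = ε (a g)) →
      ∀ x : S, L.loc ε S z x = L.π x (a (L.γ x)) := fun z a hz x => by
    change L.π x (ε.symm (z.1 _)) = _
    rw [hz, ε.symm_apply_apply]
  refine ⟨fun t ht => ?_, (Nu T).mkQ_surjective, fun q => ?_, fun a => ?_, fun z => ⟨fun hz => ?_,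
    fun ⟨a, ha⟩ => funext fun x => ?_⟩, fun r x hx => ?_⟩
  · have h1 := hr (hbL T t) ⟨γ, hγ.geo⟩
    rw [ht] at h1
    exact (hc γ hγ t).symm.trans (ε.map_eq_zero_iff.1 h1.symm)
  · choose u hu using fun x : S => (L.co x).surj (q x)
    obtain ⟨a, ha, h1⟩ := exists_cy h L.gen (fun x => if hx : x ∈ S then u ⟨x, hx⟩ else 0)
      (S.finite_toSet.subset fun x hx => by_contra fun h2 => hx (dif_neg h2)) (some c)
    obtain ⟨z, hz⟩ := exists_z (N := N) hε ha fun d hd O hO g h2 => by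
      have h3 : some d ≠ some c := fun h3 => by
        have h4 := hc (L.γ (some d)) (by rw [← h3]; exact L.gen _) (1, 0)
        rw [hL_good (hg d hd _ (L.ov _)) (L.ine _)] at h4
        exact zero_ne_one (congrArg Prod.fst h4)
      obtain ⟨ν, hν⟩ := loc_of (μ := 0) ha (L.gen (some d))
        (by rw [h1 _ h3, dif_neg fun h4 => hd ((hS _).1 h4 d rfl), map_zero]) hO
      exact (hν g h2).trans (hL_good (hg d hd O hO) h2 ν)
    refine ⟨z, funext fun x => ?_⟩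
    rw [hl z a hz, ← hu x]
    by_cases hx : x.1 = some c
    · have h2 : ∀ v, L.π x v = 0 := fun v =>
        ((L.co x).ker v).2 ⟨v, (hc (L.γ x) (by rw [← hx]; exact L.gen _) v).symm⟩
      rw [h2, h2]
    · rw [h1 _ hx, dif_pos x.2]
  · rw [Submodule.mkQ_apply, Submodule.Quotient.mk_eq_zero, mem_Nu]
    refine exists_congr fun t => ⟨fun ht => Subtype.ext (funext fun g => ?_), fun ht g h1 => ?_⟩
    · rw [hr, hr, ht g g.2]
      rfl
    · have h2 := hr a ⟨g, h1⟩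
      rw [ht, hr] at h2
      exact (ε.injective h2).symm
  · obtain ⟨a, ha, h1, h2⟩ := exists_cz hε z
    refine ⟨⟨a, ha, lt_of_gen ha fun x => ?_⟩, Subtype.ext (funext fun g => ?_)⟩
    · by_cases hx : x ∈ S
      · obtain ⟨μ, hμ⟩ := ((L.co x).ker (a (L.γ x))).1
          ((hl z a h2 ⟨x, hx⟩).symm.trans (congrFun hz _))
        exact ⟨_, μ, L.gen x, hμ⟩
      · obtain ⟨d, rfl, hd⟩ : ∃ d, x = some d ∧ aeval d N ≠ 0 := by
          simpa [hS] using hx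
        exact ⟨_, 0, L.gen _, by rw [h1 d hd _ (L.ov _) _ (L.ine _), map_zero]⟩
    · rw [hr, h2]
  · obtain ⟨μ, hμ⟩ := h.adm a (L.ov x)
    rw [hl z a.1 (fun g => by rw [← ha, hr]) x]
    exact ((L.co x).ker _).2 ⟨μ, hμ _ (L.ine x)⟩
  · refine or_iff_not_imp_left.2 fun h0 => ?_
    rw [PadicInt.unitCoeff_spec h0, mul_smul, (Units.isUnit _).smul_eq_zero] at hx
    generalize r.valuation = j at hx
    induction j with
    | zero => simpa using hx
    | succ j ih => exact ih (h.lt.tf _ (by rw [← hx, pow_succ', mul_smul]; rfl))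

theorem Ld.loc_eq {z : Zi (fam N) T₂.rg} {a : Gam F → V} (h : ∀ g : Geo F, z.1 g = ε (a g))
    (x : S) : L.loc ε S z x = L.π x (a (L.γ x)) := by
  change L.π x (ε.symm (z.1 _)) = _
  rw [h, ε.symm_apply_apply]

theorem mtr_psi (hε : ∀ g x, T₂.ro g (ε x) = ε (T.ro g x)) (s : Gam F) {z : Zi (fam N) T₂.rg}
    {a : Gam F → V} (h : ∀ g : Geo F, z.1 g = ε (a g)) (g : Geo F) :
    (PsiI (fam_inv s) (T₂.psi s) z).1 g = ε (tw T s a g) := by
  rw [PsiI_apply, h, hε, tw]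
  simp [sgm]

theorem Ld.off (hε : ∀ g x, T₂.ro g (ε x) = ε (T.ro g x)) (s : Gam F) (z : Zi (fam N) T₂.rg)
    {x y : S} (hxy : (y : Option (kk F)).map (ck s) = x) (hz : L.loc ε S z y = 0) :
    L.loc ε S (PsiI (fam_inv s) (T₂.psi s) z) x = 0 := by
  obtain ⟨a, ha, -, h⟩ := exists_cz hε z
  rw [L.loc_eq h, (L.co y).ker] at hz
  obtain ⟨μ, hμ⟩ := hz
  obtain ⟨ν, hν⟩ := loc_of ha (L.gen y) hμ 
    (over_cm (g := s) (O := L.O x) (by rw [hxy]; exact L.ov x))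
  rw [L.loc_eq (mtr_psi hε s h), tw, hν _ (conj_ine (fun z => mem_cm) (L.ine x)), ← hL_conj,
    show s * (s⁻¹ * L.γ x * s) * s⁻¹ = L.γ x by group]
  exact (L.co x).hl (L.ine x) _

theorem Ld.diag (hε : ∀ g x, T₂.ro g (ε x) = ε (T.ro g x)) {s f : Gam F} {Q : ℕ} (hs : Fr s Q)
    (z : Zi (fam N) T₂.rg) {x : S} (hf : f ∈ St (L.O x)) (hQ : Fr f Q)
    (hp : f (pl (x : Option (kk F))) = pl (x : Option (kk F)))
    {φ : End ℤ_[2] (Fin (L.n x) → ℤ_[2])} (hφ : ∀ v, φ (L.π x v) = L.π x (T.ro f v)) :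
    (Q : ℤ_[2]) • L.loc ε S (PsiI (fam_inv s) (T₂.psi s) z) x = φ (L.loc ε S z x) := by
  obtain ⟨a, ha, -, h⟩ := exists_cz hε z
  rw [L.loc_eq h, L.loc_eq (mtr_psi hε s h), hφ,
    ← (L.co x).tame (L.ov x) (L.ine x) hf hQ hp ha]
  have h0 := red_geo hs hQ
  have hb := ha.tw s
  have h1 := hb.mul _ (L.gen x).geo _ h0
  rw [show L.γ x * (f * s⁻¹) = f * s⁻¹ * ((f * s⁻¹)⁻¹ * L.γ x * (f * s⁻¹)) by group,
    hb.mul _ h0 _ (geo_conj (L.gen x).geo _)] at h1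
  have h2 := congrArg (L.π x) h1
  rw [map_add, map_add, (L.co x).ine _ (L.ine x), add_comm, add_left_inj] at h2
  rw [← h2, show f = f * s⁻¹ * s by group, ET.tw_mul]
  simp only [inv_mul_cancel_right]
  rfl

end

end Pool.Agent.Lib.MP_16ef92_ag.FF
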