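import Mathlib
import Pool.Agent.Lib.MP_03e5d0_nt.FF.MTr
import Pool.Agent.Lib.MP_03e5d0_nt.FF.MLoc

set_option autoImplicit false
set_option linter.unusedSectionVars false
set_option linter.unusedVariables false

namespace Pool.Agent.Lib.MP_16ef92_ag.FF

open Polynomial GF AL Module LinearMap
open scoped Classical

noncomputable section

variable {F : Type} [Field F] [Clos F] [Fintype F] [hq : Fact (Odd (Fintype.card F))]
variable {e : Fin 3 → Om F} {T : TD e} {W : WeierstrassCurve (RatFunc F)} {N : F[X]}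
  {T₂ : TM 2 W} {ε : V ≃ₗ[ℤ_[2]] Fin 2 → ℤ_[2]} (L : Ld T) {S : Finset (Option (kk F))}
  {res : Ad T →ₗ[ℤ_[2]] Zi (fam N) T₂.rg}

theorem fx_iff {s : Gam F} {Q : ℕ} (hs : Fr s Q) (x : Option (kk F)) :
    Fx Q x ↔ x.map (ck s) = x := by
  cases x with
  | none => exact iff_of_true trivial rfl
  | some c =>
    rw [Option.map_some, Option.some_inj, Subtype.ext_iff, ck_val, hs]
    exact Subtype.ext_iff

theorem res_tw (hε : ∀ g x, T₂.ro g (ε x) = ε (T.ro g x))
    (hr : ∀ a (g : Geo F), (res a).1 g = ε (a.1 g)) (s : Gam F) (a : Ad T) :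
    PsiI (fam_inv s) (T₂.psi s) (res a) = res (twL T s a) :=
  Subtype.ext (funext fun g => (mtr_psi hε s (hr a) g).trans (hr (twL T s a) g).symm)

/-- The trace on cocycles is the sum of the traces on the three pieces. -/
theorem Ld.tr [Module.Free ℤ_[2] (Zi (fam N) T₂.rg)] [Module.Finite ℤ_[2] (Zi (fam N) T₂.rg)]
    (hε : ∀ g x, T₂.ro g (ε x) = ε (T.ro g x)) (hS : ∀ x, x ∈ S ↔ ∀ c, x = some c → aeval c N = 0)
    (hr : ∀ a (g : Geo F), (res a).1 g = ε (a.1 g)) (h : Sq (hbL T) res (Nu T).mkQ (L.loc ε S))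
    {s : Gam F} {Q : ℕ} (hs : Fr s Q) (f : Option (kk F) → Gam F)
    (φ : ∀ x, End ℤ_[2] (Fin (L.n x) → ℤ_[2])) (hf : ∀ x, Fx Q x → f x ∈ St (L.O x) ∧ Fr (f x) Q ∧
      ∀ v, φ x (L.π x v) = L.π x (T.ro (f x) v)) :
    (Q : ℤ_[2]) * trace _ _ (PsiI (fam_inv (N := N) s) (T₂.psi s)) = Q * trace _ _ (T.ro s) +
      Q * trace _ _ (FM T s) + ∑ x ∈ S.filter (Fx Q), trace _ _ (φ x) := by
  letI : DecidableEq S := fun a b => Classical.propDecidable _
  have hm : ∀ x : S, (x : Option (kk F)).map (ck s⁻¹) ∈ S := fun x => (hS _).2 fun c hc => by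
    obtain ⟨d, h1, rfl⟩ := Option.map_eq_some_iff.1 hc
    exact root_ck.2 ((hS _).1 x.2 d h1)
  obtain ⟨gQ, hQ⟩ := exists_desc h.sp (PsiI (fam_inv (N := N) s) (T₂.psi s)) fun z hz =>
    funext fun x => L.off hε s z (y := ⟨_, hm x⟩) (ck_inv s _) (congrFun hz _)
  rw [h.trace (gT := T.ro s) (gA := twL T s) (fun t => Subtype.ext (funext fun g => ?_))
    (res_tw hε hr s) (FF_mk s) hQ, mul_add, mul_add, trace_dpi, Finset.mul_sum, Finset.sum_filter,
    ← Finset.sum_coe_sort S]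
  · refine congrArg _ (Finset.sum_congr rfl fun x _ => ?_)
    rw [← smul_eq_mul, ← map_smul]
    split_ifs with hx
    · obtain ⟨h1, h2, h3⟩ := hf x hx
      refine congrArg _ (LinearMap.ext fun w => ?_)
      obtain ⟨z, hz⟩ := h.sp (Pi.single x w)
      have := L.diag hε hs z h1 h2 (st_pl (L.ov x) h1 h2) h3
      rw [← hQ, hz, Pi.single_eq_same] at this
      exact this
    · rw [← map_zero (trace ℤ_[2] (Fin (L.n x) → ℤ_[2]))]
      refine congrArg _ (LinearMap.ext fun w => ?_)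
      obtain ⟨z, hz⟩ := h.sp (Pi.single x w)
      have := L.off hε s z (x := x) (y := ⟨_, hm x⟩) (ck_inv s _) (by
        rw [hz]
        refine Pi.single_eq_of_ne (fun e => hx ((fx_iff hs _).2 ?_)) _
        conv_lhs => rw [← congrArg Subtype.val e]
        exact ck_inv s _)
      rw [← hQ, hz] at this
      exact (congrArg ((Q : ℤ_[2]) • ·) this).trans (smul_zero _)
  · rw [hr, hr, twL_apply]
    change ε (T.ro s (hL T _ t)) = ε (hL T _ _)
    rw [← hL_conj, show s * (s⁻¹ * g * s) * s⁻¹ = g by group]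

theorem fm_pow (T : TD e) (s : Gam F) (j : ℕ) : FM T s ^ j = FM T (s ^ j) := by
  induction j with
  | zero =>
    refine LinearMap.ext fun x => ?_
    obtain ⟨a, rfl⟩ := (Nu T).mkQ_surjective x
    rw [FF_mk, pow_zero, pow_zero]
    exact congrArg (Nu T).mkQ (Subtype.ext (_root_.funext fun g => by simp [twL_apply]))
  | succ j ih =>
    refine LinearMap.ext fun x => ?_
    obtain ⟨a, rfl⟩ := (Nu T).mkQ_surjective x
    rw [pow_succ, ih, End.mul_apply, FF_mk, FF_mk, FF_mk, pow_succ]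
    exact congrArg _ (Subtype.ext (ET.tw_mul _ _ _).symm)

end

end Pool.Agent.Lib.MP_16ef92_ag.FF
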