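import Mathlib
import Pool.Agent.Lib.MP_03e5d0_nt.FF.MTr2
import Pool.Agent.Lib.MP_03e5d0_nt.FF.MNd
import Pool.Agent.Lib.MP_03e5d0_nt.FF.MOrt
import Pool.Agent.Lib.MP_03e5d0_nt.FF.MFr
import Pool.Agent.Lib.MP_16ef92_ag.GF.Simple

set_option autoImplicit false
set_option linter.unusedSectionVars false
set_option linter.unusedVariables false

namespace Pool.Agent.Lib.MP_16ef92_ag.FF

open Polynomial GF AL Module LinearMap
open scoped Classical

noncomputable section

variable {F : Type} [Field F] [Clos F] [Fintype F] [hq : Fact (Odd (Fintype.card F))]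
variable {A B D : F[X]}

theorem exists_bad {N : F[X]} (hN : N ≠ 0) :
    ∃ S : Finset (Option (kk F)), ∀ x, x ∈ S ↔ ∀ c, x = some c → aeval c N = 0 :=
  ⟨Finset.insertNone (N.aroots (kk F)).toFinset, fun x => by
    simp only [Finset.mem_insertNone, Multiset.mem_toFinset, mem_aroots, Option.mem_def]
    exact forall₂_congr fun c _ => and_iff_right hN⟩

theorem Co.pow {e : Fin 3 → Om F} {T : TD e} {O : ValuationSubring (Om F)} {γ f f' : Gam F}
    {n Q i : ℕ} {π : V →ₗ[ℤ_[2]] Fin n → ℤ_[2]} (h : Co T O γ π) (hf : f ∈ St O) (hQ : Fr f Q)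
    (hf' : f' ∈ St O) (hQ' : Fr f' (Q ^ i)) {φ φ' : End ℤ_[2] (Fin n → ℤ_[2])}
    (h1 : ∀ v, φ (π v) = π (T.ro f v)) (h2 : ∀ v, φ' (π v) = π (T.ro f' v)) : φ ^ i = φ' := by
  have h3 : ∀ j v, (φ ^ j) (π v) = π (T.ro (f ^ j) v) := fun j => by
    induction j with
    | zero => simp
    | succ j ih => intro v; rw [pow_succ, End.mul_apply, h1, ih, pow_succ, ro_mul]
  refine LinearMap.ext fun w => ?_
  obtain ⟨v, rfl⟩ := h.surj w
  rw [h3, h2, ← h.ine (f' * (f ^ i)⁻¹) ⟨red_geo (hQ.pow i) hQ',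
    (St O).mul_mem hf' ((St O).inv_mem ((St O).pow_mem hf i))⟩, ← ro_mul, inv_mul_cancel_right]

theorem Fx.pow {Q : ℕ} {x : Option (kk F)} (h : Fx Q x) (i : ℕ) : Fx (Q ^ i) x := by
  cases x with
  | none => trivial
  | some c =>
    change c ^ Q = c at h
    change c ^ Q ^ i = c
    induction i with
    | zero => simp
    | succ i ih => rw [pow_succ, pow_mul, ih, h]

/-- The polynomial comes from the action of a Frobenius element on classes. -/
def Src (A B D : F[X]) (P : ℤ_[2][X]) : Prop :=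
  ∃ (T : TD fun i => ev (EE A B D i)) (ev' : V →+ ℕ → Pt (curve A B D)) (s : Gam F)
    (_ : Module.Free ℤ_[2] (MM T)) (_ : Module.Finite ℤ_[2] (MM T)), (∀ x, InTate (ev' x)) ∧
    (∀ P, InTate P → ∃ x, ev' x = P) ∧ (∀ n x, ev' x n = 0 ↔ x ∈ Dv n) ∧
    (∀ g x, ev' (T.ro g x) = act g (ev' x)) ∧ Fr s (Fintype.card F) ∧
    P = (FM T s).charpoly.reverse

/-- The Galois side: the characteristic polynomial of Frobenius on parabolic cohomology. -/
theorem gal (h : Fam0 A B D) (hD : 0 < D.natDegree) :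
    ∃ (P : ℤ_[2][X]) (r : ℕ → ℤ_[2]) (a : Option (kk F) → ℕ → ℤ_[2]), Src A B D P ∧
      LD (P : PowerSeries ℤ_[2]) r ∧ P.leadingCoeff = (-1) ^ P.rootMultiplicity 1 ∧
      (Simple (Om F) (curve A B D) → P.rootMultiplicity 1 ≤ 1) ∧
      (∀ j, 0 < j → ∀ S : Finset (Option (kk F)), (∀ x, x ∈ S ↔ Fx (Fintype.card F ^ j) x) →
        (Fintype.card F : ℤ_[2]) ^ j * r j = -∑ x ∈ S, a x j) ∧
      ∀ x e, 0 < e → Fx (Fintype.card F ^ e) x → ∀ (k : Type) [Field k] [Fintype k]
        (ι : k →+* kk F) (W : WeierstrassCurve k), Fintype.card k = Fintype.card F ^ e →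
        W.map ι = fibx A B D x → LD (lps W) fun i => a x (e * i) := by
  obtain ⟨s, hs⟩ := exists_fr (F := F)
  have hN := h.sq.ne_zero
  have h2 : ((2 : ℕ) : F) ≠ 0 := by exact_mod_cast two_neF
  obtain ⟨T, ev', hin, hsurj, hker, hro⟩ := exists_TD h.cub fun g i => gam_ev g _
  obtain ⟨a₀, ha⟩ := exists_TM hN
  obtain ⟨T₂, hT⟩ := ha 2 h2
  obtain ⟨ε, hε⟩ := exists_eps T hin hsurj hker hro T₂
  have hp := h.rp T hD hs
  have hd := h.det T hin hker hro hs
  have hg : ∀ c : kk F, aeval c (A * B * (A - B) * D) ≠ 0 → ∀ O, Over O (some c) → GoodAt T O :=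
    fun c hc O hO => good_fin T hO hc
  choose O hO using exists_over (F := F)
  choose γ hγ h1 using fun x => (hO x).exists_sg
  choose n π hc hl using fun x => exists_loc h hs hd hε (hO x) (hγ x) (h1 x)
  let L : Ld T := ⟨O, γ, n, π, hO, hγ, h1, hc⟩
  choose! f hf hf' using fun x j (hx : Fx (Fintype.card F ^ j) x) => exists_st (hs.pow j) hx (hO x)
  have hφ : ∀ x j, ∃ φ : End ℤ_[2] (Fin (n x) → ℤ_[2]), Fx (Fintype.card F ^ j) x →
      ∀ v, φ (π x v) = π x (T.ro (f x j) v) := fun x j => by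
    by_cases hx : Fx (Fintype.card F ^ j) x
    · exact ((hc x).desc (hγ x) (hf x j hx)).imp fun _ h _ => h
    · exact ⟨0, fun h => (hx h).elim⟩
  choose φ hφ using hφ
  obtain ⟨S₀, hS⟩ := exists_bad hN
  obtain ⟨res, hr⟩ := exists_res hε hg
  have hq' := L.sq hp hε hg hS hr
  have key := fun j hj => trace_lim hN h2 hT hj (hs.pow j) _
    ((exists_fixed (A * B * (A - B) * D) j).choose_spec hj)
  obtain ⟨i1, i2, -⟩ := key 1 one_pos
  obtain ⟨i3, i4⟩ := hq'.free
  obtain ⟨Bm, b1, b2⟩ := exists_bm hp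
  obtain ⟨o1, o2⟩ := ort_lead (FM T s) Bm b1 (b2 s _ hs hq.1 hd)
  refine ⟨_, _, fun x j => trace _ _ (φ x j), ⟨T, ev', s, i3, i4, hin, hsurj, hker, hro, hs, rfl⟩,
    ld_end (FM T s), o1 ▸ o2, fun hS' => ?_, fun j hj S hS' => ?_,
    fun x e he hx k _ _ ι W hk hW => ?_⟩
  · rw [o1]
    refine mult_le_one _ (hq'.sim (c := -2) (by simp) (fun t => ⟨ε t, ?_⟩)
      (fun x => ⟨-((2 : ℤ_[2]) • ε.symm x), ?_⟩) (res_tw hε hr s) (FF_mk s)
      (fun x => ⟨T₂.ro s x, ?_⟩) ((simpleL_iff h2 hT hs).1 (simpleL_two h hS' hs))) <;>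
      refine Subtype.ext (_root_.funext fun g => ?_)
    · change (-2 : ℤ_[2]) • (res _).1 g = T₂.ro g _ - _
      rw [hr, hε, ← map_smul, ← map_sub, neg_smul]
      exact congrArg ε (by rw [← neg_sub, ← two_hL]; rfl)
    · change T₂.ro g _ - _ = _
      rw [hr, ← ε.apply_symm_apply x, hε, ← map_sub, ε.symm_apply_apply, ← neg_sub, ← two_hL,
        ← map_smul, ← map_neg]
      rfl
    · rw [PsiI_apply, cob_apply, cob_apply, map_sub, ← End.mul_apply, ← End.mul_apply, T₂.psi]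
  · have h3 := (key j hj).2.2
    have hB := (exists_fixed (A * B * (A - B) * D) j).choose_spec hj
    generalize (exists_fixed (A * B * (A - B) * D) j).choose = B' at h3 hB
    rw [L.tr hε hS hr hq' (hs.pow j) (f · j) (φ · j) fun x hx => ⟨hf x j hx, hf' x j hx, hφ x j hx⟩,
      (eps_det ε (hε _)).2] at h3
    have h4 : S = S₀.filter (Fx (Fintype.card F ^ j)) ∪ B'.map .some := Finset.ext fun x => by
      rw [hS', Finset.mem_union, Finset.mem_filter, hS, Finset.mem_map]
      cases x with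
      | none => simp
      | some c =>
        have : Fx (Fintype.card F ^ j) (some c) ↔ (c : Om F) ^ Fintype.card F ^ j = c :=
          Subtype.ext_iff
        simp only [Option.some.injEq, forall_eq', Function.Embedding.some_apply, exists_eq_right,
          hB, this]
        tauto
    rw [h4, Finset.sum_union (Finset.disjoint_left.2 fun x a b => by
      obtain ⟨c, c1, rfl⟩ := Finset.mem_map.1 b
      exact ((hB c).1 c1).1 ((hS _).1 (Finset.mem_filter.1 a).1 c rfl)), Finset.sum_map, fm_pow,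
      Finset.sum_congr rfl (g := fun c => (a₀ c j : ℤ_[2])) fun c hc' => ?_]
    · push_cast at h3
      linear_combination h3
    · obtain ⟨c1, c2⟩ := (hB c).1 hc'
      have hx : Fx (Fintype.card F ^ j) (some c) := Subtype.ext c2
      rw [← hT.tr c c1 _ (hO _) _ (hf _ j hx) j hj (hf' _ j hx), (eps_det ε (hε _)).2]
      exact (hc _).trace_good (hγ _) (hg c c1 _ (hO _)) (hφ _ j hx)
  · refine (hl x _ (hf x e hx) e he (hf' x e hx) _ (hφ x e hx) k ι W hk hW).congr fun i hi => ?_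
    have hx' := hx.pow i
    rw [← pow_mul] at hx'
    rw [Co.pow (hc x) (hf x e hx) (hf' x e hx) (hf _ _ hx') (by rw [← pow_mul]; exact hf' _ _ hx')
      (hφ x e hx) (hφ _ _ hx')]

end

end Pool.Agent.Lib.MP_16ef92_ag.FF
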