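import Mathlib
import Pool.Agent.Lib.MP_03e5d0_nt.FF.MMain
import Pool.Agent.Lib.MP_03e5d0_nt.FF.ESgn
import Pool.Agent.Lib.MP_03e5d0_nt.FF.EOrb
import Pool.Agent.Lib.MP_03e5d0_nt.FF.EHalf
import Pool.Agent.Lib.MP_16ef92_ag.GF.Top

set_option autoImplicit false
set_option linter.unusedSectionVars false
set_option linter.unusedVariables false

namespace Pool.Agent.Lib.MP_16ef92_ag.FF

open Polynomial Filter AL GF Pool.Agent.Lib.MP_03e5d0_nt
open scoped Classical

noncomputable section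

section
variable {R : Type} [CommRing R] [IsDomain R] [CharZero R]

theorem LD.seq_eq {P : PowerSeries R} {r r' : ℕ → R} (h : LD P r) (h' : LD P r') {j : ℕ}
    (hj : 0 < j) : r j = r' j := by
  have h1 := neg_injective (mul_right_cancel₀ (fun e => by simpa [e] using h.1)
    (h.2.symm.trans h'.2))
  obtain ⟨i, rfl⟩ := Nat.exists_eq_add_of_le' hj
  simpa using congrArg (PowerSeries.coeff i) h1

theorem LD.dvd {p p' : R[X]} {r r' : ℕ → R} (h : LD (p : PowerSeries R) r)
    (h' : LD (p' : PowerSeries R) r') {n : ℕ} (e : ∀ j, 0 < j → j ≤ n → r j = r' j) :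
    X ^ (n + 1) ∣ p - p' := X_pow_dvd_iff.2 fun k hk => by
  rw [coeff_sub, ← coeff_coe, ← coeff_coe, h.coeff_eq h' e (Nat.le_of_lt_succ hk), sub_self]

theorem ld_places {F : Type} [Field F] [Fintype F] (n : ℕ) {f : Option F[X] → R[X]}
    {ρ : Option F[X] → ℕ → R} (h : ∀ v ∈ Pls F n, LD (f v : PowerSeries R) (ρ v)) :
    LD ((∏ v ∈ Pls F n, expand R (pdg v) (f v) : R[X]) : PowerSeries R) fun j =>
      ∑ v ∈ Pls F n, if pdg v ∣ j then pdg v • ρ v (j / pdg v) else 0 := by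
  have := LD.prod (Pls F n) fun v hv => (h v hv).expand (pdg_pos hv)
  simp only [nsmul_eq_mul]
  rwa [← coeToPowerSeries.ringHom_apply, map_prod]

end

variable {F : Type} [Field F] [Clos F] [Fintype F] [hq : Fact (Odd (Fintype.card F))]
  {A B D : F[X]}

/-- The zeta function of the projective line. -/
theorem zeta (n : ℕ) : (X : ℤ[X]) ^ (n + 1) ∣ ∏ v ∈ Pls F n, (1 - X ^ pdg v) -
    (1 - X) * (1 - (Fintype.card F : ℤ[X]) * X) := by
  have h1 := (ld_lin (1 : ℤ)).mul (ld_lin (Fintype.card F : ℤ))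
  rw [← coe_mul] at h1
  have h2 := (ld_places (F := F) n fun _ _ => ld_lin (1 : ℤ)).dvd h1 (n := n) fun j hj hn => by
    obtain ⟨S, a1, a2, a3⟩ := exists_fix (F := F) hj
    simp only [one_pow]
    rw [← sum_orb hj hn a1 a2 (f := fun _ => (1 : ℤ)) fun _ _ => rfl, Finset.sum_const, a3]
    simp [add_comm]
  simpa using h2

theorem euler (h : Fam0 A B D) (hD : 0 < D.natDegree) : ∃ P : ℤ_[2][X], Src A B D P ∧
    P.coeff 0 = 1 ∧ P.leadingCoeff = (-1) ^ P.rootMultiplicity 1 ∧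
    (Simple (Om F) (curve A B D) → P.rootMultiplicity 1 ≤ 1) ∧
    ∀ n, X ^ (n + 1) ∣ P.comp (C (Fintype.card F : ℤ_[2]) * X) *
      (GG A B D n).map (Int.castRingHom ℤ_[2]) - 1 := by
  obtain ⟨P, r, a, h0, h1, h2, h3, h4, h5⟩ := gal h hD
  refine ⟨P, h0, by simpa using h1.1, h2, h3, fun n => ?_⟩
  have key : ∀ x : Option (kk F), LD ((lpo A B D (x.map (minpoly F))).map (Int.castRingHom ℤ_[2]) :
      ℤ_[2][X]) fun i => a x (pdg (x.map (minpoly F)) * i) := by
    rintro (_ | c)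
    · by_cases he : Even (A.natDegree + D.natDegree)
      · simpa only [Option.map_none, lpo, if_pos he, lps, pdg] using h5 none 1 one_pos trivial F
          (algebraMap F _) (cv (D * A).leadingCoeff (D * B).leadingCoeff) (pow_one _).symm
          (by rw [cv_map, fibx, if_pos he, cv])
      · simpa only [Option.map_none, lpo, if_neg he, lps, pdg, cv_add two_neF] using h5 none 1
          one_pos trivial F (algebraMap F _) (cv 0 0) (pow_one _).symm
          (by rw [cv_map, fibx, if_neg he]; simp [cv])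
    · have := Fact.mk (eorb_prm c).2
      have := finite_adj (minpoly F c)
      have := Fintype.ofFinite (AdjoinRoot (minpoly F c))
      rw [Option.map_some, lpo_some]
      exact h5 (some c) _ (eorb_prm c).pos ((eorb_fix c _).2 dvd_rfl) _
        (AdjoinRoot.lift (algebraMap F _) c (minpoly.aeval F c)) _
        (Nat.card_eq_fintype_card.symm.trans (card_adj _))
        (by rw [cv_map, AdjoinRoot.lift_mk, AdjoinRoot.lift_mk]; rfl)
  have hρ : ∀ v : Option F[X], ∃ ρ : ℕ → ℤ_[2], (∃ x : Option (kk F), x.map (minpoly F) = v) →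
      LD ((lpo A B D v).map (Int.castRingHom ℤ_[2]) : ℤ_[2][X]) ρ := fun v => by
    by_cases e : ∃ x : Option (kk F), x.map (minpoly F) = v
    · obtain ⟨x, rfl⟩ := e
      exact ⟨_, fun _ => key x⟩
    · exact ⟨0, fun e' => (e e').elim⟩
  choose ρ hρ using hρ
  have h6 := ld_places (F := F) n (ρ := ρ) fun v hv => hρ v (by
    rcases v with _ | p
    · exact ⟨none, rfl⟩
    · have hp := (some_mem_Pls.1 hv).1
      obtain ⟨c, hc⟩ := IsAlgClosed.exists_aeval_eq_zero (kk F) p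
        (degree_pos_of_irreducible hp.2).ne'
      exact ⟨some c, congrArg some (minpoly.eq_of_irreducible_of_monic hp.2 hc hp.1).symm⟩)
  have h7 := (h1.rescale (Fintype.card F : ℤ_[2])).mul h6
  rw [show PowerSeries.rescale (Fintype.card F : ℤ_[2]) (P : PowerSeries ℤ_[2]) =
    (P.comp (C (Fintype.card F : ℤ_[2]) * X) : ℤ_[2][X]) from PowerSeries.ext fun i => by
      rw [PowerSeries.coeff_rescale, coeff_coe, coeff_coe, comp_C_mul_X_coeff, mul_comm],
    ← coe_mul] at h7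
  simp only [GG, Polynomial.map_prod, map_expand]
  refine h7.dvd (coe_one (R := ℤ_[2]) ▸ ld_one) fun j hj hn => ?_
  obtain ⟨S, a1, a2, -⟩ := exists_fix (F := F) hj
  rw [h4 j hj S fun x => by cases x; exacts [iff_of_true a1 trivial, a2 _],
    ← sum_orb hj hn a1 a2 (f := fun x => a x j) fun x hx => ?_, neg_add_cancel]
  have a3 : pdg (x.map (minpoly F)) ∣ j := by
    cases x
    exacts [one_dvd j, (eorb_fix _ j).1 ((a2 _).1 hx)]
  rw [(hρ _ ⟨x, rfl⟩).seq_eq (key x) (Nat.div_pos (Nat.le_of_dvd hj a3) (Nat.pos_of_dvd_of_pos a3 hj)),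
    Nat.mul_div_cancel' a3]

theorem core (h : Fam0 A B D) (hD : 0 < D.natDegree) : ∃ (L : ℤ[X]) (m : ℕ), L ≠ 0 ∧
    (∀ n, X ^ (n + 1) ∣ L * GG A B D n - 1) ∧
    (L.map (Int.castRingHom ℂ)).rootMultiplicity (Fintype.card F : ℂ)⁻¹ = m ∧
    (Simple (Om F) (curve A B D) → m ≤ 1) ∧ (-1) ^ m = rootN A B D ∧
    ∃ P, Src A B D P ∧ P.rootMultiplicity 1 = m ∧
      L.map (Int.castRingHom ℤ_[2]) = P.comp (C (Fintype.card F : ℤ_[2]) * X) := by
  obtain ⟨P, hs, h0, h1, h2, h3⟩ := euler h hD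
  have hi : Function.Injective (Int.castRingHom ℤ_[2]) := Int.cast_injective
  have hq0 : (Fintype.card F : ℤ_[2]) ≠ 0 := Nat.cast_ne_zero.2 Fintype.card_ne_zero
  set Q := P.comp (C (Fintype.card F : ℤ_[2]) * X) with hQ
  have hd : ∀ (k : ℕ) (p : ℤ[X]), X ^ k ∣ p.map (Int.castRingHom ℤ_[2]) → X ^ k ∣ p :=
    fun k p e => X_pow_dvd_iff.2 fun i hi' => hi (by
      rw [← coeff_map, X_pow_dvd_iff.1 e i hi', map_zero])
  obtain ⟨L, hL⟩ : ∃ L : ℤ[X], L.map (Int.castRingHom ℤ_[2]) = Q := by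
    have a1 : (GG A B D Q.natDegree).coeff 0 = 1 := hi (by
      have b1 := X_pow_dvd_iff.1 (h3 Q.natDegree) 0 (Nat.succ_pos _)
      rw [coeff_sub, mul_coeff_zero, comp_C_mul_X_coeff, h0, coeff_map] at b1
      simpa [sub_eq_zero] using b1)
    have a2 : IsCoprime (X ^ (Q.natDegree + 1)) (GG A B D Q.natDegree) :=
      IsCoprime.pow_left ⟨-divX (GG A B D Q.natDegree), 1, by
        linear_combination -divX_mul_X_add (GG A B D Q.natDegree) + congrArg C a1 + C_1 (R := ℤ)⟩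
    have a3 := a2.map (mapRingHom (Int.castRingHom ℤ_[2]))
    obtain ⟨α, M, a4⟩ := a2
    have a5 := congrArg (Polynomial.map (Int.castRingHom ℤ_[2]))
      (modByMonic_add_div M (X ^ (Q.natDegree + 1)))
    replace a4 := congrArg (Polynomial.map (Int.castRingHom ℤ_[2])) a4
    obtain ⟨c, hc⟩ := h3 Q.natDegree
    simp only [coe_mapRingHom, Polynomial.map_add, Polynomial.map_mul, Polynomial.map_pow, map_X,
      Polynomial.map_one] at a3 a4 a5
    refine ⟨M %ₘ X ^ (Q.natDegree + 1), sub_eq_zero.1 (eq_zero_of_dvd_of_degree_lt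
      (a3.dvd_of_dvd_mul_right ⟨-(α.map _) - c - (M /ₘ X ^ (Q.natDegree + 1)).map _ *
        (GG A B D Q.natDegree).map _, by
          linear_combination a4 - hc + (GG A B D Q.natDegree).map _ * a5⟩) ?_)⟩
    rw [degree_X_pow]
    refine (degree_sub_le _ _).trans_lt (max_lt (degree_map_le.trans_lt ?_)
      (degree_le_natDegree.trans_lt (by exact_mod_cast Nat.lt_succ_self _)))
    exact (degree_modByMonic_lt _ (monic_X_pow _)).trans_eq (degree_X_pow _)
  have h4 : ∀ n, X ^ (n + 1) ∣ L * GG A B D n - 1 := fun n => hd _ _ (by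
    rw [Polynomial.map_sub, Polynomial.map_mul, Polynomial.map_one, hL]
    exact h3 n)
  have h5 : Q.natDegree = P.natDegree := by
    rw [hQ, natDegree_comp, natDegree_C_mul_X _ hq0, mul_one]
  have h6 : L.natDegree = P.natDegree := by rw [← h5, ← hL, natDegree_map_eq_of_injective hi]
  refine ⟨L, P.rootMultiplicity 1, fun e => ?_, h4, ?_, h2, sign_eq (fun n _ => zeta n) h (hi ?_) h4,
    P, hs, rfl, hL⟩
  · simpa [e] using X_pow_dvd_iff.1 (h4 0) 0 one_pos
  · have a1 : (Fintype.card F : ℚ) ≠ 0 := Nat.cast_ne_zero.2 Fintype.card_ne_zero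
    have a2 := eq_rootMultiplicity_map (p := L.map (Int.castRingHom ℚ))
      (algebraMap ℚ ℂ).injective (Fintype.card F : ℚ)⁻¹
    have a3 := eq_rootMultiplicity_map (p := L.map (Int.castRingHom ℚ))
      (algebraMap ℚ ℚ_[2]).injective (Fintype.card F : ℚ)⁻¹
    have a4 := eq_rootMultiplicity_map (p := P) (IsFractionRing.injective ℤ_[2] ℚ_[2]) 1
    have a5 := rootMultiplicity_comp_C_mul_X_add_C (P.map (algebraMap ℤ_[2] ℚ_[2]))
      (Fintype.card F : ℚ_[2]) 0 (Fintype.card F : ℚ_[2])⁻¹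
      (Nat.cast_ne_zero.2 Fintype.card_ne_zero).isUnit
    have a6 := congrArg (Polynomial.map (algebraMap ℤ_[2] ℚ_[2])) hL
    rw [Polynomial.map_map, map_inv₀, map_natCast] at a2 a3
    rw [Polynomial.map_map, hQ, map_comp, Polynomial.map_mul, map_C, map_X, map_natCast] at a6
    rw [C_0, add_zero, add_zero, mul_inv_cancel₀ (Nat.cast_ne_zero.2 Fintype.card_ne_zero),
      ← a6] at a5
    rw [a4, map_one, ← a5, RingHom.ext_int (Int.castRingHom ℂ) _, ← a2, a3]
    exact congrArg (fun f => rootMultiplicity _ (L.map f)) (RingHom.ext_int _ _)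
  · rw [← leadingCoeff_map_of_injective hi, hL, hQ, leadingCoeff_comp
      (by rw [natDegree_C_mul_X _ hq0]; exact one_ne_zero), leadingCoeff_C_mul_X, h1, h6]
    simp

/-- Half of the twists have rank zero and half have rank one. -/
theorem dens (hsq : Squarefree (A * B * (A - B))) (hA : 0 < A.natDegree)
    (hB : B.natDegree = A.natDegree) (hC : (A - B).natDegree = A.natDegree) {r : ℕ} (hr : r ≤ 1)
    (R : F[X] → Prop) (hR : ∀ D, Fam0 A B D → 0 < D.natDegree → ∀ L : ℤ[X], L ≠ 0 →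
      (∀ n, X ^ (n + 1) ∣ L * GG A B D n - 1) →
      (R D ↔ (L.map (Int.castRingHom ℂ)).rootMultiplicity (Fintype.card F : ℂ)⁻¹ = r)) :
    Tendsto (fun d : ℕ =>
      ({D : F[X] | D.natDegree = d ∧ Squarefree (A * B * (A - B) * D) ∧ R D}.ncard : ℝ) /
      ({D : F[X] | D.natDegree = d ∧ Squarefree (A * B * (A - B) * D)}.ncard : ℝ))
      atTop (nhds (1 / 2)) := by
  obtain ⟨u, h1, h2⟩ := exists_flip hsq hA
  have h3 : ∀ (m : ℕ) (x : ZMod 4), (-1) ^ m = x → x = 1 ∨ x = -1 := fun m x e =>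
    e ▸ neg_one_pow_eq_or _ m
  refine dens_comb hq.out hsq (final hsq hA hB hC) (half hq.out hsq h1
    (fun D => rootN A B D = (-1) ^ r) ?_) ?_
  · filter_upwards [eventually_gt_atTop 0] with d hd D D' a1 a2 _ a3 _ a4
    obtain ⟨-, m, -, -, -, -, a5, -⟩ := core ⟨a3, hB, hC, hA⟩ (a1 ▸ hd)
    rw [h2 D D' (a1.trans a2.symm) a3 a4]
    rcases h3 _ _ a5 with a6 | a6 <;> rcases neg_one_pow_eq_or (ZMod 4) r with a7 | a7 <;>
      rw [a6, a7] <;> decide
  · filter_upwards [eventually_gt_atTop 0] with d hd D a1 a2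
    obtain ⟨L, m, a3, a4, a5, a6, a7, -⟩ := core ⟨a2, hB, hC, hA⟩ (a1 ▸ hd)
    rw [hR D ⟨a2, hB, hC, hA⟩ (a1 ▸ hd) L a3 a4, a5, ← a7]
    refine ⟨fun b1 b2 => ?_, fun e => by rw [e]⟩
    have := a6 b1
    interval_cases m <;> interval_cases r <;> first | rfl | exact absurd b2 (by decide)

end

end Pool.Agent.Lib.MP_16ef92_ag.FF
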