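import Mathlib
import Pool.Agent.Lib.MP_03e5d0_nt.FF.Defs

set_option autoImplicit false
set_option linter.unusedSectionVars false
set_option linter.unusedVariables false

namespace Pool.Agent.Lib.MP_03e5d0_nt.FF

open Polynomial ArithmeticFunction
open scoped PowerSeries

noncomputable section

theorem order_eval {P : ℂ[X]} (hP : P ≠ 0) (c : ℂ) :
    analyticOrderAt (fun z => P.eval z) c = P.rootMultiplicity c := by
  obtain ⟨Q, e, hQ⟩ := exists_eq_pow_rootMultiplicity_mul_and_not_dvd P hP c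
  refine (P.differentiable.analyticAt c).analyticOrderAt_eq_natCast.2
    ⟨fun z => Q.eval z, Q.differentiable.analyticAt c, fun h => hQ (dvd_iff_isRoot.2 h),
      .of_forall fun z => ?_⟩
  conv_lhs => rw [e]
  simp

variable {q : ℕ} (hq : 1 < q) (L : ℤ[X])
include hq

theorem hasSum_poly (s : ℂ) : LSeriesHasSum (fun n => (ofPowerSeries q (L : ℤ⟦X⟧) n : ℂ)) s
    ((L.map (Int.castRingHom ℂ)).eval ((q : ℂ) ^ (-s))) := by
  refine ((Nat.pow_right_injective hq).hasSum_iff fun n hn => ?_).1 ?_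
  · rw [LSeries.term_def, ofPowerSeries_apply hq, Function.extend_apply' _ _ _ hn]
    simp
  · rw [eval_map, eval₂_eq_sum, Polynomial.sum]
    have h : ∀ k, LSeries.term (fun n => (ofPowerSeries q (L : ℤ⟦X⟧) n : ℂ)) s (q ^ k) =
        Int.castRingHom ℂ (L.coeff k) * ((q : ℂ) ^ (-s)) ^ k := fun k => by
      rw [LSeries.term_of_ne_zero (by positivity), ofPowerSeries_apply_pow hq, coeff_coe,
        Nat.cast_pow, ← Complex.natCast_cpow_natCast_mul, Complex.cpow_nat_mul, Complex.cpow_neg,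
        inv_pow]
      rfl
    simp only [Function.comp_def, h]
    exact hasSum_sum_of_ne_finset_zero fun k hk => by simp [notMem_support_iff.1 hk]

/-- The order at one of the Dirichlet series of a polynomial. -/
theorem hasOrd_iff (hL : L ≠ 0) (r : ℕ) : HasOrd (ofPowerSeries q (L : ℤ⟦X⟧)) r ↔
    (L.map (Int.castRingHom ℂ)).rootMultiplicity (q : ℂ)⁻¹ = r := by
  have h0 : (q : ℂ) ≠ 0 := Nat.cast_ne_zero.2 (by omega)
  have h1 : ∀ s : ℂ, HasDerivAt (fun s : ℂ => (q : ℂ) ^ (-s))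
      ((q : ℂ) ^ (-s) * Complex.log q * (-1)) s := fun s =>
    (hasDerivAt_neg s).const_cpow (Or.inl h0)
  have h2 : Differentiable ℂ fun s : ℂ => (q : ℂ) ^ (-s) := fun s => (h1 s).differentiableAt
  have h3 := (L.map (Int.castRingHom ℂ)).differentiable.comp h2
  have h4 : analyticOrderAt ((fun z => (L.map (Int.castRingHom ℂ)).eval z) ∘
      fun s : ℂ => (q : ℂ) ^ (-s)) 1 =
      (L.map (Int.castRingHom ℂ)).rootMultiplicity (q : ℂ)⁻¹ := by
    rw [analyticOrderAt_comp_of_deriv_ne_zero (h2.analyticAt 1), Complex.cpow_neg_one,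
      order_eval ((Polynomial.map_ne_zero_iff Int.cast_injective).2 hL)]
    rw [(h1 1).deriv, Complex.cpow_neg_one, ← Complex.natCast_log]
    exact mul_ne_zero (mul_ne_zero (inv_ne_zero h0) (Complex.ofReal_ne_zero.2
      (Real.log_pos (by exact_mod_cast hq)).ne')) (by simp)
  refine ⟨fun ⟨f, hf, ⟨σ, hσ⟩, e⟩ => ?_, fun e => ⟨_, h3, ⟨0, fun s _ => hasSum_poly hq L s⟩,
    by rw [h4, e]⟩⟩
  have h5 := AnalyticOnNhd.eq_of_eventuallyEq (fun s _ => hf.analyticAt s)
    (fun s _ => h3.analyticAt s) (z₀ := ((σ + 1 : ℝ) : ℂ))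
    (Filter.eventually_of_mem ((isOpen_lt continuous_const Complex.continuous_re).mem_nhds
      (show σ < _ by simp)) fun s hs => (hσ s hs).unique (hasSum_poly hq L s))
  rw [h5, h4] at e
  exact_mod_cast e

end

end Pool.Agent.Lib.MP_03e5d0_nt.FF
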