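import Mathlib
import Pool.Agent.Lib.MP_03e5d0_nt.FF.Defs
import Pool.Agent.Lib.MP_16ef92_ag.GF.Prm

set_option autoImplicit false
set_option linter.unusedSectionVars false
set_option linter.unusedVariables false

namespace Pool.Agent.Lib.MP_03e5d0_nt.FF

open Polynomial MP_16ef92_ag.GF

noncomputable section

variable {F K : Type} [Field F] [Fintype F] [Field K] {φ : F[X] →+* K} {p : F[X]}
  {O : ValuationSubring K}

/-- `K` is the field of fractions of the image of `φ`. -/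
structure Fc (φ : F[X] →+* K) : Prop where
  inj : Function.Injective φ
  sur : ∀ x, ∃ a b, b ≠ 0 ∧ x * φ b = φ a

/-- `O` is the local ring at `p`. -/
def At (φ : F[X] →+* K) (O : ValuationSubring K) (p : F[X]) : Prop :=
  ∀ x, x ∈ O ↔ ∃ a b, ¬ p ∣ b ∧ x * φ b = φ a

theorem Fc.ne (h : Fc φ) {a : F[X]} (ha : a ≠ 0) : φ a ≠ 0 := (map_ne_zero_iff _ h.inj).2 ha

theorem Fc.cop (h : Fc φ) (x : K) : ∃ a b, b ≠ 0 ∧ IsCoprime a b ∧ x * φ b = φ a := by
  classical
  obtain ⟨a, b, hb, e⟩ := h.sur x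
  obtain ⟨a', b', ha', hb', hc⟩ := extract_gcd a b
  have h0 : gcd a b ≠ 0 := fun e => hb ((gcd_eq_zero_iff _ _).1 e).2
  refine ⟨a', b', fun e => hb (by rw [hb', e, mul_zero]), (gcd_isUnit_iff _ _).1 hc,
    mul_left_cancel₀ (h.ne h0) ?_⟩
  rw [← map_mul, ← ha', mul_left_comm, ← map_mul, ← hb', e]

theorem At.mem (h : At φ O p) (hp : Prm p) (a : F[X]) : φ a ∈ O :=
  (h _).2 ⟨a, 1, fun e => hp.2.not_isUnit (isUnit_of_dvd_one e), by simp⟩

theorem At.inv_mem (h : At φ O p) (hφ : Fc φ) {a : F[X]} (ha : a ≠ 0) :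
    (φ a)⁻¹ ∈ O ↔ ¬ p ∣ a ∨ ∃ b, ¬ p ∣ b ∧ a ∣ b := by
  refine ⟨fun e => ?_, fun e => (h _).2 ?_⟩
  · obtain ⟨c, b, hb, e⟩ := (h _).1 e
    rw [inv_mul_eq_iff_eq_mul₀ (hφ.ne ha), ← map_mul] at e
    exact Or.inr ⟨b, hb, c, hφ.inj e⟩
  · refine ⟨1, a, fun d => e.elim (· d) fun ⟨b, h1, h2⟩ => h1 (d.trans h2), ?_⟩
    rw [inv_mul_cancel₀ (hφ.ne ha), map_one]

theorem At.eq_of (h : At φ O p) (hφ : Fc φ) (hp : Prm p) {r : F[X]} (hr : Prm r) (h' : At φ O r) :
    p = r := by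
  refine eq_of_monic_of_associated hp.1 hr.1 (hp.2.associated_of_dvd hr.2 (not_not.1 fun e => ?_))
  rcases (h'.inv_mem hφ hr.ne).1 ((h.inv_mem hφ hr.ne).2 (Or.inl e)) with e | ⟨b, h1, h2⟩
  exacts [e dvd_rfl, h1 h2]

theorem At.ext (h : At φ O p) {O' : ValuationSubring K} (h' : At φ O' p) : O = O' :=
  ValuationSubring.ext _ _ fun x => (h x).trans (h' x).symm

theorem Fc.exists_prm (h : Fc φ) (hO : O ≠ ⊤) (hm : ∀ f, φ f ∈ O) : ∃ p, Prm p ∧ At φ O p := by
  classical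
  let I : Ideal F[X] := (IsLocalRing.maximalIdeal O).comap (φ.codRestrict O hm)
  have hI : ∀ f, f ∉ I ↔ f ≠ 0 ∧ (φ f)⁻¹ ∈ O := fun f => by
    rw [Ideal.mem_comap, IsLocalRing.notMem_maximalIdeal, isUnit_iff_exists_inv]
    refine ⟨fun ⟨y, hy⟩ => ?_, fun ⟨h1, h2⟩ => ⟨⟨_, h2⟩, Subtype.ext (mul_inv_cancel₀ (h.ne h1))⟩⟩
    have e : φ f * y = 1 := congrArg Subtype.val hy
    exact ⟨fun h0 => by simp [h0] at e, eq_inv_of_mul_eq_one_right e ▸ y.2⟩
  have key : ∀ x a b, b ∉ I → x * φ b = φ a → x ∈ O := fun x a b hb e => by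
    rw [(eq_mul_inv_iff_mul_eq₀ (h.ne ((hI b).1 hb).1)).2 e]
    exact mul_mem (hm a) ((hI b).1 hb).2
  have h0 : I ≠ ⊥ := fun e => hO (eq_top_iff.2 fun x _ => by
    obtain ⟨a, b, hb, e'⟩ := h.sur x
    exact key x a b (by rw [e]; exact hb) e')
  obtain ⟨g, hg⟩ := (IsPrincipalIdealRing.principal I).principal
  have hg0 : g ≠ 0 := fun e => h0 (by rw [hg, e]; simp)
  have hp : I.IsPrime := inferInstance
  rw [hg] at hp
  have hd : ∀ b, normalize g ∣ b ↔ b ∈ I := fun b => by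
    rw [normalize_dvd_iff, hg]
    exact Ideal.mem_span_singleton.symm
  refine ⟨normalize g, ⟨monic_normalize hg0, (associated_normalize g).irreducible
    ((Ideal.span_singleton_prime hg0).1 hp).irreducible⟩, fun x => ⟨fun hx => ?_,
      fun ⟨a, b, hb, e⟩ => key x a b (fun d => hb ((hd b).2 d)) e⟩⟩
  obtain ⟨a, b, hb, ⟨u, w, hc⟩, e⟩ := h.cop x
  refine ⟨a, b, fun d => ?_, e⟩
  have h1 : a ∈ I := by
    have : φ.codRestrict O hm a = ⟨x, hx⟩ * φ.codRestrict O hm b := Subtype.ext e.symm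
    rw [Ideal.mem_comap, this]
    exact Ideal.mul_mem_left _ _ ((hd b).1 d)
  exact Ideal.IsPrime.ne_top (I := I) inferInstance ((Ideal.eq_top_iff_one _).2
    (hc ▸ add_mem (I.mul_mem_left _ h1) (I.mul_mem_left _ ((hd b).1 d))))

theorem At.loc (h : At φ O p) (hφ : Fc φ) (hp : Prm p) :
    haveI := (Ideal.span_singleton_prime hp.ne).2 hp.2.prime
    letI := (φ.codRestrict O (h.mem hp)).toAlgebra
    IsLocalization.AtPrime O (Ideal.span {p}) := by
  have := (Ideal.span_singleton_prime hp.ne).2 hp.2.prime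
  let := (φ.codRestrict O (h.mem hp)).toAlgebra
  refine (isLocalization_iff _ _).2 ⟨fun ⟨y, hy⟩ => ?_, fun ⟨x, hx⟩ => ?_, fun {a b} e =>
    ⟨1, by rw [hφ.inj (congrArg Subtype.val e)]⟩⟩
  · have h1 : ¬ p ∣ y := fun d => hy (Ideal.mem_span_singleton.2 d)
    have h0 : y ≠ 0 := fun e => h1 (e ▸ dvd_zero p)
    exact isUnit_iff_exists_inv.2 ⟨⟨_, (h.inv_mem hφ h0).2 (Or.inl h1)⟩,
      Subtype.ext (mul_inv_cancel₀ (hφ.ne h0))⟩
  · obtain ⟨a, b, hb, e⟩ := (h x).1 hx
    exact ⟨⟨a, b, fun d => hb (Ideal.mem_span_singleton.1 d)⟩, Subtype.ext e⟩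

theorem Fc.exists_place (h : Fc φ) (hp : Prm p) : ∃ v : Place K, At φ v.1 p := by
  have h1 : ¬ p ∣ 1 := fun e => hp.2.not_isUnit (isUnit_of_dvd_one e)
  have h2 : ∀ {a b}, ¬ p ∣ a → ¬ p ∣ b → ¬ p ∣ a * b := fun ha hb e =>
    (hp.2.prime.dvd_or_dvd e).elim ha hb
  let O : ValuationSubring K :=
    { carrier := {x | ∃ a b, ¬ p ∣ b ∧ x * φ b = φ a}
      mul_mem' := fun ⟨a, b, hb, e⟩ ⟨c, d, hd, e'⟩ => ⟨a * c, b * d, h2 hb hd, by
        rw [map_mul, map_mul, ← e, ← e']; ring⟩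
      one_mem' := ⟨1, 1, h1, one_mul _⟩
      add_mem' := fun ⟨a, b, hb, e⟩ ⟨c, d, hd, e'⟩ => ⟨a * d + c * b, b * d, h2 hb hd, by
        rw [map_add, map_mul, map_mul, map_mul, ← e, ← e']; ring⟩
      zero_mem' := ⟨0, 1, h1, by simp⟩
      neg_mem' := fun ⟨a, b, hb, e⟩ => ⟨-a, b, hb, by rw [map_neg, ← e, neg_mul]⟩
      mem_or_inv_mem' := fun x => by
        obtain ⟨a, b, hb, hc, e⟩ := h.cop x
        by_cases d : p ∣ b
        · have h3 : ¬ p ∣ a := fun d' => hp.2.not_isUnit (hc.isUnit_of_dvd' d' d)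
          refine Or.inr ⟨b, a, h3, ?_⟩
          have h4 : a ≠ 0 := fun h4 => h3 (h4 ▸ dvd_zero p)
          rw [← e, inv_mul_cancel_left₀ (left_ne_zero_of_mul (e ▸ h.ne h4))]
        · exact Or.inl ⟨a, b, d, e⟩ }
  have hO : At φ O p := fun _ => Iff.rfl
  have := (Ideal.span_singleton_prime hp.ne).2 hp.2.prime
  let := (φ.codRestrict O (hO.mem hp)).toAlgebra
  have := hO.loc h hp
  exact ⟨⟨O, IsLocalization.AtPrime.isDiscreteValuationRing_of_dedekind_domain F[X]
    (P := Ideal.span {p}) (by simpa using hp.ne) O⟩, hO⟩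

/-- The residue map. -/
theorem At.res (h : At φ O p) (hφ : Fc φ) (hp : Prm p) {k : Type} [Field k] (π : F[X] →+* k)
    (hπ : Function.Surjective π) (hk : ∀ f, π f = 0 ↔ p ∣ f) :
    ∃ (ψ : F[X] →+* O) (ρ : O →+* k), (∀ f, (ψ f : K) = φ f) ∧ Function.Surjective ρ ∧
      (∀ f, ρ (ψ f) = π f) ∧ ∀ u, ρ u = 0 → ψ p ∣ u := by
  have := (Ideal.span_singleton_prime hp.ne).2 hp.2.prime
  let := (φ.codRestrict O (h.mem hp)).toAlgebra
  have := h.loc hφ hp
  have hu : ∀ y : (Ideal.span {p}).primeCompl, IsUnit (π y) := fun y =>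
    Ne.isUnit fun e => y.2 (Ideal.mem_span_singleton.2 ((hk _).1 e))
  have h1 : ∀ f, IsLocalization.lift (S := O) hu (algebraMap F[X] O f) = π f :=
    IsLocalization.lift_eq hu
  refine ⟨algebraMap F[X] O, IsLocalization.lift hu, fun _ => rfl, fun y => ?_, h1, fun u e => ?_⟩
  · obtain ⟨f, rfl⟩ := hπ y
    exact ⟨_, h1 f⟩
  · obtain ⟨⟨a, b⟩, e'⟩ := IsLocalization.surj (Ideal.span {p}).primeCompl u
    have h2 := congrArg (IsLocalization.lift (S := O) hu) e'
    rw [map_mul, e, zero_mul, h1, eq_comm, hk] at h2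
    exact (IsLocalization.map_units O b).dvd_mul_right.1 (e' ▸ map_dvd _ h2)

theorem card_res {k : Type} [Field k] {ρ : O →+* k} (hρ : Function.Surjective ρ) :
    Nat.card (IsLocalRing.ResidueField O) = Nat.card k :=
  Nat.card_congr ((Ideal.quotEquivOfEq (IsLocalRing.eq_maximalIdeal
    (RingHom.ker_isMaximal_of_surjective ρ hρ)).symm).trans
      (RingHom.quotientKerEquivOfSurjective hρ)).toEquiv

variable (F) in
/-- Polynomials in the variable, or in its inverse. -/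
def ph : Bool → F[X] →+* RatFunc F
  | true => algebraMap F[X] (RatFunc F)
  | false => (aeval (RatFunc.X : RatFunc F)⁻¹ : F[X] →ₐ[F] RatFunc F)

theorem ph_reflect {f : F[X]} {n : ℕ} (h : f.natDegree ≤ n) :
    ph F false (reflect n f) * RatFunc.X ^ n = ph F true f := by
  let : Invertible (RatFunc.X : RatFunc F) := invertibleOfNonzero RatFunc.X_ne_zero
  have := eval₂_reflect_mul_pow (algebraMap F (RatFunc F)) (RatFunc.X : RatFunc F) n f h
  rw [invOf_eq_inv] at this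
  exact this.trans (RatFunc.aeval_X_left_eq_algebraMap f)

theorem fc_true : Fc (ph F true) := ⟨IsFractionRing.injective _ _, fun x => by
  obtain ⟨⟨a, b⟩, e⟩ := IsLocalization.surj (nonZeroDivisors F[X]) x
  exact ⟨a, b, nonZeroDivisors.ne_zero b.2, e⟩⟩

theorem fc_false : Fc (ph F false) := by
  refine ⟨transcendental_iff_injective.1 fun e => RatFunc.transcendental_X (K := F)
    (IsAlgebraic.inv_iff.1 e), fun x => ?_⟩
  obtain ⟨a, b, hb, e⟩ := fc_true.sur x
  refine ⟨reflect (a.natDegree + b.natDegree) a, reflect (a.natDegree + b.natDegree) b,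
    by simpa using hb, mul_right_cancel₀ (pow_ne_zero (a.natDegree + b.natDegree)
      RatFunc.X_ne_zero) ?_⟩
  rw [mul_assoc, ph_reflect le_add_self, ph_reflect le_self_add, e]

theorem ph_mem {O : ValuationSubring (RatFunc F)} {b : Bool} (h : ph F b X ∈ O) (f : F[X]) :
    ph F b f ∈ O := by
  have h1 : ∀ c : F, algebraMap F (RatFunc F) c ∈ O := fun c => by
    refine (O.mem_or_inv_mem _).elim id fun e => ?_
    by_cases h0 : c = 0
    · simp [h0]
    · have h2 := Fintype.one_lt_card (α := F)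
      have h3 : c⁻¹ ^ (Fintype.card F - 2) = c := by
        have h4 := FiniteField.pow_card_sub_one_eq_one c⁻¹ (inv_ne_zero h0)
        rw [show Fintype.card F - 1 = Fintype.card F - 2 + 1 by omega, pow_succ] at h4
        simpa using eq_inv_of_mul_eq_one_left h4
      rw [← h3, map_pow, map_inv₀]
      exact pow_mem e _
  induction f using Polynomial.induction_on' with
  | add f g hf hg => rw [map_add]; exact add_mem hf hg
  | monomial n c =>
    rw [← C_mul_X_pow_eq_monomial, map_mul, map_pow]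
    refine mul_mem ?_ (pow_mem h n)
    convert h1 c
    cases b <;> simp [ph]

/-- The place `v` belongs to a prime, or it is the place at infinity. -/
def Bel (v : Place (RatFunc F)) : Option F[X] → Prop
  | some p => Prm p ∧ At (ph F true) v.1 p
  | none => At (ph F false) v.1 X

theorem prm_X : Prm (X : F[X]) := ⟨monic_X, irreducible_X⟩

theorem exists_bel (v : Place (RatFunc F)) : ∃ x, Bel v x := by
  have h0 : v.1 ≠ ⊤ := fun e => by
    have := v.2
    refine IsDiscreteValuationRing.not_isField v.1 ?_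
    rw [e]
    exact (Subring.topEquiv (R := RatFunc F)).toMulEquiv.isField (Field.toIsField _)
  by_cases h : ph F true X ∈ v.1
  · obtain ⟨p, hp⟩ := fc_true.exists_prm h0 (ph_mem h)
    exact ⟨some p, hp⟩
  · have e : (ph F false X)⁻¹ = ph F true X := by simp [ph]
    obtain ⟨p, hp, h1⟩ := fc_false.exists_prm h0 (ph_mem (b := false)
      ((v.1.mem_or_inv_mem _).resolve_right (e ▸ h)))
    have h2 : p ∣ X := not_not.1 fun d => h (e ▸ (h1.inv_mem fc_false X_ne_zero).2 (Or.inl d))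
    rw [eq_of_monic_of_associated hp.1 monic_X (hp.2.associated_of_dvd irreducible_X h2)] at h1
    exact ⟨none, h1⟩

theorem Bel.uniq {v : Place (RatFunc F)} {x y : Option F[X]} (h : Bel v x) (h' : Bel v y) :
    x = y := by
  have key : ∀ p, Bel v (some p) → ¬ Bel v none := fun p h1 h2 => by
    have h3 := h1.2.mem h1.1 X
    rw [show ph F true X = (ph F false X)⁻¹ by simp [ph]] at h3
    rcases (At.inv_mem h2 fc_false X_ne_zero).1 h3 with e | ⟨b, e, e'⟩
    exacts [e dvd_rfl, e e']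
  cases x <;> cases y
  exacts [rfl, (key _ h' h).elim, (key _ h h').elim,
    congrArg some (h.2.eq_of fc_true h.1 h'.1 h'.2)]

theorem Bel.ext {v w : Place (RatFunc F)} {x : Option F[X]} (h : Bel v x) (h' : Bel w x) :
    v = w := by
  cases x
  exacts [Subtype.ext (At.ext h h'), Subtype.ext (h.2.ext h'.2)]

theorem exists_of_prm {x : Option F[X]} (h : ∀ p, x = some p → Prm p) : ∃ v, Bel v x := by
  cases x with
  | none => exact fc_false.exists_place prm_X
  | some p => exact (fc_true.exists_place (h p rfl)).imp fun v hv => ⟨h p rfl, hv⟩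

end

end Pool.Agent.Lib.MP_03e5d0_nt.FF
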