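import Mathlib
import Pool.Agent.Lib.MP_03e5d0_nt.FF.TPl
import Pool.Agent.Lib.MP_03e5d0_nt.FF.EDef

set_option autoImplicit false
set_option linter.unusedSectionVars false
set_option linter.unusedVariables false

namespace Pool.Agent.Lib.MP_03e5d0_nt.FF

open Polynomial WeierstrassCurve MP_16ef92_ag MP_16ef92_ag.GF MP_16ef92_ag.FF

noncomputable section

theorem loc_cv {R K k : Type} [CommRing R] [IsDomain R] [IsDiscreteValuationRing R] [Field K]
    [Algebra R K] [IsFractionRing R K] [Field k] {ρ : R →+* k} (hρ : Function.Surjective ρ)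
    (h2 : (2 : k) ≠ 0) {π a b : R} (h0 : ρ π = 0) (hπ : ∀ u, ρ u = 0 → π ∣ u)
    (h1 : a * b * (a - b) ≠ 0) (h : (ρ a ≠ 0 ∨ ρ b ≠ 0) ∨
      ∃ a' b', a = π * a' ∧ b = π * b' ∧ ρ (a' * b' * (a' - b')) ≠ 0) :
    (cv (algebraMap R K a) (algebraMap R K b)).localPolynomial R = lp (cv (ρ a) (ρ b)) := by
  have h3 : ρ 2 ≠ 0 := by rwa [map_ofNat]
  rw [← cv_map, ← cv_map]
  refine localPolynomial_map R ρ hρ _ ?_ fun u hu d1 d2 => ?_
  · rw [cv_Δ]
    exact mul_ne_zero (pow_ne_zero _ fun e => h3 (by rw [e, map_zero])) (pow_ne_zero _ h1)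
  have key : ∀ {n : ℕ} {x y : R}, ρ y = 0 → y ^ (n + 1) ∣ 2 ^ 4 * x → ρ x = 0 :=
    fun {n x y} hy ⟨w, e⟩ => by
      have := congrArg ρ e
      rwa [map_mul, map_mul, map_pow, map_pow, hy, zero_pow n.succ_ne_zero, zero_mul, mul_eq_zero,
        or_iff_right (pow_ne_zero _ h3)] at this
  rw [cv_Δ] at d1
  rw [cv_c₄] at d2
  rcases h with h | ⟨a', b', rfl, rfl, h⟩
  · have e1 := key hu d1
    have e2 := key hu d2
    simp only [map_pow, map_mul, map_sub, map_add, pow_eq_zero_iff two_ne_zero] at e1 e2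
    exact h.elim (fun t => t (pow_eq_zero_iff three_ne_zero |>.1 (by
      linear_combination ρ a * e2 + e1))) fun t => t (pow_eq_zero_iff three_ne_zero |>.1 (by
      linear_combination ρ b * e2 - e1))
  · have h4 : π ≠ 0 := fun e => h1 (by simp [e])
    have h5 := (pow_dvd_pow_of_dvd (hπ u hu) 12).trans d1
    rw [show 2 ^ 4 * (π * a' * (π * b') * (π * a' - π * b')) ^ 2 =
      π ^ 6 * (2 ^ 4 * (a' * b' * (a' - b')) ^ 2) by ring, show π ^ 12 = π ^ 6 * π ^ (5 + 1) by ring,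
      mul_dvd_mul_iff_left (pow_ne_zero _ h4)] at h5
    exact pow_ne_zero 2 h (by rw [← map_pow, key h0 h5])

/-- The local polynomial at a place. -/
def lpoly {K : Type} [Field K] (W : WeierstrassCurve K) (v : Place K) : ℤ[X] :=
  haveI := v.2
  W.localPolynomial v.1

/-- The number of elements of the residue field. -/
def Place.nm {K : Type} [Field K] (v : Place K) : ℕ := Nat.card (IsLocalRing.ResidueField v.1)

variable {F : Type} [Field F] [Fintype F] [Clos F] [hq : Fact (Odd (Fintype.card F))]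
  {A B D : F[X]} {v : Place (RatFunc F)}

theorem twist_eq (A B D : F[X]) :
    twist A B D = cv (ph F true (D * A)) (ph F true (D * B)) := rfl

theorem loc_fin (h : Fam0 A B D) {p : F[X]} (hv : Bel v (some p)) :
    v.nm = Fintype.card F ^ p.natDegree ∧ lpoly (twist A B D) v = lpo A B D (some p) := by
  have := Fact.mk hv.1.2
  have := v.2
  obtain ⟨ψ, ρ, h1, h2, h3, h4⟩ := hv.2.res fc_true hv.1 (AdjoinRoot.mk p) AdjoinRoot.mk_surjective
    fun _ => AdjoinRoot.mk_eq_zero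
  refine ⟨(card_res h2).trans (card_adj p), ?_⟩
  obtain ⟨hA, hB, hC, hD⟩ := h.ne
  have hi : ∀ f, f ≠ 0 → ψ f ≠ 0 := fun f hf e => fc_true.ne hf (by rw [← h1, e]; rfl)
  have hs : ∀ f g, f * g ∣ A * B * (A - B) * D → p ∣ f → ¬ p ∣ g := fun f g e d d' =>
    hv.1.2.not_isUnit (h.sq p ((mul_dvd_mul d d').trans e))
  rw [lpo_some, twist_eq, ← h1, ← h1, ← h3, ← h3]
  refine loc_cv h2 (two_adj p) ((h3 p).trans (AdjoinRoot.mk_self)) h4 ?_ ?_
  · rw [← map_sub, ← map_mul, ← map_mul, ← mul_sub]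
    exact hi _ (by simp [hA, hB, hC, hD])
  by_cases d : p ∣ D
  · obtain ⟨E, rfl⟩ := d
    refine Or.inr ⟨ψ (E * A), ψ (E * B), by rw [← map_mul, mul_assoc],
      by rw [← map_mul, mul_assoc], ?_⟩
    rw [← map_sub, ← map_mul, ← map_mul, h3, Ne, AdjoinRoot.mk_eq_zero, show E * A * (E * B) *
      (E * A - E * B) = E ^ 2 * (A * B * (A - B) * E) by ring]
    have h5 := hs p (A * B * (A - B) * E) ⟨1, by ring⟩ dvd_rfl
    exact fun e => (hv.1.2.prime.dvd_or_dvd e).elim
      (fun e => h5 ((hv.1.2.prime.dvd_of_dvd_pow e).mul_left _)) h5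
  · simp only [h3, Ne, AdjoinRoot.mk_eq_zero, hv.1.2.prime.dvd_mul, d, false_or]
    exact Or.inl (not_and_or.1 fun e => hs A B ⟨_, mul_assoc _ _ _⟩ e.1 e.2)

theorem reflect_succ {f : F[X]} {n : ℕ} (h : f.natDegree ≤ n) :
    reflect (n + 1) f = X * reflect n f := by
  have := reflect_mul (1 : F[X]) f (F := 1) (G := n) (by simp) h
  rwa [one_mul, reflect_one, pow_one, add_comm] at this

theorem loc_inf (h : Fam0 A B D) (hv : Bel v none) :
    v.nm = Fintype.card F ^ 1 ∧ lpoly (twist A B D) v = lpo A B D none := by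
  have := v.2
  obtain ⟨ψ, ρ, h1, h2, h3, h4⟩ := At.res hv fc_false prm_X (constantCoeff (R := F))
    (fun c => ⟨C c, coeff_C_zero⟩) fun _ => X_dvd_iff.symm
  refine ⟨by rw [Place.nm, card_res h2, pow_one, Nat.card_eq_fintype_card], ?_⟩
  obtain ⟨hA, hB, hC, hD⟩ := h.ne
  have hi : ∀ f, f ≠ 0 → ψ f ≠ 0 := fun f hf e => fc_false.ne hf (by rw [← h1, e]; rfl)
  set n := A.natDegree + D.natDegree with hn
  have d1 : (D * A).natDegree = n := by rw [natDegree_mul hD hA, add_comm]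
  have d2 : (D * B).natDegree = n := by rw [natDegree_mul hD hB, add_comm, h.dB]
  have d3 : (D * (A - B)).natDegree = n := by rw [natDegree_mul hD hC, add_comm, h.dC]
  have h5 : ∀ f m, ρ (ψ (reflect m f)) = f.coeff m := fun f m => by
    rw [h3, constantCoeff_apply, coeff_reflect, revAt_zero]
  have h0 : ρ (ψ X) = 0 := (h3 X).trans coeff_X_zero
  have key : ∀ m, n ≤ 2 * m → lpoly (twist A B D) v =
      (cv (algebraMap v.1 (RatFunc F) (ψ (reflect (2 * m) (D * A))))
        (algebraMap v.1 (RatFunc F) (ψ (reflect (2 * m) (D * B))))).localPolynomial v.1 := by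
    intro m hm
    have h6 : (RatFunc.X : RatFunc F) ^ m ≠ 0 := pow_ne_zero _ RatFunc.X_ne_zero
    have h7 : (twist A B D).Δ ≠ 0 := by
      rw [twist_eq, cv_Δ, ← map_sub, ← map_mul, ← map_mul, ← mul_sub, ← map_ofNat (ph F true),
        ← map_ofNat (C : F →+* F[X])]
      exact mul_ne_zero (pow_ne_zero _ (fc_true.ne (C_ne_zero.2 two_neF)))
        (pow_ne_zero _ (fc_true.ne (by simp [hA, hB, hC, hD])))
    rw [lpoly, ← localPolynomial_smul v.1 _ h7 ⟨Units.mk0 _ h6, 0, 0, 0⟩]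
    congr 1
    rw [twist_eq, ← ph_reflect (d1.le.trans hm), ← ph_reflect (d2.le.trans hm), ← h1, ← h1]
    ext <;> simp [cv, variableChange_def] <;> field_simp <;> ring
  have h6 : ∀ m, ψ (reflect m (D * A)) * ψ (reflect m (D * B)) *
      (ψ (reflect m (D * A)) - ψ (reflect m (D * B))) ≠ 0 := fun m => by
    rw [← map_sub, ← map_mul, ← map_mul, ← reflect_sub, ← mul_sub]
    exact hi _ (by simp [hA, hB, hC, hD])
  have l1 : (D * A).coeff n ≠ 0 := d1 ▸ leadingCoeff_ne_zero.2 (mul_ne_zero hD hA)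
  have l2 : (D * B).coeff n ≠ 0 := d2 ▸ leadingCoeff_ne_zero.2 (mul_ne_zero hD hB)
  have l3 : (D * (A - B)).coeff n ≠ 0 := d3 ▸ leadingCoeff_ne_zero.2 (mul_ne_zero hD hC)
  rw [lpo]
  split_ifs with e
  · obtain ⟨m, hm⟩ := e
    rw [← two_mul, ← hn] at hm
    rw [key m hm.le, loc_cv h2 two_neF h0 h4 (h6 _) (Or.inl (Or.inl (by rwa [h5, ← hm]))), h5, h5,
      leadingCoeff, leadingCoeff, d1, d2, hm]
  · obtain ⟨m, hm⟩ := Nat.not_even_iff_odd.1 e
    rw [← hn] at hm
    have h7 : 2 * (m + 1) = n + 1 := by omega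
    rw [key (m + 1) (by omega), loc_cv h2 two_neF h0 h4 (h6 _) (Or.inr ⟨_, _,
      by rw [h7, reflect_succ d1.le, map_mul], by rw [h7, reflect_succ d2.le, map_mul], ?_⟩), h5, h5,
      coeff_eq_zero_of_natDegree_lt (by omega), coeff_eq_zero_of_natDegree_lt (by omega),
      cv_add two_neF]
    rw [map_mul, map_mul, map_sub, h5, h5, ← coeff_sub, ← mul_sub]
    exact mul_ne_zero (mul_ne_zero l1 l2) l3

theorem loc_bel (h : Fam0 A B D) {x : Option F[X]} (hv : Bel v x) :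
    v.nm = Fintype.card F ^ pdg x ∧ lpoly (twist A B D) v = lpo A B D x := by
  cases x
  exacts [loc_inf h hv, loc_fin h hv]

end

end Pool.Agent.Lib.MP_03e5d0_nt.FF
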