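import Mathlib
import Pool.Agent.Lib.MP_03e5d0_nt.FF.TLo

set_option autoImplicit false
set_option linter.unusedSectionVars false
set_option linter.unusedVariables false

namespace Pool.Agent.Lib.MP_03e5d0_nt.FF

open Polynomial ArithmeticFunction Filter MP_16ef92_ag MP_16ef92_ag.GF MP_16ef92_ag.FF
open scoped PowerSeries Classical

noncomputable section

theorem lpoly_zero {K : Type} [Field K] (W : WeierstrassCurve K) (v : Place K) :
    (lpoly W v).coeff 0 = 1 := by
  unfold lpoly WeierstrassCurve.localPolynomial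
  split_ifs <;> simp

theorem inv_mul_coe {l : ℤ[X]} (h : l.coeff 0 = 1) :
    PowerSeries.invOfUnit (l : ℤ⟦X⟧) 1 * l = 1 :=
  PowerSeries.invOfUnit_mul _ _ (by simpa using h)

theorem ops_expand (q : ℕ) {d : ℕ} (hd : 0 < d) {l : ℤ[X]} (h : l.coeff 0 = 1) :
    ofPowerSeries (q ^ d) (PowerSeries.invOfUnit (l : ℤ⟦X⟧) 1) =
      ofPowerSeries q (PowerSeries.invOfUnit (expand ℤ d l : ℤ⟦X⟧) 1) := by
  have h1 : ofPowerSeries (q ^ d) (l : ℤ⟦X⟧) = ofPowerSeries q (expand ℤ d l : ℤ⟦X⟧) := by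
    rw [ofPowerSeries_pow q hd.ne', PowerSeries.subst_coe (PowerSeries.HasSubst.X_pow hd.ne')]
    exact congrArg _ (DFunLike.congr_fun (algHom_ext (f := aeval (PowerSeries.X ^ d : ℤ⟦X⟧))
      (g := (coeToPowerSeries.algHom ℤ).comp (expand ℤ d)) (by simp)) l |>.trans (by simp))
  have h2 := congrArg (ofPowerSeries (q ^ d)) (inv_mul_coe h)
  have h3 := congrArg (ofPowerSeries q) (inv_mul_coe (l := expand ℤ d l)
    (by rwa [coeff_expand hd, if_pos (dvd_zero d), Nat.zero_div]))
  rw [map_mul, map_one] at h2 h3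
  rw [h1] at h2
  exact left_inv_eq_right_inv h2 (by rw [mul_comm, h3])

theorem ops_congr {q : ℕ} (hq : 1 < q) {m : ℕ} {G H : ℤ⟦X⟧} (h : PowerSeries.X ^ (m + 1) ∣ G - H) :
    ofPowerSeries q G m = ofPowerSeries q H m := by
  by_cases e : ∃ k, q ^ k = m
  · obtain ⟨k, rfl⟩ := e
    rw [ofPowerSeries_apply_pow hq, ofPowerSeries_apply_pow hq, ← sub_eq_zero, ← map_sub]
    exact PowerSeries.X_pow_dvd_iff.1 h k ((Nat.lt_pow_self hq).trans (Nat.lt_succ_self _))
  · rw [ofPowerSeries_apply hq, ofPowerSeries_apply hq, Function.extend_apply' _ _ _ e,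
      Function.extend_apply' _ _ _ e]

variable {F : Type} [Field F] [Fintype F] [Clos F] [hq : Fact (Odd (Fintype.card F))]
  {A B D : F[X]}

/-- The Euler product is the Dirichlet series of the polynomial. -/
theorem lfun_eq (h : Fam0 A B D) {L : ℤ[X]} (hL : ∀ n, X ^ (n + 1) ∣ L * GG A B D n - 1) :
    Lfun (twist A B D) = ofPowerSeries (Fintype.card F) (L : ℤ⟦X⟧) := by
  have h1 := Fintype.one_lt_card (α := F)
  choose ix hx using exists_bel (F := F)
  have hi : Function.Injective ix := fun v w e => (hx v).ext (e ▸ hx w)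
  have hm : ∀ v n, pdg (ix v) ≤ n → ix v ∈ Pls F n := fun v n => by
    have := hx v
    cases e : ix v with
    | none => exact fun _ => none_mem_Pls n
    | some p => exact fun d => some_mem_Pls.2 ⟨(e ▸ this : Bel v (some p)).1, d⟩
  have hd : ∀ v, 0 < pdg (ix v) := fun v => pdg_pos (hm v _ le_rfl)
  have : Northcott (Place.nm (K := RatFunc F)) := ⟨fun b =>
    ((Pls F b).finite_toSet.preimage hi.injOn).subset fun v hv => hm v b (by
      have h2 : v.nm ≤ b := hv
      rw [(loc_bel h (hx v)).1] at h2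
      exact (Nat.lt_pow_self h1).le.trans h2)⟩
  ext m
  obtain ⟨s, h2, h3⟩ := ((tendsTo_eulerProduct_ofPowerSeries Place.nm
    (fun v => PowerSeries.invOfUnit (lpoly (twist A B D) v : ℤ⟦X⟧) 1) (fun v => by simp) m).and
    (eventually_ge_atTop ((Pls F m).preimage ix hi.injOn))).exists
  let e : Place (RatFunc F) → ℤ[X] := fun v => expand ℤ (pdg (ix v)) (lpoly (twist A B D) v)
  have h4 : ∀ v, (e v).coeff 0 = 1 := fun v => by
    rw [coeff_expand (hd v), if_pos (dvd_zero _), Nat.zero_div, lpoly_zero]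
  refine h2.symm.trans ?_
  rw [Finset.prod_congr rfl fun v _ => by
    rw [(loc_bel h (hx v)).1, ops_expand _ (hd v) (lpoly_zero _ v)], ← map_prod]
  refine ops_congr h1 ?_
  have h5 : ∏ v ∈ (Pls F m).preimage ix hi.injOn, e v = GG A B D m := by
    rw [GG, ← Finset.prod_preimage ix _ hi.injOn _ fun x h1 h2 => (h2 ?_).elim]
    · exact Finset.prod_congr rfl fun v _ => by rw [← (loc_bel h (hx v)).2]
    · obtain ⟨v, hv⟩ := exists_of_prm (x := x) fun p e => (some_mem_Pls.1 (e ▸ h1)).1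
      exact ⟨v, (hx v).uniq hv⟩
  have h6 : X ^ (m + 1) ∣ ∏ v ∈ s \ (Pls F m).preimage ix hi.injOn, e v - 1 :=
    Finset.prod_induction _ (fun f => X ^ (m + 1) ∣ f - 1) (fun f g hf hg => by
      rw [show f * g - 1 = (f - 1) * g + (g - 1) by ring]
      exact dvd_add (hf.mul_right _) hg) (by simp) fun v hv => by
      have h7 := map_dvd (expand ℤ (pdg (ix v))) (X_dvd_iff.2
        (by simp [lpoly_zero] : (lpoly (twist A B D) v - 1).coeff 0 = 0))
      rw [expand_X, map_sub, map_one] at h7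
      exact (pow_dvd_pow _ (not_le.1 fun d => (Finset.mem_sdiff.1 hv).2
        (Finset.mem_preimage.2 (hm v m d)))).trans h7
  have h7 : X ^ (m + 1) ∣ 1 - L * ∏ v ∈ s, e v := by
    rw [← Finset.prod_sdiff h3, h5]
    convert dvd_sub (dvd_neg.2 (hL m)) (h6.mul_left (L * GG A B D m)) using 1
    ring
  have h8 := (map_dvd (coeToPowerSeries.ringHom (R := ℤ)) h7).mul_left
    (∏ v ∈ s, PowerSeries.invOfUnit (e v : ℤ⟦X⟧) 1)
  rw [map_sub, map_mul, map_prod, map_one, map_pow, mul_sub, mul_left_comm,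
    ← Finset.prod_mul_distrib] at h8
  simpa [inv_mul_coe (h4 _)] using h8

end

end Pool.Agent.Lib.MP_03e5d0_nt.FF
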