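import Mathlib
import Pool.Agent.Lib.MP_03e5d0_nt.FF.TEu
import Pool.Agent.Lib.MP_03e5d0_nt.FF.TAn
import Pool.Agent.Lib.MP_03e5d0_nt.FF.EMain

set_option autoImplicit false

namespace Pool.Agent.Lib.MP_03e5d0_nt.FF

open Polynomial Filter MP_16ef92_ag MP_16ef92_ag.GF MP_16ef92_ag.FF
open scoped Classical

noncomputable section

/-- Half of the admissible twists have analytic rank zero and half have analytic rank one. -/
theorem goldfeld {F : Type} [Field F] [Fintype F] (hq : Odd (Fintype.card F)) {A B : F[X]}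
    (hsq : Squarefree (A * B * (A - B))) (hA : 0 < A.natDegree)
    (hB : B.natDegree = A.natDegree) (hC : (A - B).natDegree = A.natDegree) {r : ℕ} (hr : r ≤ 1) :
    Tendsto (fun d : ℕ =>
      (({D : F[X] | D.natDegree = d ∧ Squarefree (A * B * (A - B) * D) ∧
        HasAnRank (twist A B D) r}.ncard : ℝ)) /
      ({D : F[X] | D.natDegree = d ∧ Squarefree (A * B * (A - B) * D)}.ncard : ℝ))
      atTop (nhds (1 / 2)) := by
  have : Fact (Odd (Fintype.card F)) := ⟨hq⟩
  let L := separableClosure (RatFunc F) (AlgebraicClosure (RatFunc F))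
  let : Clos F := ⟨L, inferInstance, inferInstance, inferInstance, inferInstance, inferInstance,
    inferInstance⟩
  refine dens hsq hA hB hC hr _ fun D h _ P hP e => ?_
  rw [HasAnRank, lfun_eq h e, hasOrd_iff Fintype.one_lt_card P hP]

end

end Pool.Agent.Lib.MP_03e5d0_nt.FF
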